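import Mathlib

/-!
# Minkowski's integral inequality
-/

namespace Pool.Agent.H27.Fib

open MeasureTheory Set Filter
open scoped ENNReal NNReal

variable {α β : Type*} [MeasurableSpace α] [MeasurableSpace β]

/-- Minkowski's integral inequality for a function dominated by an integral of functions, when
the left-hand side is finite. -/
theorem mink_aux {μ : Measure α} {ν : Measure β} [SFinite μ] [SFinite ν] {q : ℝ} (hq : 1 < q)
    {F : α → β → ℝ≥0∞} (hF : Measurable (Function.uncurry F)) {Φ : α → ℝ≥0∞} (hΦ : Measurable Φ)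
    (hle : ∀ x, Φ x ≤ ∫⁻ y, F x y ∂ν) (hfin : ∫⁻ x, Φ x ^ q ∂μ ≠ ⊤) :
    (∫⁻ x, Φ x ^ q ∂μ) ^ (1 / q) ≤ ∫⁻ y, (∫⁻ x, F x y ^ q ∂μ) ^ (1 / q) ∂ν := by
  have hq0 : 0 < q := by linarith
  set I := ∫⁻ x, Φ x ^ q ∂μ with hI
  set R := ∫⁻ y, (∫⁻ x, F x y ^ q ∂μ) ^ (1 / q) ∂ν with hR
  set q' : ℝ := q / (q - 1) with hq'
  have hconj : q'.HolderConjugate q := by
    have h := (Real.HolderConjugate.conjExponent hq).symm
    exact h
  have e1 : (q - 1) * q' = q := by
    rw [hq']
    have : q - 1 ≠ 0 := by linarith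
    field_simp
  have e2 : 1 / q' = 1 - 1 / q := by
    rw [hq']
    have : q - 1 ≠ 0 := by linarith
    field_simp
  have hFy : ∀ y, Measurable fun x => F x y := fun y => hF.comp (measurable_id.prodMk measurable_const)
  have hFx : ∀ x, Measurable fun y => F x y := fun x => hF.comp (measurable_const.prodMk measurable_id)
  have h1 : I ≤ I ^ (1 - 1 / q) * R := by
    calc I = ∫⁻ x, Φ x ^ (q - 1) * Φ x ∂μ := by
          refine lintegral_congr fun x => ?_
          rcases eq_or_ne (Φ x) 0 with h0 | h0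
          · rw [h0, mul_zero, ENNReal.zero_rpow_of_pos hq0]
          · rcases eq_or_ne (Φ x) ⊤ with ht | ht
            · rw [ht, ENNReal.top_rpow_of_pos hq0, ENNReal.top_rpow_of_pos (by linarith),
                ENNReal.top_mul_top]
            · nth_rewrite 3 [← ENNReal.rpow_one (Φ x)]
              rw [← ENNReal.rpow_add _ _ h0 ht]
              congr 1
              ring
      _ ≤ ∫⁻ x, Φ x ^ (q - 1) * ∫⁻ y, F x y ∂ν ∂μ := by
          refine lintegral_mono fun x => ?_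
          dsimp only
          gcongr
          exact hle x
      _ = ∫⁻ x, ∫⁻ y, Φ x ^ (q - 1) * F x y ∂ν ∂μ := by
          refine lintegral_congr fun x => ?_
          rw [lintegral_const_mul _ (hFx x)]
      _ = ∫⁻ y, ∫⁻ x, Φ x ^ (q - 1) * F x y ∂μ ∂ν := by
          have hm : Measurable fun z : α × β => Φ z.1 ^ (q - 1) * F z.1 z.2 :=
            ((hΦ.comp measurable_fst).pow_const _).mul hF
          exact lintegral_lintegral_swap (f := fun x y => Φ x ^ (q - 1) * F x y) hm.aemeasurable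
      _ ≤ ∫⁻ y, I ^ (1 - 1 / q) * (∫⁻ x, F x y ^ q ∂μ) ^ (1 / q) ∂ν := by
          refine lintegral_mono fun y => ?_
          have h := ENNReal.lintegral_mul_le_Lp_mul_Lq μ hconj
            (f := fun x => Φ x ^ (q - 1)) (g := fun x => F x y)
            (hΦ.pow_const _).aemeasurable (hFy y).aemeasurable
          have e3 : ∀ x, (Φ x ^ (q - 1)) ^ q' = Φ x ^ q := by
            intro x
            rw [← ENNReal.rpow_mul, e1]
          simp only [e3, e2] at h
          exact h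
      _ = I ^ (1 - 1 / q) * R := by
          rw [lintegral_const_mul' _ _ (ENNReal.rpow_ne_top_of_nonneg (by
            rw [sub_nonneg, div_le_one hq0]
            exact hq.le) hfin)]
  rcases eq_or_ne I 0 with h0 | h0
  · rw [h0, ENNReal.zero_rpow_of_pos (by positivity)]
    exact bot_le
  · have h2 : I = I ^ (1 - 1 / q) * I ^ (1 / q) := by
      rw [← ENNReal.rpow_add _ _ h0 hfin, sub_add_cancel, ENNReal.rpow_one]
    have h3 : I ^ (1 - 1 / q) * I ^ (1 / q) ≤ I ^ (1 - 1 / q) * R := by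
      rw [← h2]
      exact h1
    have h4 : I ^ (1 - 1 / q) ≠ 0 := by
      rw [ne_eq, ENNReal.rpow_eq_zero_iff]
      rintro (⟨h, _⟩ | ⟨h, _⟩)
      · exact h0 h
      · exact hfin h
    have h5 : I ^ (1 - 1 / q) ≠ ⊤ := ENNReal.rpow_ne_top_of_nonneg (by
            rw [sub_nonneg, div_le_one hq0]
            exact hq.le) hfin
    exact (ENNReal.mul_le_mul_iff_right h4 h5).1 h3

/-- Minkowski's integral inequality for a bounded function dominated by an integral. -/
theorem mink {μ : Measure α} {ν : Measure β} [SigmaFinite μ] [SFinite ν] {q : ℝ} (hq : 1 < q)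
    {F : α → β → ℝ≥0∞} (hF : Measurable (Function.uncurry F)) {Φ : α → ℝ≥0∞} (hΦ : Measurable Φ)
    (hle : ∀ x, Φ x ≤ ∫⁻ y, F x y ∂ν) {B : ℝ≥0∞} (hB : B ≠ ⊤) (hΦB : ∀ x, Φ x ≤ B) :
    ∫⁻ x, Φ x ^ q ∂μ ≤ (∫⁻ y, (∫⁻ x, F x y ^ q ∂μ) ^ (1 / q) ∂ν) ^ q := by
  have hq0 : 0 < q := by linarith
  refine lintegral_le_of_forall_fin_meas_le _ fun s hs hμs => ?_
  have hfin : ∫⁻ x in s, Φ x ^ q ∂μ ≠ ⊤ := by
    refine ne_top_of_le_ne_top ?_ (lintegral_mono (g := fun _ => B ^ q) fun x => ?_)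
    · rw [setLIntegral_const]
      exact ENNReal.mul_ne_top (ENNReal.rpow_ne_top_of_nonneg hq0.le hB) hμs
    · dsimp only
      gcongr
      exact hΦB x
  have h := mink_aux (μ := μ.restrict s) (ν := ν) hq hF hΦ hle hfin
  have h2 : (∫⁻ x in s, Φ x ^ q ∂μ) ^ (1 / q) ≤ ∫⁻ y, (∫⁻ x, F x y ^ q ∂μ) ^ (1 / q) ∂ν := by
    refine h.trans (lintegral_mono fun y => ?_)
    dsimp only
    gcongr
    exact Measure.restrict_le_self
  calc ∫⁻ x in s, Φ x ^ q ∂μ = ((∫⁻ x in s, Φ x ^ q ∂μ) ^ (1 / q)) ^ q := by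
        rw [← ENNReal.rpow_mul, one_div_mul_cancel hq0.ne', ENNReal.rpow_one]
    _ ≤ _ := by gcongr

end Pool.Agent.H27.Fib
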