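import Mathlib
import Pool.Agent.Restr.Good

/-!
# Plancherel for the density of a parabolic family
-/

namespace Pool.Agent.H27.Fib

open MeasureTheory Set Filter
open scoped ENNReal NNReal
open Pool.Agent.Restr (u norm_u enorm_u u_add measurable_u plancherel1)

/-- The kernel bound. -/
noncomputable def cw (L w : ℝ) : ℝ≥0∞ := min (ENNReal.ofReal (2 * √L)) (ENNReal.ofReal (2 * L / |w|))

theorem measurable_cw (L : ℝ) : Measurable (cw L) := by
  unfold cw
  fun_prop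

/-- The width of a parabolic annulus. -/
theorem vol_annulus {a L w : ℝ} (hL : 0 ≤ L) (hw0 : w ≠ 0) (hw : w ^ 2 ≤ a + L) :
    volume {z : ℝ | a ≤ z ^ 2 ∧ z ^ 2 ≤ a + L} ≤ cw L w := by
  set b := a + L with hb
  set a' := max a 0 with ha'
  have hb0 : 0 < b := by
    have : 0 < w ^ 2 := by positivity
    linarith
  have ha'0 : 0 ≤ a' := le_max_right _ _
  have hsub : {z : ℝ | a ≤ z ^ 2 ∧ z ^ 2 ≤ b} ⊆
      Icc (-√b) (-√a') ∪ Icc (√a') (√b) := by
    rintro z ⟨h1, h2⟩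
    have h3 : a' ≤ z ^ 2 := max_le h1 (sq_nonneg z)
    rcases le_total 0 z with hz | hz
    · right
      constructor
      · exact Real.sqrt_le_iff.2 ⟨hz, h3⟩
      · exact Real.le_sqrt_of_sq_le h2
    · left
      have hz' : 0 ≤ -z := by linarith
      have h3' : a' ≤ (-z) ^ 2 := by rwa [neg_sq]
      have h2' : (-z) ^ 2 ≤ b := by rwa [neg_sq]
      constructor
      · linarith [Real.le_sqrt_of_sq_le h2']
      · linarith [Real.sqrt_le_iff.2 ⟨hz', h3'⟩]
  have hvol : volume {z : ℝ | a ≤ z ^ 2 ∧ z ^ 2 ≤ b} ≤ ENNReal.ofReal (2 * (√b - √a')) := by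
    refine (measure_mono hsub).trans ((measure_union_le _ _).trans ?_)
    rw [Real.volume_Icc, Real.volume_Icc, show -√a' - -√b = √b - √a' by ring]
    by_cases hab : 0 ≤ √b - √a'
    · rw [← ENNReal.ofReal_add hab hab, two_mul]
    · rw [ENNReal.ofReal_of_nonpos (by linarith)]
      simp
  refine hvol.trans ?_
  have haL : b - a' ≤ L := by
    have : a ≤ a' := le_max_left _ _
    linarith
  have hsb := Real.sq_sqrt hb0.le
  have hsa := Real.sq_sqrt ha'0
  have hsb0 := Real.sqrt_nonneg b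
  have hsa0 := Real.sqrt_nonneg a'
  unfold cw
  refine le_min (ENNReal.ofReal_le_ofReal ?_) (ENNReal.ofReal_le_ofReal ?_)
  · by_cases hab : 0 ≤ √b - √a'
    · have : √b - √a' ≤ √L := by
        apply Real.le_sqrt_of_sq_le
        nlinarith
      linarith
    · have := Real.sqrt_nonneg L
      linarith
  · have hwb : |w| ≤ √b := Real.abs_le_sqrt hw
    have hw' : 0 < |w| := abs_pos.2 hw0
    rw [le_div_iff₀ hw']
    by_cases hab : 0 ≤ √b - √a'
    · have h1 : (√b - √a') * |w| ≤ (√b - √a') * √b := by gcongr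
      nlinarith
    · have : (√b - √a') * |w| ≤ 0 := mul_nonpos_of_nonpos_of_nonneg (by linarith) hw'.le
      nlinarith

/-- Cauchy–Schwarz for a set of finite measure. -/
theorem sq_lintegral_indicator_le {A : Set ℝ} {F : ℝ → ℝ≥0∞}
    (hF : Measurable F) :
    (∫⁻ w in A, F w) ^ 2 ≤ volume A * ∫⁻ w in A, F w ^ 2 := by
  have h := ENNReal.lintegral_mul_norm_pow_le (μ := volume.restrict A) (f := fun x => F x ^ 2)
    (g := fun _ => 1) (hF.pow_const 2).aemeasurable aemeasurable_const (p := 1 / 2) (q := 1 / 2)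
    (by norm_num) (by norm_num) (by norm_num)
  have e : ∀ y : ℝ≥0∞, (y ^ 2) ^ (1 / 2 : ℝ) = y := by
    intro y
    rw [← ENNReal.rpow_natCast y 2, ← ENNReal.rpow_mul]
    norm_num
  simp only [e, ENNReal.one_rpow, mul_one, lintegral_const, one_mul, Measure.restrict_apply_univ] at h
  calc (∫⁻ w in A, F w) ^ 2
      ≤ ((∫⁻ w in A, F w ^ 2) ^ (1 / 2 : ℝ) * volume A ^ (1 / 2 : ℝ)) ^ 2 := by gcongr
    _ = volume A * ∫⁻ w in A, F w ^ 2 := by
        rw [mul_pow, ← ENNReal.rpow_natCast _ 2, ← ENNReal.rpow_natCast _ 2, ← ENNReal.rpow_mul,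
          ← ENNReal.rpow_mul]
        norm_num
        rw [mul_comm]

/-- The kernel estimate. -/
theorem lemA {κ : ℝ × ℝ → ℂ} (hκ : Measurable κ) (hint : Integrable κ) {B V : ℝ≥0∞} {τ0 L : ℝ}
    (hL : 0 ≤ L)
    (hsupp : ∀ w τ, ¬ (τ0 ≤ τ ∧ τ ≤ τ0 + L) → κ (w, τ) = 0) (hB : ∀ p, ‖κ p‖ₑ ≤ B)
    {n : ℝ → ℝ≥0∞} (hn : ∀ w, ∫⁻ τ, ‖κ (w, τ)‖ₑ ≤ V * n w) :
    ∫⁻ s : ℝ, ‖∫ p : ℝ × ℝ, u (s * (p.1 ^ 2 + p.2)) * κ p‖ₑ ^ 2 ≤
      ENNReal.ofReal (2 * Real.pi) * ∫⁻ w, cw L w * (B * (V * n w)) := by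
  -- the shear
  set m : ℝ → ℂ := fun ρ => ∫ w, κ (w, ρ - w ^ 2) with hm
  set κ' : ℝ × ℝ → ℂ := fun p => κ (p.1, p.2 - p.1 ^ 2) with hκ'
  have hκ'm : Measurable κ' := hκ.comp (by fun_prop)
  have hshear : MeasurePreserving (fun p : ℝ × ℝ => (p.1, p.2 - p.1 ^ 2)) volume volume := by
    have h1 : ∀ x : ℝ, MeasurePreserving (fun y : ℝ => y - x ^ 2) volume volume := fun x =>
      measurePreserving_sub_right volume (x ^ 2)
    have h2 := (MeasurePreserving.id (volume : Measure ℝ)).skew_product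
      (g := fun x y => y - x ^ 2) (μb := (volume : Measure ℝ)) (μc := (volume : Measure ℝ))
      (by fun_prop) (Eventually.of_forall fun x => (h1 x).map_eq)
    exact h2
  have hint' : Integrable κ' := hshear.integrable_comp_of_integrable hint
  have hE : ∀ s : ℝ, ∫ p : ℝ × ℝ, u (s * (p.1 ^ 2 + p.2)) * κ p = ∫ ρ, u (s * ρ) * m ρ := by
    intro s
    have hg : AEStronglyMeasurable (fun p : ℝ × ℝ => u (s * (p.1 ^ 2 + p.2)) * κ p)
        (Measure.map (fun p : ℝ × ℝ => (p.1, p.2 - p.1 ^ 2)) volume) :=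
      ((measurable_u.comp (by fun_prop)).mul hκ).aestronglyMeasurable
    conv_lhs => rw [← hshear.map_eq]
    rw [integral_map (by fun_prop) hg]
    have h3 : Integrable (fun p : ℝ × ℝ => u (s * p.2) * κ' p) := by
      refine hint'.bdd_mul (c := 1) (measurable_u.comp (by fun_prop)).aestronglyMeasurable
        (Eventually.of_forall fun p => (norm_u _).le)
    calc ∫ p : ℝ × ℝ, u (s * (p.1 ^ 2 + (p.2 - p.1 ^ 2))) * κ (p.1, p.2 - p.1 ^ 2)
        = ∫ p : ℝ × ℝ, u (s * p.2) * κ' p := by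
          refine integral_congr_ae (Eventually.of_forall fun p => ?_)
          simp only [hκ', add_sub_cancel]
      _ = ∫ ρ, ∫ w, u (s * ρ) * κ' (w, ρ) := by
          rw [Measure.volume_eq_prod, integral_prod_symm _ (by rwa [← Measure.volume_eq_prod])]
      _ = ∫ ρ, u (s * ρ) * m ρ := by
          refine integral_congr_ae (Eventually.of_forall fun ρ => ?_)
          simp only [hm, hκ']
          rw [integral_const_mul]
  have hmm : Measurable m := by
    have : StronglyMeasurable (fun ρ : ℝ => ∫ w, κ' (w, ρ)) := by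
      apply StronglyMeasurable.integral_prod_left (f := fun w ρ => κ' (w, ρ))
      exact hκ'm.stronglyMeasurable
    exact this.measurable
  have h1 := plancherel1 (μ := (volume : Measure ℝ)) (s := fun x => x) measurable_id
    (C := 1) (fun φ hφ => by rw [one_mul]) (G := m) hmm
  simp only [hE]
  refine h1.trans ?_
  rw [one_mul]
  refine mul_le_mul' le_rfl ?_
  -- pointwise
  have hA : ∀ ρ : ℝ, MeasurableSet {w : ℝ | ρ - (τ0 + L) ≤ w ^ 2 ∧ w ^ 2 ≤ ρ - (τ0 + L) + L} := by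
    intro ρ
    have hsq : Measurable (fun w : ℝ => w ^ 2) := by fun_prop
    exact (measurableSet_le measurable_const hsq).inter
      (measurableSet_le hsq measurable_const)
  have hpt : ∀ ρ, ‖m ρ‖ₑ ^ 2 ≤ ∫⁻ w, cw L w * ‖κ' (w, ρ)‖ₑ ^ 2 := by
    intro ρ
    set A : Set ℝ := {w : ℝ | ρ - (τ0 + L) ≤ w ^ 2 ∧ w ^ 2 ≤ ρ - (τ0 + L) + L} with hAdef
    have hF : Measurable (fun w => ‖κ' (w, ρ)‖ₑ) := (hκ'm.comp (by fun_prop)).enorm
    have hzero : ∀ w, w ∉ A → κ' (w, ρ) = 0 := by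
      intro w hw
      apply hsupp
      rintro ⟨h2, h3⟩
      exact hw ⟨by linarith, by linarith⟩
    calc ‖m ρ‖ₑ ^ 2 ≤ (∫⁻ w, ‖κ' (w, ρ)‖ₑ) ^ 2 := by
          gcongr
          exact enorm_integral_le_lintegral_enorm _
      _ = (∫⁻ w in A, ‖κ' (w, ρ)‖ₑ) ^ 2 := by
          congr 1
          rw [← lintegral_indicator (hA ρ)]
          refine lintegral_congr fun w => ?_
          by_cases hw : w ∈ A
          · rw [indicator_of_mem hw]
          · rw [indicator_of_notMem hw, hzero w hw, enorm_zero]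
      _ ≤ volume A * ∫⁻ w in A, ‖κ' (w, ρ)‖ₑ ^ 2 := sq_lintegral_indicator_le hF
      _ = ∫⁻ w in A, volume A * ‖κ' (w, ρ)‖ₑ ^ 2 := (lintegral_const_mul _ (hF.pow_const 2)).symm
      _ ≤ ∫⁻ w in A, cw L w * ‖κ' (w, ρ)‖ₑ ^ 2 := by
          refine lintegral_mono_ae ?_
          have h0 : ∀ᵐ w ∂(volume.restrict A), w ≠ 0 := by
            refine ae_restrict_of_ae ?_
            exact Measure.ae_ne volume 0
          filter_upwards [h0, ae_restrict_mem (hA ρ)] with w hw hwA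
          gcongr
          exact vol_annulus hL hw hwA.2
      _ ≤ _ := setLIntegral_le_lintegral _ _
  calc ∫⁻ ρ, ‖m ρ‖ₑ ^ 2 ≤ ∫⁻ ρ, ∫⁻ w, cw L w * ‖κ' (w, ρ)‖ₑ ^ 2 := lintegral_mono hpt
    _ = ∫⁻ w, ∫⁻ ρ, cw L w * ‖κ' (w, ρ)‖ₑ ^ 2 := by
        rw [lintegral_lintegral_swap]
        have := measurable_cw L
        exact ((this.comp measurable_snd).mul
          ((hκ'm.comp measurable_swap).enorm.pow_const 2)).aemeasurable
    _ ≤ ∫⁻ w, cw L w * (B * (V * n w)) := by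
        refine lintegral_mono fun w => ?_
        have hF : Measurable (fun ρ => ‖κ' (w, ρ)‖ₑ ^ 2) := (hκ'm.comp (by fun_prop)).enorm.pow_const 2
        dsimp only
        rw [lintegral_const_mul _ hF]
        gcongr
        calc ∫⁻ ρ, ‖κ' (w, ρ)‖ₑ ^ 2 ≤ ∫⁻ ρ, B * ‖κ' (w, ρ)‖ₑ := by
              refine lintegral_mono fun ρ => ?_
              rw [sq]
              gcongr
              exact hB _
          _ = B * ∫⁻ ρ, ‖κ (w, ρ - w ^ 2)‖ₑ :=
              lintegral_const_mul _ (hκ'm.comp (measurable_const.prodMk measurable_id)).enorm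
          _ = B * ∫⁻ τ, ‖κ (w, τ)‖ₑ := by
              rw [lintegral_sub_right_eq_self (fun τ => ‖κ (w, τ)‖ₑ) (w ^ 2)]
          _ ≤ _ := by gcongr; exact hn w

end Pool.Agent.H27.Fib
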