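import Mathlib

/-!
# Unions of few intervals on the line
-/

namespace Pool.Agent.H27.Fib

open MeasureTheory Set
open scoped ENNReal NNReal Pointwise

/-- A set of reals which is a union of at most `m` intervals. -/
def Few (m : ℕ) (J : Set ℝ) : Prop :=
  ∃ P : Fin m → Set ℝ, (∀ i, (P i).OrdConnected) ∧ J = ⋃ i, P i

/-- Unions indexed by a finite type. -/
theorem Few.of_fintype {ι : Type*} [Fintype ι] {J : Set ℝ} (P : ι → Set ℝ)
    (hP : ∀ i, (P i).OrdConnected) (hJ : J = ⋃ i, P i) : Few (Fintype.card ι) J := by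
  refine ⟨fun i => P ((Fintype.equivFin ι).symm i), fun i => hP _, ?_⟩
  rw [hJ]
  exact ((Fintype.equivFin ι).symm.surjective.iUnion_comp P).symm

theorem Few.inter {m n : ℕ} {J K : Set ℝ} (hJ : Few m J) (hK : Few n K) :
    Few (m * n) (J ∩ K) := by
  obtain ⟨P, hP, rfl⟩ := hJ
  obtain ⟨Q, hQ, rfl⟩ := hK
  have h := Few.of_fintype (ι := Fin m × Fin n) (J := (⋃ i, P i) ∩ ⋃ j, Q j)
    (fun i => P i.1 ∩ Q i.2) (fun i => (hP _).inter (hQ _)) (by
      rw [iUnion_inter_iUnion, iUnion_prod'])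
  simpa using h

theorem Few.preimage {m : ℕ} {J : Set ℝ} (hJ : Few m J) {g : ℝ → ℝ}
    (hg : Monotone g ∨ Antitone g) : Few m (g ⁻¹' J) := by
  obtain ⟨P, hP, rfl⟩ := hJ
  refine ⟨fun i => g ⁻¹' P i, fun i => ?_, by rw [preimage_iUnion]⟩
  rcases hg with hg | hg
  · exact (hP i).preimage_mono hg
  · exact (hP i).preimage_anti hg

theorem Few.inter_ordConnected {m : ℕ} {J : Set ℝ} (hJ : Few m J) {K : Set ℝ}
    (hK : K.OrdConnected) : Few m (J ∩ K) := by
  obtain ⟨P, hP, rfl⟩ := hJ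
  exact ⟨fun i => P i ∩ K, fun i => (hP i).inter hK, by rw [iUnion_inter]⟩

/-- The shift difference of an interval is short. -/
theorem vol_shift_diff {P : Set ℝ} (hP : P.OrdConnected) {h : ℝ} (hh : 0 ≤ h) :
    volume {τ | τ ∈ P ∧ τ - h ∉ P} ≤ ENNReal.ofReal h := by
  refine (Real.volume_le_diam _).trans ?_
  refine Metric.ediam_le fun x hx y hy => ?_
  rw [edist_dist, Real.dist_eq]
  apply ENNReal.ofReal_le_ofReal
  rw [abs_le]
  constructor
  · by_contra hc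
    push Not at hc
    exact hy.2 (hP.out hx.1 hy.1 ⟨by linarith, by linarith⟩)
  · by_contra hc
    push Not at hc
    exact hx.2 (hP.out hy.1 hx.1 ⟨by linarith, by linarith⟩)

theorem vol_shift_diff' {P : Set ℝ} (hP : P.OrdConnected) {h : ℝ} (hh : 0 ≤ h) :
    volume {τ | τ ∉ P ∧ τ - h ∈ P} ≤ ENNReal.ofReal h := by
  refine (Real.volume_le_diam _).trans ?_
  refine Metric.ediam_le fun x hx y hy => ?_
  rw [edist_dist, Real.dist_eq]
  apply ENNReal.ofReal_le_ofReal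
  rw [abs_le]
  constructor
  · by_contra hc
    push Not at hc
    exact hx.1 (hP.out hx.2 hy.2 ⟨by linarith, by linarith⟩)
  · by_contra hc
    push Not at hc
    exact hy.1 (hP.out hy.2 hx.2 ⟨by linarith, by linarith⟩)

theorem Few.vol_shift {m : ℕ} {J : Set ℝ} (hJ : Few m J) {h : ℝ} (hh : 0 ≤ h) :
    volume {τ | ¬ (τ ∈ J ↔ τ - h ∈ J)} ≤ ENNReal.ofReal (2 * m * h) := by
  obtain ⟨P, hP, rfl⟩ := hJ
  have hsub : {τ : ℝ | ¬ (τ ∈ (⋃ i, P i) ↔ τ - h ∈ (⋃ i, P i))} ⊆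
      ⋃ i, ({τ | τ ∈ P i ∧ τ - h ∉ P i} ∪ {τ | τ ∉ P i ∧ τ - h ∈ P i}) := by
    intro τ hτ
    simp only [mem_setOf_eq, mem_iUnion, mem_union] at hτ ⊢
    by_contra hc
    push Not at hc
    apply hτ
    constructor
    · rintro ⟨i, hi⟩
      exact ⟨i, (hc i).1 hi⟩
    · rintro ⟨i, hi⟩
      refine ⟨i, ?_⟩
      by_contra hn
      exact (hc i).2 hn hi
  calc volume {τ : ℝ | ¬ (τ ∈ (⋃ i, P i) ↔ τ - h ∈ (⋃ i, P i))}
      ≤ volume (⋃ i, ({τ | τ ∈ P i ∧ τ - h ∉ P i} ∪ {τ | τ ∉ P i ∧ τ - h ∈ P i})) :=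
        measure_mono hsub
    _ ≤ ∑ i, volume ({τ | τ ∈ P i ∧ τ - h ∉ P i} ∪ {τ | τ ∉ P i ∧ τ - h ∈ P i}) := by
        refine (measure_iUnion_le _).trans (le_of_eq ?_)
        exact tsum_fintype _
    _ ≤ ∑ _i : Fin m, ENNReal.ofReal (2 * h) := by
        refine Finset.sum_le_sum fun i _ => ?_
        refine (measure_union_le _ _).trans ?_
        rw [two_mul, ENNReal.ofReal_add hh hh]
        exact add_le_add (vol_shift_diff (hP i) hh) (vol_shift_diff' (hP i) hh)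
    _ = ENNReal.ofReal (2 * m * h) := by
        rw [Finset.sum_const, Finset.card_univ, Fintype.card_fin, nsmul_eq_mul,
          ← ENNReal.ofReal_natCast, ← ENNReal.ofReal_mul (by positivity)]
        congr 1
        ring

/-- Length of a bounded interval. -/
theorem vol_ge {P : Set ℝ} (hP : P.OrdConnected) {x y : ℝ} (hx : x ∈ P) (hy : y ∈ P) :
    ENNReal.ofReal (y - x) ≤ volume P := by
  rw [← Real.volume_Icc]
  exact measure_mono (hP.out hx hy)

/-- Sum set of two intervals. -/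
theorem vol_add_le {P Q : Set ℝ} (hP : P.OrdConnected) (hQ : Q.OrdConnected) :
    volume {x | ∃ y, y ∈ P ∧ x - y ∈ Q} ≤ volume P + volume Q := by
  refine (Real.volume_le_diam _).trans ?_
  refine Metric.ediam_le fun x hx x' hx' => ?_
  obtain ⟨y, hy, hz⟩ := hx
  obtain ⟨y', hy', hz'⟩ := hx'
  have key : ∀ {x x' y y' : ℝ}, y ∈ P → x - y ∈ Q → y' ∈ P → x' - y' ∈ Q →
      ENNReal.ofReal (x - x') ≤ volume P + volume Q := by
    intro x x' y y' hy hz hy' hz'
    calc ENNReal.ofReal (x - x') = ENNReal.ofReal ((y - y') + ((x - y) - (x' - y'))) := by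
          congr 1; ring
      _ ≤ ENNReal.ofReal (y - y') + ENNReal.ofReal ((x - y) - (x' - y')) :=
          ENNReal.ofReal_add_le
      _ ≤ _ := add_le_add (vol_ge hP hy' hy) (vol_ge hQ hz' hz)
  rw [edist_dist, Real.dist_eq]
  rcases le_total x x' with h | h
  · rw [abs_sub_comm, abs_of_nonneg (by linarith)]
    exact key hy' hz' hy hz
  · rw [abs_of_nonneg (by linarith)]
    exact key hy hz hy' hz'

/-- Sum set of two unions of intervals. -/
theorem Few.vol_add {m n : ℕ} {J K : Set ℝ} (hJ : Few m J) (hK : Few n K) :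
    volume {x | ∃ y, y ∈ J ∧ x - y ∈ K} ≤ (m * n : ℕ) * (volume J + volume K) := by
  obtain ⟨P, hP, rfl⟩ := hJ
  obtain ⟨Q, hQ, rfl⟩ := hK
  have hsub : {x : ℝ | ∃ y, y ∈ (⋃ i, P i) ∧ x - y ∈ ⋃ j, Q j} ⊆
      ⋃ p : Fin m × Fin n, {x | ∃ y, y ∈ P p.1 ∧ x - y ∈ Q p.2} := by
    rintro x ⟨y, hy, hz⟩
    obtain ⟨i, hi⟩ := mem_iUnion.1 hy
    obtain ⟨j, hj⟩ := mem_iUnion.1 hz
    exact mem_iUnion.2 ⟨(i, j), y, hi, hj⟩
  calc volume {x : ℝ | ∃ y, y ∈ (⋃ i, P i) ∧ x - y ∈ ⋃ j, Q j}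
      ≤ volume (⋃ p : Fin m × Fin n, {x | ∃ y, y ∈ P p.1 ∧ x - y ∈ Q p.2}) := measure_mono hsub
    _ ≤ ∑ p : Fin m × Fin n, volume {x | ∃ y, y ∈ P p.1 ∧ x - y ∈ Q p.2} := by
        refine (measure_iUnion_le _).trans (le_of_eq ?_)
        exact tsum_fintype _
    _ ≤ ∑ _p : Fin m × Fin n, (volume (⋃ i, P i) + volume (⋃ j, Q j)) := by
        refine Finset.sum_le_sum fun p _ => ?_
        refine (vol_add_le (hP _) (hQ _)).trans ?_
        exact add_le_add (measure_mono (subset_iUnion P p.1)) (measure_mono (subset_iUnion Q p.2))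
    _ = _ := by
        rw [Finset.sum_const, Finset.card_univ, Fintype.card_prod, Fintype.card_fin,
          Fintype.card_fin, nsmul_eq_mul]

end Pool.Agent.H27.Fib
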