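import Mathlib
import Pool.Agent.H27.Fib.Sets
import Pool.Agent.H27.Fib.LemA

/-!
# A dyadic piece of the fibre integral
-/

namespace Pool.Agent.H27.Fib

open MeasureTheory Set Filter
open scoped ENNReal NNReal
open Pool.Agent.Restr (u norm_u enorm_u u_add measurable_u plancherel1)

theorem sqrt_image : Real.sqrt '' Ioi 0 = Ioi 0 := by
  ext y
  constructor
  · rintro ⟨x, hx, rfl⟩
    exact Real.sqrt_pos.2 hx
  · intro hy
    exact ⟨y ^ 2, pow_pos (show (0 : ℝ) < y from hy) 2, Real.sqrt_sq (le_of_lt hy)⟩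

theorem sqrt_inj : InjOn Real.sqrt (Ioi 0) := by
  intro x hx y hy h
  exact (Real.sqrt_inj (le_of_lt hx) (le_of_lt hy)).1 h

theorem sqrt_deriv : ∀ x ∈ Ioi (0 : ℝ), HasDerivWithinAt Real.sqrt (1 / (2 * √x)) (Ioi 0) x := by
  intro x hx
  exact (Real.hasDerivAt_sqrt (ne_of_gt hx)).hasDerivWithinAt

theorem lint_sqrt (g : ℝ → ℝ≥0∞) :
    ∫⁻ τ in Ioi (0 : ℝ), ENNReal.ofReal (1 / (2 * √τ)) * g (√τ) = ∫⁻ y in Ioi (0 : ℝ), g y := by
  have h := lintegral_image_eq_lintegral_abs_deriv_mul measurableSet_Ioi sqrt_deriv sqrt_inj g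
  rw [sqrt_image] at h
  rw [h]
  refine setLIntegral_congr_fun measurableSet_Ioi fun τ _ => ?_
  have : (0 : ℝ) ≤ 1 / (2 * √τ) := by positivity
  simp only [abs_of_nonneg this]

theorem int_sqrt (g : ℝ → ℂ) :
    ∫ τ in Ioi (0 : ℝ), ((1 / (2 * √τ) : ℝ) : ℂ) * g (√τ) = ∫ y in Ioi (0 : ℝ), g y := by
  have h := integral_image_eq_integral_abs_deriv_smul measurableSet_Ioi sqrt_deriv sqrt_inj g
  rw [sqrt_image] at h
  rw [h]
  refine setIntegral_congr_fun measurableSet_Ioi fun τ _ => ?_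
  have : (0 : ℝ) ≤ 1 / (2 * √τ) := by positivity
  simp only [abs_of_nonneg this, Complex.real_smul]

/-- Part of `S` with second coordinate in `[d, 2d)`. -/
def Sd (S : Set (ℝ × ℝ)) (d : ℝ) : Set (ℝ × ℝ) := {p | p ∈ S ∧ d ≤ p.2 ∧ p.2 < 2 * d}

/-- The density in the variable `τ = w₂²`. -/
noncomputable def kap (S : Set (ℝ × ℝ)) (d : ℝ) (p : ℝ × ℝ) : ℝ :=
  (Ioi (0 : ℝ)).indicator (fun τ => 1 / (2 * √τ) * (Sd S d).indicator 1 (p.1, √τ)) p.2

variable {S : Set (ℝ × ℝ)} {d : ℝ}

theorem measurableSet_Sd (hS : MeasurableSet S) (d : ℝ) : MeasurableSet (Sd S d) :=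
  hS.inter ((measurableSet_le measurable_const measurable_snd).inter
    (measurableSet_lt measurable_snd measurable_const))

theorem kap_pos {p : ℝ × ℝ} (hp : 0 < p.2) :
    kap S d p = 1 / (2 * √p.2) * (Sd S d).indicator 1 (p.1, √p.2) := by
  unfold kap
  rw [indicator_of_mem (show p.2 ∈ Ioi (0 : ℝ) from hp)]

theorem kap_nonpos {p : ℝ × ℝ} (hp : p.2 ≤ 0) : kap S d p = 0 := by
  unfold kap
  rw [indicator_of_notMem (show p.2 ∉ Ioi (0 : ℝ) from not_lt.2 hp)]

theorem kap_of_mem (hd : 0 < d) {p : ℝ × ℝ} (h1 : d ^ 2 ≤ p.2) (h2 : p.2 < 4 * d ^ 2)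
    (h3 : (p.1, √p.2) ∈ S) : kap S d p = 1 / (2 * √p.2) := by
  have hp : 0 < p.2 := lt_of_lt_of_le (by positivity) h1
  rw [kap_pos hp, indicator_of_mem, Pi.one_apply, mul_one]
  refine ⟨h3, Real.le_sqrt_of_sq_le h1, ?_⟩
  change √p.2 < 2 * d
  rw [Real.sqrt_lt' (by positivity)]
  linarith

theorem kap_of_not (hd : 0 < d) {p : ℝ × ℝ}
    (h : ¬ (d ^ 2 ≤ p.2 ∧ p.2 < 4 * d ^ 2 ∧ (p.1, √p.2) ∈ S)) : kap S d p = 0 := by
  rcases le_or_gt p.2 0 with hp | hp
  · exact kap_nonpos hp
  · rw [kap_pos hp, indicator_of_notMem, mul_zero]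
    rintro ⟨h1, h2, h3⟩
    change d ≤ √p.2 at h2
    change √p.2 < 2 * d at h3
    refine h ⟨(Real.le_sqrt' hd).1 h2, ?_, h1⟩
    rw [Real.sqrt_lt' (by positivity)] at h3
    linarith

theorem kap_nonneg (p : ℝ × ℝ) : 0 ≤ kap S d p := by
  unfold kap
  refine indicator_nonneg (fun τ _ => mul_nonneg (by positivity) ?_) _
  exact indicator_nonneg (fun _ _ => by simp) _

theorem kap_le (hd : 0 < d) (p : ℝ × ℝ) : kap S d p ≤ 1 / (2 * d) := by
  by_cases h : d ^ 2 ≤ p.2 ∧ p.2 < 4 * d ^ 2 ∧ (p.1, √p.2) ∈ S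
  · rw [kap_of_mem hd h.1 h.2.1 h.2.2]
    have : d ≤ √p.2 := Real.le_sqrt_of_sq_le h.1
    gcongr
  · rw [kap_of_not hd h]
    positivity

theorem measurable_kap (hS : MeasurableSet S) (d : ℝ) : Measurable (kap S d) := by
  have h1 : Measurable (fun p : ℝ × ℝ => 1 / (2 * √p.2) *
      (Sd S d).indicator (1 : ℝ × ℝ → ℝ) (p.1, √p.2)) := by
    have h2 : Measurable ((Sd S d).indicator (1 : ℝ × ℝ → ℝ)) :=
      measurable_one.indicator (measurableSet_Sd hS d)
    have h3 : Measurable (fun p : ℝ × ℝ => (p.1, √p.2)) := by fun_prop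
    exact (by fun_prop : Measurable (fun p : ℝ × ℝ => 1 / (2 * √p.2))).mul (h2.comp h3)
  have h4 : kap S d = {p : ℝ × ℝ | 0 < p.2}.indicator (fun p : ℝ × ℝ => 1 / (2 * √p.2) *
      (Sd S d).indicator (1 : ℝ × ℝ → ℝ) (p.1, √p.2)) := by
    funext p
    rcases le_or_gt p.2 0 with hp | hp
    · rw [kap_nonpos hp, indicator_of_notMem (show p ∉ {p : ℝ × ℝ | 0 < p.2} from not_lt.2 hp)]
    · rw [kap_pos hp]
      have hp' : p ∈ {p : ℝ × ℝ | 0 < p.2} := hp
      exact (indicator_of_mem hp' (fun p : ℝ × ℝ => 1 / (2 * √p.2) *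
        (Sd S d).indicator (1 : ℝ × ℝ → ℝ) (p.1, √p.2))).symm
  rw [h4]
  exact h1.indicator (measurableSet_lt measurable_const measurable_snd)

/-- The fibre of `S` over the first coordinate. -/
def fib (S : Set (ℝ × ℝ)) (w : ℝ) : Set ℝ := {y | (w, y) ∈ S}

/-- Mass of the density. -/
theorem lint_kap (w : ℝ) (hd : 0 < d) :
    ∫⁻ τ, ENNReal.ofReal (kap S d (w, τ)) = ∫⁻ y, (fib (Sd S d) w).indicator 1 y := by
  have h1 := lint_sqrt (fun y => (fib (Sd S d) w).indicator 1 y)
  have h2 : ∫⁻ τ, ENNReal.ofReal (kap S d (w, τ)) =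
      ∫⁻ τ in Ioi (0 : ℝ), ENNReal.ofReal (1 / (2 * √τ)) * (fib (Sd S d) w).indicator 1 (√τ) := by
    rw [← lintegral_indicator measurableSet_Ioi]
    refine lintegral_congr fun τ => ?_
    rcases le_or_gt τ 0 with hp | hp
    · rw [kap_nonpos (p := (w, τ)) hp, indicator_of_notMem (show τ ∉ Ioi (0 : ℝ) from not_lt.2 hp),
        ENNReal.ofReal_zero]
    · rw [kap_pos (p := (w, τ)) hp, indicator_of_mem (show τ ∈ Ioi (0 : ℝ) from hp),
        ENNReal.ofReal_mul (by positivity)]
      congr 1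
      by_cases h : (w, √τ) ∈ Sd S d
      · rw [indicator_of_mem h, indicator_of_mem (show √τ ∈ fib (Sd S d) w from h)]
        simp
      · rw [indicator_of_notMem h, indicator_of_notMem (show √τ ∉ fib (Sd S d) w from h)]
        simp
  rw [h2, h1, ← lintegral_indicator measurableSet_Ioi]
  refine lintegral_congr fun y => ?_
  rcases le_or_gt y 0 with hp | hp
  · rw [indicator_of_notMem (show y ∉ Ioi (0 : ℝ) from not_lt.2 hp), indicator_of_notMem]
    rintro ⟨_, h3, _⟩
    change d ≤ y at h3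
    linarith
  · rw [indicator_of_mem (show y ∈ Ioi (0 : ℝ) from hp)]

/-- Indicator (in `w`) that the fibre has positive length. -/
noncomputable def n0 (S : Set (ℝ × ℝ)) (w : ℝ) : ℝ≥0∞ := if volume (fib S w) = 0 then 0 else 1

theorem lint_kap_eq_zero (hd : 0 < d) {w : ℝ} (h0 : volume (fib S w) = 0) :
    ∫⁻ τ, ENNReal.ofReal (kap S d (w, τ)) = 0 := by
  rw [lint_kap w hd]
  have h1 : volume (fib (Sd S d) w) = 0 :=
    measure_mono_null (fun y hy => hy.1) h0
  refine le_antisymm ((lintegral_indicator_one_le _).trans h1.le) bot_le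

theorem lint_kap_le (hd : 0 < d) (w : ℝ) :
    ∫⁻ τ, ENNReal.ofReal (kap S d (w, τ)) ≤ ENNReal.ofReal d * n0 S w := by
  unfold n0
  split_ifs with h0
  · rw [lint_kap_eq_zero hd h0]
    exact bot_le
  · rw [lint_kap w hd, mul_one]
    refine (lintegral_indicator_one_le _).trans ?_
    refine (measure_mono (show fib (Sd S d) w ⊆ Ico d (2 * d) from fun y hy => hy.2)).trans ?_
    rw [Real.volume_Ico]
    apply le_of_eq
    congr 1
    ring

/-- The difference of the density. -/
theorem lint_dkap_le (hS : MeasurableSet S) (hd : 0 < d) {h : ℝ} (hh : 0 < h) {M : ℕ} (w : ℝ)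
    (hM : Few M (fib S w)) :
    ∫⁻ τ, ENNReal.ofReal |kap S d (w, τ) - kap S d (w, τ - h)| ≤
      ENNReal.ofReal ((M + 1) * h / d) * n0 S w := by
  unfold n0
  have hm : Measurable (fun τ => kap S d (w, τ)) :=
    (measurable_kap hS d).comp (measurable_const.prodMk measurable_id)
  split_ifs with h0
  · rw [mul_zero]
    have h1 := lint_kap_eq_zero hd h0
    calc ∫⁻ τ, ENNReal.ofReal |kap S d (w, τ) - kap S d (w, τ - h)|
        ≤ ∫⁻ τ, (ENNReal.ofReal (kap S d (w, τ)) + ENNReal.ofReal (kap S d (w, τ - h))) := by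
          refine lintegral_mono fun τ => ?_
          rw [← ENNReal.ofReal_add (kap_nonneg _) (kap_nonneg _)]
          apply ENNReal.ofReal_le_ofReal
          have h2 := kap_nonneg (S := S) (d := d) (w, τ)
          have h3 := kap_nonneg (S := S) (d := d) (w, τ - h)
          rw [abs_le]
          constructor <;> linarith
      _ = (∫⁻ τ, ENNReal.ofReal (kap S d (w, τ))) +
          ∫⁻ τ, ENNReal.ofReal (kap S d (w, τ - h)) :=
          lintegral_add_left hm.ennreal_ofReal _
      _ = 0 := by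
          rw [lintegral_sub_right_eq_self (fun τ => ENNReal.ofReal (kap S d (w, τ))) h, h1, add_zero]
      _ ≤ 0 := le_rfl
  · rw [mul_one]
    set J : Set ℝ := {τ | d ^ 2 ≤ τ ∧ τ < 4 * d ^ 2 ∧ √τ ∈ fib S w} with hJ
    have hJf : Few M J := by
      have h1 : Few M (Real.sqrt ⁻¹' fib S w) := hM.preimage (Or.inl Real.sqrt_monotone)
      have h2 := h1.inter_ordConnected (ordConnected_Ico (a := d ^ 2) (b := 4 * d ^ 2))
      have h3 : J = Real.sqrt ⁻¹' fib S w ∩ Ico (d ^ 2) (4 * d ^ 2) := by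
        ext τ
        simp only [hJ, mem_inter_iff, mem_preimage, mem_Ico, mem_ofPred_eq]
        tauto
      rw [h3]
      exact h2
    have hvol := hJf.vol_shift hh.le
    have hJm : MeasurableSet J := by
      have h1 : MeasurableSet (fib S w) := measurable_prodMk_left hS
      have h2 : MeasurableSet (Real.sqrt ⁻¹' fib S w) := Real.continuous_sqrt.measurable h1
      have h3 : J = Real.sqrt ⁻¹' fib S w ∩ Ico (d ^ 2) (4 * d ^ 2) := by
        ext τ
        simp only [hJ, mem_inter_iff, mem_preimage, mem_Ico, mem_ofPred_eq]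
        tauto
      rw [h3]
      exact h2.inter measurableSet_Ico
    set D : Set ℝ := {τ | ¬ (τ ∈ J ↔ τ - h ∈ J)} with hD
    have hDm : MeasurableSet D := by
      have h1 : MeasurableSet {τ : ℝ | τ - h ∈ J} := (measurable_sub_const h) hJm
      have h2 : D = (J \ {τ : ℝ | τ - h ∈ J}) ∪ ({τ : ℝ | τ - h ∈ J} \ J) := by
        ext τ
        simp only [hD, mem_ofPred_eq, mem_union, Set.mem_sdiff]
        tauto
      rw [h2]
      exact (hJm.diff h1).union (h1.diff hJm)
    have hpt : ∀ τ, ENNReal.ofReal |kap S d (w, τ) - kap S d (w, τ - h)| ≤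
        D.indicator (fun _ => ENNReal.ofReal (1 / (2 * d))) τ +
        (Icc (d ^ 2) (4 * d ^ 2)).indicator (fun _ => ENNReal.ofReal (h / (4 * d ^ 3))) τ := by
      intro τ
      by_cases hτ : τ ∈ D
      · rw [indicator_of_mem hτ]
        refine le_trans (ENNReal.ofReal_le_ofReal ?_) le_self_add
        have h2 := kap_nonneg (S := S) (d := d) (w, τ)
        have h3 := kap_nonneg (S := S) (d := d) (w, τ - h)
        have h4 := kap_le (S := S) hd (w, τ)
        have h5 := kap_le (S := S) hd (w, τ - h)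
        rw [abs_le]
        constructor <;> linarith
      · rw [indicator_of_notMem hτ, zero_add]
        have hiff : τ ∈ J ↔ τ - h ∈ J := not_not.1 hτ
        by_cases hτJ : τ ∈ J
        · have hτJ' := hiff.1 hτJ
          rw [indicator_of_mem (show τ ∈ Icc (d ^ 2) (4 * d ^ 2) from ⟨hτJ.1, hτJ.2.1.le⟩)]
          apply ENNReal.ofReal_le_ofReal
          rw [kap_of_mem hd hτJ.1 hτJ.2.1 hτJ.2.2, kap_of_mem hd hτJ'.1 hτJ'.2.1 hτJ'.2.2]
          dsimp only
          have ha : d ^ 2 ≤ τ - h := hτJ'.1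
          set a := √(τ - h) with haa
          set b := √τ with hbb
          have hda : d ≤ a := Real.le_sqrt_of_sq_le ha
          have hab : a ≤ b := Real.sqrt_le_sqrt (by linarith)
          have ha2 : a ^ 2 = τ - h := Real.sq_sqrt (by nlinarith [sq_nonneg d])
          have hb2 : b ^ 2 = τ := Real.sq_sqrt (by nlinarith [sq_nonneg d])
          have ha0 : 0 < a := lt_of_lt_of_le hd hda
          have hb0 : 0 < b := lt_of_lt_of_le ha0 hab
          have hh2 : h = (b - a) * (b + a) := by nlinarith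
          rw [abs_sub_comm, abs_of_nonneg (by
            rw [sub_nonneg]
            gcongr)]
          have e1 : 1 / (2 * a) - 1 / (2 * b) = (b - a) / (2 * a * b) := by
            field_simp
          rw [e1, hh2, div_le_div_iff₀ (by positivity) (by positivity)]
          have hba : 0 ≤ b - a := by linarith
          have h6 : 4 * d ^ 3 ≤ (b + a) * (2 * a * b) := by
            have h7 : d ^ 2 ≤ a * b := by nlinarith
            have h8 : 2 * d ≤ b + a := by linarith
            calc 4 * d ^ 3 = (2 * d) * (2 * d ^ 2) := by ring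
              _ ≤ (b + a) * (2 * (a * b)) := by gcongr
              _ = _ := by ring
          calc (b - a) * (4 * d ^ 3) ≤ (b - a) * ((b + a) * (2 * a * b)) := by gcongr
            _ = _ := by ring
        · have hτJ' : τ - h ∉ J := fun hc => hτJ (hiff.2 hc)
          rw [kap_of_not (S := S) (p := (w, τ)) hd hτJ,
            kap_of_not (S := S) (p := (w, τ - h)) hd hτJ', sub_zero, abs_zero, ENNReal.ofReal_zero]
          exact bot_le
    calc ∫⁻ τ, ENNReal.ofReal |kap S d (w, τ) - kap S d (w, τ - h)|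
        ≤ ∫⁻ τ, (D.indicator (fun _ => ENNReal.ofReal (1 / (2 * d))) τ +
          (Icc (d ^ 2) (4 * d ^ 2)).indicator (fun _ => ENNReal.ofReal (h / (4 * d ^ 3))) τ) :=
          lintegral_mono hpt
      _ = ENNReal.ofReal (1 / (2 * d)) * volume D +
          ENNReal.ofReal (h / (4 * d ^ 3)) * volume (Icc (d ^ 2) (4 * d ^ 2)) := by
          rw [lintegral_add_left (measurable_const.indicator hDm),
            lintegral_indicator_const hDm, lintegral_indicator_const measurableSet_Icc]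
      _ ≤ ENNReal.ofReal (1 / (2 * d)) * ENNReal.ofReal (2 * M * h) +
          ENNReal.ofReal (h / (4 * d ^ 3)) * ENNReal.ofReal (3 * d ^ 2) := by
          gcongr
          rw [Real.volume_Icc]
          apply ENNReal.ofReal_le_ofReal
          linarith
      _ = ENNReal.ofReal (1 / (2 * d) * (2 * M * h) + h / (4 * d ^ 3) * (3 * d ^ 2)) := by
          rw [← ENNReal.ofReal_mul (by positivity), ← ENNReal.ofReal_mul (by positivity),
            ← ENNReal.ofReal_add (by positivity) (by positivity)]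
      _ ≤ ENNReal.ofReal ((M + 1) * h / d) := by
          apply ENNReal.ofReal_le_ofReal
          have e1 : 1 / (2 * d) * (2 * M * h) + h / (4 * d ^ 3) * (3 * d ^ 2) =
              (M + 3 / 4) * h / d := by
            field_simp
            try ring
          rw [e1]
          gcongr
          norm_num

end Pool.Agent.H27.Fib
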