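import Mathlib
import Pool.Agent.H27.Fib.Piece

/-!
# The time integral of a dyadic piece
-/

namespace Pool.Agent.H27.Fib

open MeasureTheory Set Filter
open scoped ENNReal NNReal
open Pool.Agent.Restr (u norm_u enorm_u u_add measurable_u plancherel1)

variable {S : Set (ℝ × ℝ)} {d : ℝ}

/-- The box containing all sets. -/
def Bx : Set (ℝ × ℝ) := Icc (-1 : ℝ) 1 ×ˢ Icc (-1 : ℝ) 1

theorem measurableSet_Bx : MeasurableSet Bx := measurableSet_Icc.prod measurableSet_Icc

theorem vol_Bx_ne : volume Bx ≠ ⊤ := by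
  unfold Bx
  rw [Measure.volume_eq_prod, Measure.prod_prod, Real.volume_Icc]
  exact ENNReal.mul_ne_top ENNReal.ofReal_ne_top ENNReal.ofReal_ne_top

theorem integrable_kap (hS : MeasurableSet S) (hSb : S ⊆ Bx) (hd : 0 < d) :
    Integrable (kap S d) := by
  set K : Set (ℝ × ℝ) := Icc (-1 : ℝ) 1 ×ˢ Icc (d ^ 2) (4 * d ^ 2) with hK
  have hI : IntegrableOn (kap S d) K := by
    refine Measure.integrableOn_of_bounded (M := 1 / (2 * d)) ?_
      (measurable_kap hS d).aestronglyMeasurable (Eventually.of_forall fun x => ?_)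
    · rw [hK, Measure.volume_eq_prod, Measure.prod_prod, Real.volume_Icc, Real.volume_Icc]
      exact ENNReal.mul_ne_top ENNReal.ofReal_ne_top ENNReal.ofReal_ne_top
    · rw [Real.norm_of_nonneg (kap_nonneg _)]
      exact kap_le hd x
  refine (integrableOn_iff_integrable_of_support_subset fun x hx => ?_).1 hI
  by_contra hn
  refine hx (kap_of_not hd ?_)
  rintro ⟨h1, h2, h3⟩
  exact hn ⟨(hSb h3).1, h1, h2.le⟩

theorem int_piece (hS : MeasurableSet S) (hSb : S ⊆ Bx) (hd : 0 < d) (s : ℝ) :
    ∫ p in Sd S d, u (s * (p.1 ^ 2 + p.2 ^ 2)) =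
      ∫ p : ℝ × ℝ, u (s * (p.1 ^ 2 + p.2)) * ((kap S d p : ℝ) : ℂ) := by
  have hSd := measurableSet_Sd hS d
  have hfin : volume (Sd S d) ≠ ⊤ :=
    ne_top_of_le_ne_top vol_Bx_ne (measure_mono fun p hp => hSb hp.1)
  have hI1 : Integrable ((Sd S d).indicator fun p : ℝ × ℝ => u (s * (p.1 ^ 2 + p.2 ^ 2))) := by
    rw [integrable_indicator_iff hSd]
    refine Measure.integrableOn_of_bounded (M := 1) hfin
      (measurable_u.comp (by fun_prop)).aestronglyMeasurable
      (Eventually.of_forall fun x => (norm_u _).le)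
  have hI2 : Integrable (fun p : ℝ × ℝ => u (s * (p.1 ^ 2 + p.2)) * ((kap S d p : ℝ) : ℂ)) :=
    (integrable_kap hS hSb hd).ofReal.bdd_mul (c := 1)
      (measurable_u.comp (by fun_prop)).aestronglyMeasurable
      (Eventually.of_forall fun x => (norm_u _).le)
  rw [← integral_indicator hSd, Measure.volume_eq_prod, integral_prod _ (by
    rwa [← Measure.volume_eq_prod]), integral_prod _ (by rwa [← Measure.volume_eq_prod])]
  refine integral_congr_ae (Eventually.of_forall fun w => ?_)
  dsimp only
  set g : ℝ → ℂ := fun y => (fib (Sd S d) w).indicator (fun y => u (s * (w ^ 2 + y ^ 2))) y with hg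
  have e1 : ∫ y, (Sd S d).indicator (fun p : ℝ × ℝ => u (s * (p.1 ^ 2 + p.2 ^ 2))) (w, y) =
      ∫ y in Ioi (0 : ℝ), g y := by
    rw [← integral_indicator measurableSet_Ioi]
    refine integral_congr_ae (Eventually.of_forall fun y => ?_)
    dsimp only
    by_cases h : (w, y) ∈ Sd S d
    · have hy : y ∈ Ioi (0 : ℝ) := lt_of_lt_of_le hd h.2.1
      rw [indicator_of_mem h, indicator_of_mem hy, hg]
      dsimp only
      rw [indicator_of_mem (show y ∈ fib (Sd S d) w from h)]
    · have h0 : g y = 0 := by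
        rw [hg]
        dsimp only
        rw [indicator_of_notMem (show y ∉ fib (Sd S d) w from h)]
      rw [indicator_of_notMem h]
      by_cases hy : y ∈ Ioi (0 : ℝ)
      · rw [indicator_of_mem hy, h0]
      · rw [indicator_of_notMem hy]
  rw [e1, ← int_sqrt g, ← integral_indicator measurableSet_Ioi]
  refine integral_congr_ae (Eventually.of_forall fun τ => ?_)
  dsimp only
  rcases le_or_gt τ 0 with hp | hp
  · rw [kap_nonpos (p := (w, τ)) hp, indicator_of_notMem (show τ ∉ Ioi (0 : ℝ) from not_lt.2 hp)]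
    simp
  · rw [kap_pos (p := (w, τ)) hp, indicator_of_mem (show τ ∈ Ioi (0 : ℝ) from hp)]
    dsimp only
    by_cases h : (w, √τ) ∈ Sd S d
    · rw [hg]
      dsimp only
      rw [indicator_of_mem h, indicator_of_mem (show √τ ∈ fib (Sd S d) w from h),
        Real.sq_sqrt hp.le, Pi.one_apply, mul_one, mul_comm]
    · rw [hg]
      dsimp only
      rw [indicator_of_notMem h, indicator_of_notMem (show √τ ∉ fib (Sd S d) w from h)]
      simp

theorem normSq_one_sub_u {θ : ℝ} (h1 : 1 ≤ θ) (h2 : θ ≤ 2) : 8 / 9 ≤ ‖1 - u θ‖ ^ 2 := by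
  have e : ‖1 - u θ‖ ^ 2 = 2 - 2 * Real.cos θ := by
    rw [← Complex.normSq_eq_norm_sq, Complex.normSq_apply]
    unfold u
    rw [show -(Complex.I * (θ : ℂ)) = ((-θ : ℝ) : ℂ) * Complex.I by push_cast; ring]
    simp only [Complex.sub_re, Complex.sub_im, Complex.one_re, Complex.one_im,
      Complex.exp_ofReal_mul_I_re, Complex.exp_ofReal_mul_I_im, Real.cos_neg, Real.sin_neg]
    nlinarith [Real.sin_sq_add_cos_sq θ]
  rw [e]
  have h3 : Real.cos θ ≤ Real.cos 1 := by
    apply Real.cos_le_cos_of_nonneg_of_le_pi (by norm_num) _ h1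
    linarith [Real.pi_gt_three]
  have h4 := Real.cos_one_le
  linarith

/-- The time integral of a dyadic piece. -/
theorem piece_bound (hS : MeasurableSet S) (hSb : S ⊆ Bx) {M : ℕ}
    (hM : ∀ w, Few M (fib S w)) (hd : 0 < d) {T : ℝ} (hT : 0 < T) :
    ∫⁻ s in Ico (2 * T) (4 * T), ‖∫ p in Sd S d, u (s * (p.1 ^ 2 + p.2 ^ 2))‖ₑ ^ 2 ≤
      ENNReal.ofReal (2 * Real.pi) * (ENNReal.ofReal ((M + 1) / (2 * T * d ^ 2)) *
        ∫⁻ w, cw (4 * d ^ 2) w * n0 S w) := by
  set h : ℝ := 1 / (2 * T) with hh
  have hh0 : 0 < h := by positivity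
  have hkm := measurable_kap hS d
  have hki := integrable_kap hS hSb hd
  have hshift : MeasurePreserving (fun p : ℝ × ℝ => (p.1, p.2 - h)) volume volume := by
    have h1 := (MeasurePreserving.id (volume : Measure ℝ)).prod
      (measurePreserving_sub_right (volume : Measure ℝ) h)
    exact h1
  -- final rewriting of the bound
  have hfin : ∀ c : ℝ, 0 ≤ c → c ≤ (M + 1) / (2 * T * d ^ 2) →
      ENNReal.ofReal (2 * Real.pi) * ∫⁻ w, cw (4 * d ^ 2) w *
        (ENNReal.ofReal c * n0 S w) ≤
      ENNReal.ofReal (2 * Real.pi) * (ENNReal.ofReal ((M + 1) / (2 * T * d ^ 2)) *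
        ∫⁻ w, cw (4 * d ^ 2) w * n0 S w) := by
    intro c hc0 hc
    gcongr
    rw [← lintegral_const_mul' _ _ ENNReal.ofReal_ne_top]
    refine lintegral_mono fun w => ?_
    calc cw (4 * d ^ 2) w * (ENNReal.ofReal c * n0 S w)
        = ENNReal.ofReal c * (cw (4 * d ^ 2) w * n0 S w) := by ring
      _ ≤ _ := by gcongr
  rcases le_or_gt h (d ^ 2) with hcase | hcase
  · -- differences
    set κ : ℝ × ℝ → ℂ := fun p => ((kap S d p - kap S d (p.1, p.2 - h) : ℝ) : ℂ) with hκ
    have hκm : Measurable κ := by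
      have h1 : Measurable fun p : ℝ × ℝ => kap S d p - kap S d (p.1, p.2 - h) :=
        hkm.sub (hkm.comp (by fun_prop))
      exact Complex.measurable_ofReal.comp h1
    have hκi : Integrable κ := by
      have h1 : Integrable fun p : ℝ × ℝ => kap S d p - kap S d (p.1, p.2 - h) :=
        hki.sub (hshift.integrable_comp_of_integrable hki)
      exact h1.ofReal
    have hA := lemA (κ := κ) hκm hκi (B := ENNReal.ofReal (1 / (2 * d)))
      (V := ENNReal.ofReal ((M + 1) * h / d)) (τ0 := d ^ 2) (L := 4 * d ^ 2) (by positivity)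
      (fun w τ hn => by
        have h1 : kap S d (w, τ) = 0 := by
          refine kap_of_not hd ?_
          rintro ⟨h1, h2, _⟩
          exact hn ⟨h1, by simp only at h2; nlinarith [sq_nonneg d]⟩
        have h2 : kap S d (w, τ - h) = 0 := by
          refine kap_of_not hd ?_
          rintro ⟨h1, h2, _⟩
          simp only at h1 h2
          exact hn ⟨by linarith, by linarith⟩
        simp only [hκ, h1, h2]
        simp)
      (fun p => by
        have h1 := kap_nonneg (S := S) (d := d) p
        have h2 := kap_nonneg (S := S) (d := d) (p.1, p.2 - h)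
        have h3 := kap_le (S := S) hd p
        have h4 := kap_le (S := S) hd (p.1, p.2 - h)
        rw [← ofReal_norm]
        apply ENNReal.ofReal_le_ofReal
        simp only [hκ]
        rw [Complex.norm_real, Real.norm_eq_abs, abs_le]
        constructor <;> linarith)
      (n := n0 S) (fun w => by
        refine le_trans (le_of_eq ?_) (lint_dkap_le hS hd hh0 w (hM w))
        refine lintegral_congr fun τ => ?_
        rw [← ofReal_norm]
        simp only [hκ]
        rw [Complex.norm_real, Real.norm_eq_abs])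
    have hprod : ∀ s : ℝ, ∫ p : ℝ × ℝ, u (s * (p.1 ^ 2 + p.2)) * κ p =
        (1 - u (s * h)) * ∫ p in Sd S d, u (s * (p.1 ^ 2 + p.2 ^ 2)) := by
      intro s
      rw [int_piece hS hSb hd s]
      have hi1 : Integrable (fun p : ℝ × ℝ => u (s * (p.1 ^ 2 + p.2)) * ((kap S d p : ℝ) : ℂ)) :=
        hki.ofReal.bdd_mul (c := 1)
          (measurable_u.comp (by fun_prop)).aestronglyMeasurable
          (Eventually.of_forall fun x => (norm_u _).le)
      have hi2 : Integrable (fun p : ℝ × ℝ => u (s * (p.1 ^ 2 + p.2)) *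
          ((kap S d (p.1, p.2 - h) : ℝ) : ℂ)) :=
        (hshift.integrable_comp_of_integrable hki).ofReal.bdd_mul (c := 1)
          (measurable_u.comp (by fun_prop)).aestronglyMeasurable
          (Eventually.of_forall fun x => (norm_u _).le)
      have e1 : ∫ p : ℝ × ℝ, u (s * (p.1 ^ 2 + p.2)) * ((kap S d (p.1, p.2 - h) : ℝ) : ℂ) =
          u (s * h) * ∫ p : ℝ × ℝ, u (s * (p.1 ^ 2 + p.2)) * ((kap S d p : ℝ) : ℂ) := by
        rw [← integral_const_mul]
        have hg : AEStronglyMeasurable (fun p : ℝ × ℝ =>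
            u (s * h) * (u (s * (p.1 ^ 2 + p.2)) * ((kap S d p : ℝ) : ℂ)))
            (Measure.map (fun p : ℝ × ℝ => (p.1, p.2 - h)) volume) :=
          (((measurable_u.comp (by fun_prop)).mul
            (Complex.measurable_ofReal.comp hkm)).const_mul _).aestronglyMeasurable
        conv_rhs => rw [← hshift.map_eq]
        rw [integral_map (by fun_prop) hg]
        refine integral_congr_ae (Eventually.of_forall fun p => ?_)
        dsimp only
        rw [← mul_assoc, ← u_add]
        congr 2
        ring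
      calc ∫ p : ℝ × ℝ, u (s * (p.1 ^ 2 + p.2)) * κ p
          = ∫ p : ℝ × ℝ, (u (s * (p.1 ^ 2 + p.2)) * ((kap S d p : ℝ) : ℂ) -
            u (s * (p.1 ^ 2 + p.2)) * ((kap S d (p.1, p.2 - h) : ℝ) : ℂ)) := by
            refine integral_congr_ae (Eventually.of_forall fun p => ?_)
            simp only [hκ]
            push_cast
            ring
        _ = _ := by
            rw [integral_sub hi1 hi2, e1]
            ring
    calc ∫⁻ s in Ico (2 * T) (4 * T), ‖∫ p in Sd S d, u (s * (p.1 ^ 2 + p.2 ^ 2))‖ₑ ^ 2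
        ≤ ∫⁻ s in Ico (2 * T) (4 * T), ENNReal.ofReal (9 / 8) *
          ‖∫ p : ℝ × ℝ, u (s * (p.1 ^ 2 + p.2)) * κ p‖ₑ ^ 2 := by
          refine setLIntegral_mono' measurableSet_Ico fun s hs => ?_
          rw [hprod, enorm_mul, mul_pow, ← mul_assoc]
          have h1 : 1 ≤ s * h := by
            rw [hh, mul_one_div, le_div_iff₀ (by positivity)]
            linarith [hs.1]
          have h2 : s * h ≤ 2 := by
            rw [hh, mul_one_div, div_le_iff₀ (by positivity)]
            linarith [hs.2]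
          have h3 := normSq_one_sub_u h1 h2
          have h4 : (1 : ℝ≥0∞) ≤ ENNReal.ofReal (9 / 8) * ‖1 - u (s * h)‖ₑ ^ 2 := by
            rw [← ofReal_norm, ← ENNReal.ofReal_pow (norm_nonneg _),
              ← ENNReal.ofReal_mul (by norm_num), ← ENNReal.ofReal_one]
            apply ENNReal.ofReal_le_ofReal
            linarith
          calc _ = 1 * ‖∫ p in Sd S d, u (s * (p.1 ^ 2 + p.2 ^ 2))‖ₑ ^ 2 := (one_mul _).symm
            _ ≤ _ := by gcongr
      _ = ENNReal.ofReal (9 / 8) * ∫⁻ s in Ico (2 * T) (4 * T),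
          ‖∫ p : ℝ × ℝ, u (s * (p.1 ^ 2 + p.2)) * κ p‖ₑ ^ 2 :=
          lintegral_const_mul' _ _ ENNReal.ofReal_ne_top
      _ ≤ ENNReal.ofReal (9 / 8) * (ENNReal.ofReal (2 * Real.pi) * ∫⁻ w, cw (4 * d ^ 2) w *
          (ENNReal.ofReal (1 / (2 * d)) * (ENNReal.ofReal ((M + 1) * h / d) * n0 S w))) := by
          gcongr
          exact (setLIntegral_le_lintegral _ _).trans hA
      _ = ENNReal.ofReal (2 * Real.pi) * ∫⁻ w, cw (4 * d ^ 2) w *
          (ENNReal.ofReal (9 / 8 * (1 / (2 * d) * ((M + 1) * h / d))) * n0 S w) := by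
          rw [← mul_assoc, mul_comm (ENNReal.ofReal (9 / 8)), mul_assoc,
            ← lintegral_const_mul' _ _ ENNReal.ofReal_ne_top]
          congr 1
          refine lintegral_congr fun w => ?_
          rw [ENNReal.ofReal_mul (by norm_num), ENNReal.ofReal_mul (by positivity)]
          ring
      _ ≤ _ := by
          refine hfin _ (by positivity) ?_
          have e2 : 9 / 8 * (1 / (2 * d) * ((M + 1) * h / d)) =
              9 / 16 * ((M + 1) / (2 * T * d ^ 2)) := by
            rw [hh]
            field_simp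
            ring
          rw [e2]
          have h5 : 0 ≤ ((M : ℝ) + 1) / (2 * T * d ^ 2) := by positivity
          linarith
  · set κ : ℝ × ℝ → ℂ := fun p => ((kap S d p : ℝ) : ℂ) with hκ
    have hκm : Measurable κ := Complex.measurable_ofReal.comp hkm
    have hκi : Integrable κ := hki.ofReal
    have hA := lemA (κ := κ) hκm hκi (B := ENNReal.ofReal (1 / (2 * d)))
      (V := ENNReal.ofReal d) (τ0 := d ^ 2) (L := 4 * d ^ 2) (by positivity)
      (fun w τ hn => by
        have h1 : kap S d (w, τ) = 0 := by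
          refine kap_of_not hd ?_
          rintro ⟨h1, h2, _⟩
          exact hn ⟨h1, by simp only at h2; nlinarith [sq_nonneg d]⟩
        simp only [hκ, h1]
        simp)
      (fun p => by
        have h1 := kap_nonneg (S := S) (d := d) p
        rw [← ofReal_norm]
        apply ENNReal.ofReal_le_ofReal
        simp only [hκ]
        rw [Complex.norm_real, Real.norm_of_nonneg h1]
        exact kap_le (S := S) hd p)
      (n := n0 S) (fun w => by
        refine le_trans (le_of_eq ?_) (lint_kap_le hd w)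
        refine lintegral_congr fun τ => ?_
        rw [← ofReal_norm]
        simp only [hκ]
        rw [Complex.norm_real, Real.norm_of_nonneg (kap_nonneg _)])
    calc ∫⁻ s in Ico (2 * T) (4 * T), ‖∫ p in Sd S d, u (s * (p.1 ^ 2 + p.2 ^ 2))‖ₑ ^ 2
        ≤ ∫⁻ s, ‖∫ p in Sd S d, u (s * (p.1 ^ 2 + p.2 ^ 2))‖ₑ ^ 2 := setLIntegral_le_lintegral _ _
      _ = ∫⁻ s, ‖∫ p : ℝ × ℝ, u (s * (p.1 ^ 2 + p.2)) * κ p‖ₑ ^ 2 := by
          refine lintegral_congr fun s => ?_
          rw [int_piece hS hSb hd s]
      _ ≤ _ := hA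
      _ = ENNReal.ofReal (2 * Real.pi) * ∫⁻ w, cw (4 * d ^ 2) w *
          (ENNReal.ofReal (1 / (2 * d) * d) * n0 S w) := by
          congr 1
          refine lintegral_congr fun w => ?_
          rw [ENNReal.ofReal_mul (by positivity)]
          ring
      _ ≤ _ := by
          refine hfin _ (by positivity) ?_
          have e2 : 1 / (2 * d) * d = 1 / 2 := by
            field_simp
          rw [e2]
          have h5 : 1 ≤ ((M : ℝ) + 1) / (2 * T * d ^ 2) := by
            rw [le_div_iff₀ (by positivity)]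
            have h6 : 2 * T * d ^ 2 ≤ 1 := by
              rw [hh, lt_div_iff₀ (by positivity)] at hcase
              linarith
            have h7 : (0 : ℝ) ≤ M := Nat.cast_nonneg M
            linarith
          linarith

end Pool.Agent.H27.Fib
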