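import Mathlib
import Pool.Agent.H27.Fib.PieceBound

/-!
# The time integral over a dyadic block, for a fixed centre
-/

namespace Pool.Agent.H27.Fib

open MeasureTheory Set Filter
open scoped ENNReal NNReal
open Pool.Agent.Restr (u norm_u enorm_u u_add measurable_u plancherel1)

variable {S : Set (ℝ × ℝ)} {d : ℝ}

/-- The reflection of `S` in the second coordinate. -/
def Rf (S : Set (ℝ × ℝ)) : Set (ℝ × ℝ) := {p | (p.1, -p.2) ∈ S}

theorem measurableSet_Rf (hS : MeasurableSet S) : MeasurableSet (Rf S) :=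
  (by fun_prop : Measurable fun p : ℝ × ℝ => (p.1, -p.2)) hS

theorem Rf_sub (h : S ⊆ Bx) : Rf S ⊆ Bx := by
  intro p hp
  have h1 := h hp
  refine ⟨h1.1, ?_, ?_⟩
  · have := h1.2.2
    simp only at this
    linarith
  · have := h1.2.1
    simp only at this
    linarith

theorem fib_Rf (w : ℝ) : fib (Rf S) w = (fun y => -y) ⁻¹' fib S w := rfl

theorem few_Rf {M : ℕ} (hM : ∀ w, Few M (fib S w)) (w : ℝ) : Few M (fib (Rf S) w) := by
  rw [fib_Rf]
  exact (hM w).preimage (Or.inr fun x y h => neg_le_neg h)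

theorem n0_Rf (w : ℝ) : n0 (Rf S) w = n0 S w := by
  unfold n0
  rw [fib_Rf]
  have : volume ((fun y : ℝ => -y) ⁻¹' fib S w) = volume (fib S w) :=
    (Measure.measurePreserving_neg (volume : Measure ℝ)).measure_preimage_equiv
      (f := MeasurableEquiv.neg ℝ) (fib S w)
  rw [this]

theorem int_Rf (hS : MeasurableSet S) (d s : ℝ) :
    ∫ p in Sd (Rf S) d, u (s * (p.1 ^ 2 + p.2 ^ 2)) =
      ∫ p in {p : ℝ × ℝ | p ∈ S ∧ -(2 * d) < p.2 ∧ p.2 ≤ -d}, u (s * (p.1 ^ 2 + p.2 ^ 2)) := by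
  have hneg : MeasurePreserving (fun p : ℝ × ℝ => (p.1, -p.2)) volume volume := by
    have h1 := (MeasurePreserving.id (volume : Measure ℝ)).prod
      (Measure.measurePreserving_neg (volume : Measure ℝ))
    exact h1
  have hm : MeasurableSet {p : ℝ × ℝ | p ∈ S ∧ -(2 * d) < p.2 ∧ p.2 ≤ -d} :=
    hS.inter ((measurableSet_lt measurable_const measurable_snd).inter
      (measurableSet_le measurable_snd measurable_const))
  rw [← integral_indicator (measurableSet_Sd (measurableSet_Rf hS) d), ← integral_indicator hm]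
  have hg : AEStronglyMeasurable ({p : ℝ × ℝ | p ∈ S ∧ -(2 * d) < p.2 ∧ p.2 ≤ -d}.indicator
      fun p : ℝ × ℝ => u (s * (p.1 ^ 2 + p.2 ^ 2)))
      (Measure.map (fun p : ℝ × ℝ => (p.1, -p.2)) volume) :=
    ((measurable_u.comp (by fun_prop)).indicator hm).aestronglyMeasurable
  conv_rhs => rw [← hneg.map_eq]
  rw [integral_map (by fun_prop) hg]
  refine integral_congr_ae (Eventually.of_forall fun p => ?_)
  dsimp only
  by_cases hp : p ∈ Sd (Rf S) d
  · have hp' : (p.1, -p.2) ∈ {p : ℝ × ℝ | p ∈ S ∧ -(2 * d) < p.2 ∧ p.2 ≤ -d} :=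
      ⟨hp.1, by have := hp.2.2; simp only; linarith, by have := hp.2.1; simp only; linarith⟩
    rw [indicator_of_mem hp, indicator_of_mem hp']
    simp
  · have hp' : (p.1, -p.2) ∉ {p : ℝ × ℝ | p ∈ S ∧ -(2 * d) < p.2 ∧ p.2 ≤ -d} := by
      rintro ⟨h1, h2, h3⟩
      simp only at h2 h3
      exact hp ⟨h1, by linarith, by linarith⟩
    rw [indicator_of_notMem hp, indicator_of_notMem hp']

/-- The part of `S` with small second coordinate. -/
def Sin (S : Set (ℝ × ℝ)) (r : ℝ) : Set (ℝ × ℝ) := {p | p ∈ S ∧ |p.2| < r}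

theorem measurableSet_Sin (hS : MeasurableSet S) (r : ℝ) : MeasurableSet (Sin S r) :=
  hS.inter (measurableSet_lt (measurable_snd.norm) measurable_const)

theorem intOn_u (hSb : S ⊆ Bx) (s : ℝ) :
    IntegrableOn (fun p : ℝ × ℝ => u (s * (p.1 ^ 2 + p.2 ^ 2))) S :=
  Measure.integrableOn_of_bounded (M := 1)
    (ne_top_of_le_ne_top vol_Bx_ne (measure_mono hSb))
    (measurable_u.comp (by fun_prop)).aestronglyMeasurable
    (Eventually.of_forall fun x => (norm_u _).le)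

/-- One step of the decomposition. -/
theorem step (hS : MeasurableSet S) (hSb : S ⊆ Bx) (hd : 0 < d) (s : ℝ) :
    ∫ p in Sin S (2 * d), u (s * (p.1 ^ 2 + p.2 ^ 2)) =
      (∫ p in Sin S d, u (s * (p.1 ^ 2 + p.2 ^ 2))) +
      ((∫ p in Sd S d, u (s * (p.1 ^ 2 + p.2 ^ 2))) +
        ∫ p in Sd (Rf S) d, u (s * (p.1 ^ 2 + p.2 ^ 2))) := by
  rw [int_Rf hS]
  set Sm : Set (ℝ × ℝ) := {p : ℝ × ℝ | p ∈ S ∧ -(2 * d) < p.2 ∧ p.2 ≤ -d} with hSm
  have hm : MeasurableSet Sm :=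
    hS.inter ((measurableSet_lt measurable_const measurable_snd).inter
      (measurableSet_le measurable_snd measurable_const))
  have hi := intOn_u hSb s
  have hi1 : IntegrableOn (fun p : ℝ × ℝ => u (s * (p.1 ^ 2 + p.2 ^ 2))) (Sin S d) :=
    hi.mono_set fun p hp => hp.1
  have hi2 : IntegrableOn (fun p : ℝ × ℝ => u (s * (p.1 ^ 2 + p.2 ^ 2))) (Sd S d) :=
    hi.mono_set fun p hp => hp.1
  have hi3 : IntegrableOn (fun p : ℝ × ℝ => u (s * (p.1 ^ 2 + p.2 ^ 2))) Sm :=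
    hi.mono_set fun p hp => hp.1
  have hd1 : Disjoint (Sd S d) Sm := by
    rw [Set.disjoint_left]
    rintro p ⟨_, h1, _⟩ ⟨_, _, h2⟩
    linarith
  have hd2 : Disjoint (Sin S d) (Sd S d ∪ Sm) := by
    rw [Set.disjoint_left]
    rintro p ⟨_, h0⟩ h
    rw [abs_lt] at h0
    rcases h with ⟨_, h1, _⟩ | ⟨_, _, h2⟩
    · linarith [h0.2]
    · linarith [h0.1]
  have hU : Sin S (2 * d) = Sin S d ∪ (Sd S d ∪ Sm) := by
    ext p
    simp only [Sin, Sd, hSm, mem_union, mem_ofPred_eq, abs_lt]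
    constructor
    · rintro ⟨h1, h2, h3⟩
      rcases lt_or_ge p.2 d with h4 | h4
      · rcases lt_or_ge (-d) p.2 with h5 | h5
        · exact Or.inl ⟨h1, h5, h4⟩
        · exact Or.inr (Or.inr ⟨h1, h2, h5⟩)
      · exact Or.inr (Or.inl ⟨h1, h4, h3⟩)
    · rintro (⟨h1, h2, h3⟩ | ⟨h1, h2, h3⟩ | ⟨h1, h2, h3⟩)
      · exact ⟨h1, by linarith, by linarith⟩
      · exact ⟨h1, by linarith, by linarith⟩
      · exact ⟨h1, by linarith, by linarith⟩
  rw [hU, setIntegral_union hd2 ((measurableSet_Sd hS d).union hm) hi1 (hi2.union hi3),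
    setIntegral_union hd1 hm hi2 hi3]

theorem decomp (hS : MeasurableSet S) (hSb : S ⊆ Bx) (s : ℝ) (k : ℕ) :
    ∫ p in Sin S 1, u (s * (p.1 ^ 2 + p.2 ^ 2)) =
      (∫ p in Sin S ((1 / 2) ^ k), u (s * (p.1 ^ 2 + p.2 ^ 2))) +
      ∑ j ∈ Finset.range k, ((∫ p in Sd S ((1 / 2) ^ (j + 1)), u (s * (p.1 ^ 2 + p.2 ^ 2))) +
        ∫ p in Sd (Rf S) ((1 / 2) ^ (j + 1)), u (s * (p.1 ^ 2 + p.2 ^ 2))) := by
  induction k with
  | zero => simp
  | succ k ih =>
    rw [Finset.sum_range_succ, ih]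
    have h := step hS hSb (d := (1 / 2) ^ (k + 1)) (by positivity) s
    rw [show (2 : ℝ) * (1 / 2) ^ (k + 1) = (1 / 2) ^ k by rw [pow_succ]; ring] at h
    rw [h]
    ring

/-- Elementary quadratic inequality. -/
theorem sq_decomp (a : ℂ) (k : ℕ) (b c : ℕ → ℂ) :
    ‖a + ∑ j ∈ Finset.range k, (b j + c j)‖ₑ ^ 2 ≤
      2 * ‖a‖ₑ ^ 2 + (4 * k : ℕ) * ∑ j ∈ Finset.range k, (‖b j‖ₑ ^ 2 + ‖c j‖ₑ ^ 2) := by
  have hreal : ‖a + ∑ j ∈ Finset.range k, (b j + c j)‖ ^ 2 ≤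
      2 * ‖a‖ ^ 2 + (4 * k : ℕ) * ∑ j ∈ Finset.range k, (‖b j‖ ^ 2 + ‖c j‖ ^ 2) := by
    have h1 : ‖∑ j ∈ Finset.range k, (b j + c j)‖ ^ 2 ≤
        k * ∑ j ∈ Finset.range k, ‖b j + c j‖ ^ 2 := by
      calc ‖∑ j ∈ Finset.range k, (b j + c j)‖ ^ 2
          ≤ (∑ j ∈ Finset.range k, ‖b j + c j‖) ^ 2 := by
            gcongr
            exact norm_sum_le _ _
        _ ≤ _ := by
            have := sq_sum_le_card_mul_sum_sq (s := Finset.range k) (f := fun j => ‖b j + c j‖)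
            rwa [Finset.card_range] at this
    have h2 : ∑ j ∈ Finset.range k, ‖b j + c j‖ ^ 2 ≤
        ∑ j ∈ Finset.range k, 2 * (‖b j‖ ^ 2 + ‖c j‖ ^ 2) := by
      refine Finset.sum_le_sum fun j _ => ?_
      have h3 := norm_add_le (b j) (c j)
      calc ‖b j + c j‖ ^ 2 ≤ (‖b j‖ + ‖c j‖) ^ 2 := by gcongr
        _ ≤ _ := by nlinarith [sq_nonneg (‖b j‖ - ‖c j‖)]
    rw [← Finset.mul_sum] at h2
    have h4 : ‖a + ∑ j ∈ Finset.range k, (b j + c j)‖ ^ 2 ≤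
        2 * ‖a‖ ^ 2 + 2 * ‖∑ j ∈ Finset.range k, (b j + c j)‖ ^ 2 := by
      have h3 := norm_add_le a (∑ j ∈ Finset.range k, (b j + c j))
      calc ‖a + ∑ j ∈ Finset.range k, (b j + c j)‖ ^ 2
          ≤ (‖a‖ + ‖∑ j ∈ Finset.range k, (b j + c j)‖) ^ 2 := by gcongr
        _ ≤ _ := by nlinarith [sq_nonneg (‖a‖ - ‖∑ j ∈ Finset.range k, (b j + c j)‖)]
    have hk : (0 : ℝ) ≤ k := Nat.cast_nonneg k
    push_cast
    nlinarith [mul_le_mul_of_nonneg_left h2 hk]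
  have hc := ENNReal.ofReal_le_ofReal hreal
  rw [ENNReal.ofReal_add (by positivity) (by positivity), ENNReal.ofReal_mul (by norm_num),
    ENNReal.ofReal_mul (by positivity), ENNReal.ofReal_sum_of_nonneg (fun i _ => by positivity),
    ENNReal.ofReal_pow (norm_nonneg _), ENNReal.ofReal_pow (norm_nonneg _), ofReal_norm,
    ofReal_norm, ENNReal.ofReal_natCast] at hc
  refine hc.trans (le_of_eq ?_)
  congr 2
  · norm_num
  · refine Finset.sum_congr rfl fun j _ => ?_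
    rw [ENNReal.ofReal_add (by positivity) (by positivity), ENNReal.ofReal_pow (norm_nonneg _),
      ENNReal.ofReal_pow (norm_nonneg _), ofReal_norm, ofReal_norm]

theorem measurable_n0 (hS : MeasurableSet S) : Measurable (n0 S) := by
  unfold n0
  have h1 : Measurable (fun w => volume (fib S w)) := measurable_measure_prodMk_left hS
  exact Measurable.ite (h1 (measurableSet_singleton 0)) measurable_const measurable_const

/-- The mass near the axis. -/
theorem vol_Sin_le (hS : MeasurableSet S) (r : ℝ) :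
    volume (Sin S r) ≤ ENNReal.ofReal (2 * r) * ∫⁻ w, n0 S w := by
  rw [Measure.volume_eq_prod, Measure.prod_apply (measurableSet_Sin hS r),
    ← lintegral_const_mul _ (measurable_n0 hS)]
  refine lintegral_mono fun w => ?_
  unfold n0
  split_ifs with h0
  · rw [mul_zero]
    exact (measure_mono_null (fun y hy => hy.1) h0).le
  · rw [mul_one]
    have h1 : Prod.mk w ⁻¹' Sin S r ⊆ Icc (-r) r := by
      intro y hy
      have h2 : |y| < r := hy.2
      rw [abs_lt] at h2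
      exact ⟨h2.1.le, h2.2.le⟩
    refine (measure_mono h1).trans ?_
    rw [Real.volume_Icc]
    apply le_of_eq
    congr 1
    ring

theorem lint_n0_le (hSb : S ⊆ Bx) : ∫⁻ w, n0 S w ≤ 2 := by
  calc ∫⁻ w, n0 S w ≤ ∫⁻ w, (Icc (-1 : ℝ) 1).indicator 1 w := by
        refine lintegral_mono fun w => ?_
        by_cases hw : w ∈ Icc (-1 : ℝ) 1
        · rw [indicator_of_mem hw]
          unfold n0
          split_ifs <;> simp
        · have h0 : fib S w = ∅ := by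
            ext y
            simp only [mem_empty_iff_false, iff_false]
            intro hy
            exact hw (hSb hy).1
          unfold n0
          rw [h0]
          simp
    _ ≤ volume (Icc (-1 : ℝ) 1) := lintegral_indicator_one_le _
    _ = 2 := by
        rw [Real.volume_Icc]
        norm_num

/-- The block estimate for a fixed centre. -/
theorem block_fixed (hS : MeasurableSet S) (hSb : S ⊆ Bx) (hS1 : ∀ p ∈ S, |p.2| < 1) {M : ℕ}
    (hM : ∀ w, Few M (fib S w)) (k : ℕ) :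
    ∫⁻ s in Ico (2 * (2 : ℝ) ^ k) (4 * (2 : ℝ) ^ k),
      ‖∫ p in S, u (s * (p.1 ^ 2 + p.2 ^ 2))‖ₑ ^ 2 ≤
      ENNReal.ofReal (32 * (1 / 2) ^ k) * (∫⁻ w, n0 S w) +
      ENNReal.ofReal (8 * Real.pi * k * (M + 1) * (1 / 2) ^ k) *
        ∑ j ∈ Finset.range k, ENNReal.ofReal (1 / ((1 / 2) ^ (j + 1)) ^ 2) *
          ∫⁻ w, cw (4 * ((1 / 2) ^ (j + 1)) ^ 2) w * n0 S w := by
  have hS' : S = Sin S 1 := by
    ext p
    exact ⟨fun h => ⟨h, hS1 p h⟩, fun h => h.1⟩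
  set I : Set ℝ := Ico (2 * (2 : ℝ) ^ k) (4 * (2 : ℝ) ^ k) with hI
  have hT : (0 : ℝ) < 2 ^ k := by positivity
  have hmeas : ∀ A : Set (ℝ × ℝ), Measurable fun s : ℝ =>
      ‖∫ p in A, u (s * (p.1 ^ 2 + p.2 ^ 2))‖ₑ ^ 2 := by
    intro A
    have h1 : StronglyMeasurable fun s : ℝ => ∫ p in A, u (s * (p.1 ^ 2 + p.2 ^ 2)) := by
      apply StronglyMeasurable.integral_prod_right
        (f := fun (s : ℝ) (p : ℝ × ℝ) => u (s * (p.1 ^ 2 + p.2 ^ 2)))
      exact (measurable_u.comp (by fun_prop)).stronglyMeasurable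
    exact h1.measurable.enorm.pow_const 2
  have hmid : ∀ s, ‖∫ p in Sin S ((1 / 2) ^ k), u (s * (p.1 ^ 2 + p.2 ^ 2))‖ₑ ^ 2 ≤
      ENNReal.ofReal (8 * ((1 / 2) ^ k) ^ 2) * ∫⁻ w, n0 S w := by
    intro s
    have h1 : ‖∫ p in Sin S ((1 / 2) ^ k), u (s * (p.1 ^ 2 + p.2 ^ 2))‖ₑ ≤
        volume (Sin S ((1 / 2) ^ k)) := by
      refine (enorm_integral_le_lintegral_enorm _).trans (le_of_eq ?_)
      simp only [enorm_u, lintegral_const, Measure.restrict_apply_univ, one_mul]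
    have h2 := vol_Sin_le hS ((1 / 2) ^ k)
    have h3 := lint_n0_le hSb
    calc ‖∫ p in Sin S ((1 / 2) ^ k), u (s * (p.1 ^ 2 + p.2 ^ 2))‖ₑ ^ 2
        ≤ (ENNReal.ofReal (2 * (1 / 2) ^ k) * ∫⁻ w, n0 S w) ^ 2 := by
          gcongr
          exact h1.trans h2
      _ = ENNReal.ofReal (2 * (1 / 2) ^ k) ^ 2 * ((∫⁻ w, n0 S w) * ∫⁻ w, n0 S w) := by ring
      _ ≤ ENNReal.ofReal (2 * (1 / 2) ^ k) ^ 2 * (2 * ∫⁻ w, n0 S w) := by gcongr
      _ = _ := by
          rw [← mul_assoc, ← ENNReal.ofReal_pow (by positivity)]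
          congr 1
          rw [show (2 : ℝ≥0∞) = ENNReal.ofReal 2 by norm_num, ← ENNReal.ofReal_mul (by positivity)]
          congr 1
          ring
  have hvolI : volume I = ENNReal.ofReal (2 * 2 ^ k) := by
    rw [hI, Real.volume_Ico]
    congr 1
    ring
  set P : ℕ → ℝ≥0∞ := fun j => ENNReal.ofReal (2 * Real.pi) *
    (ENNReal.ofReal ((M + 1) / (2 * 2 ^ k * ((1 / 2) ^ (j + 1)) ^ 2)) *
        ∫⁻ w, cw (4 * ((1 / 2) ^ (j + 1)) ^ 2) w * n0 S w) with hP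
  have hpos : ∀ j : ℕ, ∫⁻ s in I, ‖∫ p in Sd S ((1 / 2) ^ (j + 1)),
      u (s * (p.1 ^ 2 + p.2 ^ 2))‖ₑ ^ 2 ≤ P j := fun j =>
    piece_bound hS hSb hM (by positivity) hT
  have hneg : ∀ j : ℕ, ∫⁻ s in I, ‖∫ p in Sd (Rf S) ((1 / 2) ^ (j + 1)),
      u (s * (p.1 ^ 2 + p.2 ^ 2))‖ₑ ^ 2 ≤ P j := by
    intro j
    have h := piece_bound (measurableSet_Rf hS) (Rf_sub hSb) (few_Rf hM)
      (d := (1 / 2) ^ (j + 1)) (by positivity) hT
    simp only [n0_Rf] at h
    exact h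
  calc ∫⁻ s in I, ‖∫ p in S, u (s * (p.1 ^ 2 + p.2 ^ 2))‖ₑ ^ 2
      ≤ ∫⁻ s in I, (2 * ‖∫ p in Sin S ((1 / 2) ^ k), u (s * (p.1 ^ 2 + p.2 ^ 2))‖ₑ ^ 2 +
        (4 * k : ℕ) * ∑ j ∈ Finset.range k,
          (‖∫ p in Sd S ((1 / 2) ^ (j + 1)), u (s * (p.1 ^ 2 + p.2 ^ 2))‖ₑ ^ 2 +
          ‖∫ p in Sd (Rf S) ((1 / 2) ^ (j + 1)), u (s * (p.1 ^ 2 + p.2 ^ 2))‖ₑ ^ 2)) := by
        refine lintegral_mono fun s => ?_
        dsimp only
        have h1 : ∫ p in S, u (s * (p.1 ^ 2 + p.2 ^ 2)) =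
            ∫ p in Sin S 1, u (s * (p.1 ^ 2 + p.2 ^ 2)) := by rw [← hS']
        rw [h1, decomp hS hSb s k]
        exact sq_decomp _ k _ _
    _ = 2 * (∫⁻ s in I, ‖∫ p in Sin S ((1 / 2) ^ k), u (s * (p.1 ^ 2 + p.2 ^ 2))‖ₑ ^ 2) +
        (4 * k : ℕ) * ∑ j ∈ Finset.range k,
          ((∫⁻ s in I, ‖∫ p in Sd S ((1 / 2) ^ (j + 1)), u (s * (p.1 ^ 2 + p.2 ^ 2))‖ₑ ^ 2) +
          ∫⁻ s in I, ‖∫ p in Sd (Rf S) ((1 / 2) ^ (j + 1)), u (s * (p.1 ^ 2 + p.2 ^ 2))‖ₑ ^ 2) := by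
        have hsm : ∀ j : ℕ, Measurable fun s : ℝ =>
            (‖∫ p in Sd S ((1 / 2) ^ (j + 1)), u (s * (p.1 ^ 2 + p.2 ^ 2))‖ₑ ^ 2 +
            ‖∫ p in Sd (Rf S) ((1 / 2) ^ (j + 1)), u (s * (p.1 ^ 2 + p.2 ^ 2))‖ₑ ^ 2) :=
          fun j => (hmeas _).add (hmeas _)
        rw [lintegral_add_left ((hmeas _).const_mul 2), lintegral_const_mul _ (hmeas _),
          lintegral_const_mul _ (Finset.measurable_fun_sum _ fun j _ => hsm j),
          lintegral_finset_sum _ fun j _ => hsm j]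
        congr 2
        refine Finset.sum_congr rfl fun j _ => ?_
        rw [lintegral_add_left (hmeas _)]
    _ ≤ 2 * (ENNReal.ofReal (2 * 2 ^ k) * (ENNReal.ofReal (8 * ((1 / 2) ^ k) ^ 2) *
          ∫⁻ w, n0 S w)) + (4 * k : ℕ) * ∑ j ∈ Finset.range k, (P j + P j) := by
        gcongr with j hj
        · calc ∫⁻ s in I, ‖∫ p in Sin S ((1 / 2) ^ k), u (s * (p.1 ^ 2 + p.2 ^ 2))‖ₑ ^ 2
              ≤ ∫⁻ _ in I, ENNReal.ofReal (8 * ((1 / 2) ^ k) ^ 2) * ∫⁻ w, n0 S w :=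
                lintegral_mono fun s => hmid s
            _ = _ := by rw [setLIntegral_const, hvolI, mul_comm]
        · exact hpos j
        · exact hneg j
    _ = _ := by
        congr 1
        · rw [← mul_assoc, ← mul_assoc, show (2 : ℝ≥0∞) = ENNReal.ofReal 2 by norm_num,
            ← ENNReal.ofReal_mul (by norm_num), ← ENNReal.ofReal_mul (by positivity)]
          congr 2
          have h1 : (2 : ℝ) ^ k * (1 / 2) ^ k = 1 := by
            rw [← mul_pow]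
            norm_num
          calc 2 * (2 * (2 : ℝ) ^ k) * (8 * ((1 / 2) ^ k) ^ 2)
              = 32 * (1 / 2) ^ k * ((2 : ℝ) ^ k * (1 / 2) ^ k) := by ring
            _ = _ := by rw [h1, mul_one]
        · rw [Finset.mul_sum, Finset.mul_sum]
          refine Finset.sum_congr rfl fun j _ => ?_
          rw [hP]
          dsimp only
          rw [← two_mul, ← mul_assoc, ← mul_assoc, ← mul_assoc, ← mul_assoc]
          congr 1
          rw [← ENNReal.ofReal_natCast, show (2 : ℝ≥0∞) = ENNReal.ofReal 2 by norm_num,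
            ← ENNReal.ofReal_mul (by positivity), ← ENNReal.ofReal_mul (by positivity),
            ← ENNReal.ofReal_mul (by positivity), ← ENNReal.ofReal_mul (by positivity)]
          congr 1
          have h1 : (2 : ℝ) ^ k * (1 / 2) ^ k = 1 := by
            rw [← mul_pow]
            norm_num
          have h2 : (1 / 2 : ℝ) ^ k = 1 / 2 ^ k := by
            rw [one_div_pow]
          rw [h2]
          push_cast
          field_simp
          ring

end Pool.Agent.H27.Fib
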