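import Mathlib
import Pool.Agent.H27.Fib.Decomp
import Pool.Agent.Restr.Wrap

/-!
# Integration over the centre
-/

namespace Pool.Agent.H27.Fib

open MeasureTheory Set Filter
open scoped ENNReal NNReal
open Pool.Agent.Restr (u norm_u enorm_u u_add measurable_u plancherel2 E E_sq Et Lam Ik QQ)

theorem lintegral_mul_left {a : ℝ} (ha : a ≠ 0) {φ : ℝ → ℝ≥0∞} (hφ : Measurable φ) :
    ∫⁻ x, φ (a * x) = ENNReal.ofReal |a⁻¹| * ∫⁻ x, φ x := by
  rw [← lintegral_map (μ := volume) hφ (measurable_const_mul a), Real.map_volume_mul_left ha,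
    lintegral_smul_measure, smul_eq_mul]

variable {A : Set (ℝ × ℝ)}

/-- The set of half differences of pairs of points of `A` with sum `X`. -/
def SX (A : Set (ℝ × ℝ)) (X : ℝ × ℝ) : Set (ℝ × ℝ) :=
  {w | (X.1 / 2 + w.1, X.2 / 2 + w.2) ∈ A ∧ (X.1 / 2 - w.1, X.2 / 2 - w.2) ∈ A}

theorem measurableSet_SX_joint (hA : MeasurableSet A) :
    MeasurableSet {z : (ℝ × ℝ) × (ℝ × ℝ) | z.2 ∈ SX A z.1} := by
  have h1 : Measurable fun z : (ℝ × ℝ) × (ℝ × ℝ) => (z.1.1 / 2 + z.2.1, z.1.2 / 2 + z.2.2) := by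
    fun_prop
  have h2 : Measurable fun z : (ℝ × ℝ) × (ℝ × ℝ) => (z.1.1 / 2 - z.2.1, z.1.2 / 2 - z.2.2) := by
    fun_prop
  exact (h1 hA).inter (h2 hA)

theorem measurableSet_SX (hA : MeasurableSet A) (X : ℝ × ℝ) : MeasurableSet (SX A X) :=
  measurable_prodMk_left (measurableSet_SX_joint hA)

theorem abs_le_of_SX (hAQ : A ⊆ QQ) {X w : ℝ × ℝ} (hw : w ∈ SX A X) :
    |w.1| ≤ 1 / 2 ∧ |w.2| ≤ 1 / 2 := by
  have h1 := hAQ hw.1
  have h2 := hAQ hw.2
  unfold QQ at h1 h2
  obtain ⟨⟨a1, a2⟩, ⟨a3, a4⟩⟩ := h1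
  obtain ⟨⟨b1, b2⟩, ⟨b3, b4⟩⟩ := h2
  simp only at a1 a2 a3 a4 b1 b2 b3 b4
  rw [abs_le, abs_le]
  refine ⟨⟨?_, ?_⟩, ⟨?_, ?_⟩⟩ <;> linarith

theorem SX_sub (hAQ : A ⊆ QQ) (X : ℝ × ℝ) : SX A X ⊆ Bx := by
  intro w hw
  have h := abs_le_of_SX hAQ hw
  rw [abs_le, abs_le] at h
  exact ⟨⟨by linarith [h.1.1], by linarith [h.1.2]⟩, ⟨by linarith [h.2.1], by linarith [h.2.2]⟩⟩

theorem fib_SX (X : ℝ × ℝ) (w : ℝ) : fib (SX A X) w =
    (fun y => X.2 / 2 + y) ⁻¹' fib A (X.1 / 2 + w) ∩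
      (fun y => X.2 / 2 - y) ⁻¹' fib A (X.1 / 2 - w) := rfl

theorem few_SX {m : ℕ} (hm : ∀ x, Few m (fib A x)) (X : ℝ × ℝ) (w : ℝ) :
    Few (m * m) (fib (SX A X) w) := by
  rw [fib_SX]
  refine ((hm _).preimage (Or.inl fun x y h => ?_)).inter
    ((hm _).preimage (Or.inr fun x y h => ?_))
  · linarith
  · linarith

/-- Joint measurability of the indicator of non-null fibres. -/
theorem measurable_n0_joint (hA : MeasurableSet A) :
    Measurable fun z : (ℝ × ℝ) × ℝ => n0 (SX A z.1) z.2 := by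
  have h1 : MeasurableSet {z : ((ℝ × ℝ) × ℝ) × ℝ | (z.1.2, z.2) ∈ SX A z.1.1} :=
    (by fun_prop : Measurable fun z : ((ℝ × ℝ) × ℝ) × ℝ => (z.1.1, (z.1.2, z.2)))
      (measurableSet_SX_joint hA)
  have h2 : Measurable fun z : (ℝ × ℝ) × ℝ => volume (fib (SX A z.1) z.2) :=
    measurable_measure_prodMk_left h1
  unfold n0
  exact Measurable.ite (h2 (measurableSet_singleton 0)) measurable_const measurable_const

theorem lint_n0_X2 {m : ℕ} (hm : ∀ x, Few m (fib A x)) (x w : ℝ) :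
    ∫⁻ y, n0 (SX A (x, y)) w ≤ (m * m : ℕ) *
      (volume (fib A (x / 2 + w)) + volume (fib A (x / 2 - w))) := by
  refine le_trans ?_ (((hm (x / 2 + w)).vol_add (hm (x / 2 - w))))
  refine le_trans (lintegral_mono fun y => ?_) (lintegral_indicator_one_le _)
  by_cases hy : y ∈ {x_1 : ℝ | ∃ y, y ∈ fib A (x / 2 + w) ∧ x_1 - y ∈ fib A (x / 2 - w)}
  · rw [indicator_of_mem hy]
    unfold n0
    split_ifs <;> simp
  · have h0 : fib (SX A (x, y)) w = ∅ := by
      ext z
      simp only [mem_empty_iff_false, iff_false]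
      rintro ⟨h1, h2⟩
      refine hy ⟨y / 2 + z, h1, ?_⟩
      have e : y - (y / 2 + z) = y / 2 - z := by ring
      rw [e]
      exact h2
    unfold n0
    rw [h0]
    simp

theorem n0_eq_zero (hAQ : A ⊆ QQ) (X : ℝ × ℝ) {w : ℝ} (hw : w ∉ Icc (-(1 : ℝ)) 1) :
    n0 (SX A X) w = 0 := by
  have h0 : fib (SX A X) w = ∅ := by
    ext z
    simp only [mem_empty_iff_false, iff_false]
    intro hz
    exact hw (SX_sub hAQ X hz).1
  unfold n0
  rw [h0]
  simp

/-- The main counting estimate. -/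
theorem lint_g_n0 (hA : MeasurableSet A) (hAQ : A ⊆ QQ) {m : ℕ} (hm : ∀ x, Few m (fib A x))
    {g : ℝ → ℝ≥0∞} (hg : Measurable g) :
    ∫⁻ X : ℝ × ℝ, ∫⁻ w, g w * n0 (SX A X) w ≤
      (∫⁻ w in Icc (-(1 : ℝ)) 1, g w) * ((4 * (m * m) : ℕ) * volume A) := by
  have hn := measurable_n0_joint hA
  have hv : Measurable fun x => volume (fib A x) := measurable_measure_prodMk_left hA
  have hvA : ∫⁻ x, volume (fib A x) = volume A := by
    rw [Measure.volume_eq_prod, Measure.prod_apply hA]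
    rfl
  have hnw' : ∀ w, Measurable fun X : ℝ × ℝ => n0 (SX A X) w := fun w =>
    hn.comp (measurable_id.prodMk measurable_const)
  have hinner : ∀ w, ∫⁻ X : ℝ × ℝ, n0 (SX A X) w ≤ (4 * (m * m) : ℕ) * volume A := by
    intro w
    have hnw := hnw' w
    have e0 : ∫⁻ X : ℝ × ℝ, n0 (SX A X) w = ∫⁻ x, ∫⁻ y, n0 (SX A (x, y)) w := by
      rw [Measure.volume_eq_prod, lintegral_prod _ hnw.aemeasurable]
    rw [e0]
    calc ∫⁻ x, ∫⁻ y, n0 (SX A (x, y)) w
        ≤ ∫⁻ x, (m * m : ℕ) * (volume (fib A (x / 2 + w)) + volume (fib A (x / 2 - w))) :=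
          lintegral_mono fun x => lint_n0_X2 hm x w
      _ = (m * m : ℕ) * ((∫⁻ x, volume (fib A (x / 2 + w))) +
          ∫⁻ x, volume (fib A (x / 2 - w))) := by
          have m1 : Measurable fun x => volume (fib A (x / 2 + w)) := hv.comp (by fun_prop)
          have m2 : Measurable fun x => volume (fib A (x / 2 - w)) := hv.comp (by fun_prop)
          have m3 : Measurable fun x => volume (fib A (x / 2 + w)) + volume (fib A (x / 2 - w)) :=
            m1.add m2
          rw [lintegral_const_mul _ m3, lintegral_add_left m1]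
      _ = (m * m : ℕ) * (2 * volume A + 2 * volume A) := by
          congr 2
          · have h1 := lintegral_mul_left (a := 1 / 2) (by norm_num)
              (φ := fun x => volume (fib A (x + w))) (hv.comp (measurable_add_const w))
            rw [lintegral_add_right_eq_self (fun x => volume (fib A x)) w, hvA] at h1
            have e : (1 / 2 : ℝ)⁻¹ = 2 := by norm_num
            rw [e, abs_of_pos (by norm_num : (0 : ℝ) < 2)] at h1
            have e2 : ∫⁻ x, volume (fib A (x / 2 + w)) = ∫⁻ x, volume (fib A (1 / 2 * x + w)) := by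
              refine lintegral_congr fun x => ?_
              congr 3
              ring
            rw [e2, h1]
            norm_num
          · have h1 := lintegral_mul_left (a := 1 / 2) (by norm_num)
              (φ := fun x => volume (fib A (x - w))) (hv.comp (measurable_sub_const w))
            rw [lintegral_sub_right_eq_self (fun x => volume (fib A x)) w, hvA] at h1
            have e : (1 / 2 : ℝ)⁻¹ = 2 := by norm_num
            rw [e, abs_of_pos (by norm_num : (0 : ℝ) < 2)] at h1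
            have e2 : ∫⁻ x, volume (fib A (x / 2 - w)) = ∫⁻ x, volume (fib A (1 / 2 * x - w)) := by
              refine lintegral_congr fun x => ?_
              congr 3
              ring
            rw [e2, h1]
            norm_num
      _ = _ := by
          push_cast
          ring
  calc ∫⁻ X : ℝ × ℝ, ∫⁻ w, g w * n0 (SX A X) w
      = ∫⁻ w, ∫⁻ X : ℝ × ℝ, g w * n0 (SX A X) w := by
        have h1 : Measurable fun z : (ℝ × ℝ) × ℝ => g z.2 * n0 (SX A z.1) z.2 :=
          (hg.comp measurable_snd).mul hn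
        exact lintegral_lintegral_swap (f := fun (X : ℝ × ℝ) (w : ℝ) => g w * n0 (SX A X) w)
          h1.aemeasurable
    _ = ∫⁻ w, g w * ∫⁻ X : ℝ × ℝ, n0 (SX A X) w := by
        refine lintegral_congr fun w => ?_
        exact lintegral_const_mul _ (hnw' w)
    _ ≤ ∫⁻ w, (Icc (-(1 : ℝ)) 1).indicator (fun w => g w * ((4 * (m * m) : ℕ) * volume A)) w := by
        refine lintegral_mono fun w => ?_
        by_cases hw : w ∈ Icc (-(1 : ℝ)) 1
        · rw [indicator_of_mem hw]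
          gcongr
          exact hinner w
        · rw [indicator_of_notMem hw]
          have h0 : ∀ X : ℝ × ℝ, n0 (SX A X) w = 0 := fun X => n0_eq_zero hAQ X hw
          simp only [h0, lintegral_zero, mul_zero, le_refl]
    _ = _ := by
        rw [lintegral_indicator measurableSet_Icc, lintegral_mul_const _ hg]

theorem cw_step {L r : ℝ} (hL : 0 ≤ L) (hr : 0 < r) :
    ∫⁻ w in Icc (-(2 * r)) (2 * r), cw L w ≤
      (∫⁻ w in Icc (-r) r, cw L w) + ENNReal.ofReal (4 * L) := by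
  set K : Set ℝ := Icc (-(2 * r)) (-r) ∪ Icc r (2 * r) with hK
  have hsub : Icc (-(2 * r)) (2 * r) ⊆ Icc (-r) r ∪ K := by
    rintro w ⟨h1, h2⟩
    rcases le_total w (-r) with h3 | h3
    · exact Or.inr (Or.inl ⟨h1, h3⟩)
    · rcases le_total r w with h4 | h4
      · exact Or.inr (Or.inr ⟨h4, h2⟩)
      · exact Or.inl ⟨h3, h4⟩
  have hvK : volume K ≤ ENNReal.ofReal (2 * r) := by
    refine (measure_union_le _ _).trans ?_
    rw [Real.volume_Icc, Real.volume_Icc, ← ENNReal.ofReal_add (by linarith) (by linarith)]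
    apply ENNReal.ofReal_le_ofReal
    linarith
  calc ∫⁻ w in Icc (-(2 * r)) (2 * r), cw L w ≤ ∫⁻ w in Icc (-r) r ∪ K, cw L w :=
        lintegral_mono_set hsub
    _ ≤ (∫⁻ w in Icc (-r) r, cw L w) + ∫⁻ w in K, cw L w := lintegral_union_le _ _ _
    _ ≤ (∫⁻ w in Icc (-r) r, cw L w) + ENNReal.ofReal (2 * L / r) * ENNReal.ofReal (2 * r) := by
        gcongr
        calc ∫⁻ w in K, cw L w ≤ ∫⁻ _ in K, ENNReal.ofReal (2 * L / r) := by
              refine setLIntegral_mono' (measurableSet_Icc.union measurableSet_Icc) fun w hw => ?_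
              unfold cw
              refine (min_le_right _ _).trans (ENNReal.ofReal_le_ofReal ?_)
              have h1 : r ≤ |w| := by
                rcases hw with hw | hw
                · rw [abs_of_nonpos (by linarith [hw.2])]
                  linarith [hw.2]
                · rw [abs_of_nonneg (by linarith [hw.1])]
                  exact hw.1
              gcongr
          _ = ENNReal.ofReal (2 * L / r) * volume K := setLIntegral_const _ _
          _ ≤ _ := by gcongr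
    _ = _ := by
        rw [← ENNReal.ofReal_mul (by positivity)]
        congr 2
        field_simp
        ring

theorem cw_scale {d : ℝ} (hd : 0 < d) (i : ℕ) :
    ∫⁻ w in Icc (-(2 ^ i * d)) (2 ^ i * d), cw (4 * d ^ 2) w ≤
      ENNReal.ofReal ((8 + 16 * i) * d ^ 2) := by
  induction i with
  | zero =>
    calc ∫⁻ w in Icc (-(2 ^ 0 * d)) (2 ^ 0 * d), cw (4 * d ^ 2) w
        ≤ ∫⁻ _ in Icc (-(2 ^ 0 * d)) (2 ^ 0 * d), ENNReal.ofReal (2 * √(4 * d ^ 2)) :=
          lintegral_mono fun w => min_le_left _ _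
      _ = ENNReal.ofReal (2 * √(4 * d ^ 2)) * ENNReal.ofReal (2 * d) := by
          rw [setLIntegral_const, Real.volume_Icc]
          congr 2
          ring
      _ ≤ _ := by
          rw [← ENNReal.ofReal_mul (by positivity)]
          apply ENNReal.ofReal_le_ofReal
          have : √(4 * d ^ 2) = 2 * d := by
            rw [show 4 * d ^ 2 = (2 * d) ^ 2 by ring]
            exact Real.sqrt_sq (by positivity)
          rw [this]
          push_cast
          nlinarith [sq_nonneg d]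
  | succ i ih =>
    have h := cw_step (L := 4 * d ^ 2) (r := 2 ^ i * d) (by positivity) (by positivity)
    rw [show (2 : ℝ) ^ (i + 1) * d = 2 * (2 ^ i * d) by ring]
    refine h.trans ?_
    calc _ ≤ ENNReal.ofReal ((8 + 16 * i) * d ^ 2) + ENNReal.ofReal (4 * (4 * d ^ 2)) := by gcongr
      _ = _ := by
          rw [← ENNReal.ofReal_add (by positivity) (by positivity)]
          congr 1
          push_cast
          ring

/-- The kernel integral. -/
theorem lint_cw (j : ℕ) :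
    ENNReal.ofReal (1 / ((1 / 2) ^ (j + 1)) ^ 2) *
      ∫⁻ w in Icc (-(1 : ℝ)) 1, cw (4 * ((1 / 2) ^ (j + 1)) ^ 2) w ≤
      ENNReal.ofReal (24 * (j + 1)) := by
  set d : ℝ := (1 / 2) ^ (j + 1) with hd
  have hd0 : 0 < d := by positivity
  have h := cw_scale hd0 (j + 1)
  have e : (2 : ℝ) ^ (j + 1) * d = 1 := by
    rw [hd, ← mul_pow]
    norm_num
  rw [e] at h
  calc ENNReal.ofReal (1 / d ^ 2) * ∫⁻ w in Icc (-(1 : ℝ)) 1, cw (4 * d ^ 2) w
      ≤ ENNReal.ofReal (1 / d ^ 2) * ENNReal.ofReal ((8 + 16 * (j + 1 : ℕ)) * d ^ 2) := by gcongr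
    _ = ENNReal.ofReal (8 + 16 * (j + 1 : ℕ)) := by
        rw [← ENNReal.ofReal_mul (by positivity)]
        congr 1
        field_simp
    _ ≤ _ := by
        apply ENNReal.ofReal_le_ofReal
        push_cast
        have : (0 : ℝ) ≤ j := Nat.cast_nonneg j
        linarith

theorem measurable_int_n0 (hA : MeasurableSet A) {g : ℝ → ℝ≥0∞} (hg : Measurable g) :
    Measurable fun X : ℝ × ℝ => ∫⁻ w, g w * n0 (SX A X) w := by
  apply Measurable.lintegral_prod_right' (f := fun z : (ℝ × ℝ) × ℝ => g z.2 * n0 (SX A z.1) z.2)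
  exact (hg.comp measurable_snd).mul (measurable_n0_joint hA)

theorem const_id {c1 c2 : ℝ} (hc10 : 0 ≤ c1) (hc20 : 0 ≤ c2) (m k : ℕ) (v : ℝ≥0∞) :
    ENNReal.ofReal c1 * (2 * ((4 * (m * m) : ℕ) * v)) +
        ENNReal.ofReal c2 * (k * (ENNReal.ofReal (24 * k) * ((4 * (m * m) : ℕ) * v))) =
    ENNReal.ofReal (c1 * (2 * (4 * (m * m))) + c2 * (k * (24 * k * (4 * (m * m))))) * v := by
  have e1 : ENNReal.ofReal (4 * (m * m)) = ((4 * (m * m) : ℕ) : ℝ≥0∞) := by
    rw [← ENNReal.ofReal_natCast]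
    push_cast
    rfl
  have e2 : ENNReal.ofReal 2 = 2 := by norm_num
  have e3 : ENNReal.ofReal (c1 * (2 * (4 * (m * m)))) =
      ENNReal.ofReal c1 * (2 * ((4 * (m * m) : ℕ) : ℝ≥0∞)) := by
    rw [ENNReal.ofReal_mul hc10, ENNReal.ofReal_mul (by norm_num), e1, e2]
  have e4 : ENNReal.ofReal (c2 * (k * (24 * k * (4 * (m * m))))) =
      ENNReal.ofReal c2 * (k * (ENNReal.ofReal (24 * k) * ((4 * (m * m) : ℕ) : ℝ≥0∞))) := by
    rw [ENNReal.ofReal_mul hc20, ENNReal.ofReal_mul (Nat.cast_nonneg k),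
      ENNReal.ofReal_mul (by positivity), e1, ENNReal.ofReal_natCast]
  rw [ENNReal.ofReal_add (by positivity) (by positivity), e3, e4]
  ring

/-- The total bound on a block, integrated over the centre. -/
theorem block_centre (hA : MeasurableSet A) (hAQ : A ⊆ QQ) {m : ℕ} (hm : ∀ x, Few m (fib A x))
    (k : ℕ) :
    ∫⁻ X : ℝ × ℝ, ∫⁻ s in Ico (2 * (2 : ℝ) ^ k) (4 * (2 : ℝ) ^ k),
      ‖∫ p in SX A X, u (s * (p.1 ^ 2 + p.2 ^ 2))‖ₑ ^ 2 ≤
      ENNReal.ofReal (6000 * m ^ 4 * (k + 1) ^ 3 * (1 / 2) ^ k) * volume A := by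
  set c1 : ℝ := 32 * (1 / 2) ^ k with hc1
  set c2 : ℝ := 8 * Real.pi * k * ((m * m : ℕ) + 1) * (1 / 2) ^ k with hc2
  set d : ℕ → ℝ := fun j => (1 / 2) ^ (j + 1) with hd
  have hc10 : 0 ≤ c1 := by positivity
  have hc20 : 0 ≤ c2 := by positivity
  have hg1 : Measurable fun X : ℝ × ℝ => ∫⁻ w, n0 (SX A X) w := by
    have h := measurable_int_n0 hA (g := fun _ => 1) measurable_const
    simpa only [one_mul] using h
  have hg2 : ∀ j : ℕ, Measurable fun X : ℝ × ℝ => ∫⁻ w, cw (4 * d j ^ 2) w * n0 (SX A X) w :=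
    fun j => measurable_int_n0 hA (measurable_cw _)
  have hg3 : ∀ j : ℕ, Measurable fun X : ℝ × ℝ => ENNReal.ofReal (1 / d j ^ 2) *
      ∫⁻ w, cw (4 * d j ^ 2) w * n0 (SX A X) w := fun j => (hg2 j).const_mul _
  have b1 : ∫⁻ X : ℝ × ℝ, ∫⁻ w, n0 (SX A X) w ≤ 2 * ((4 * (m * m) : ℕ) * volume A) := by
    have h := lint_g_n0 hA hAQ hm (g := fun _ => 1) measurable_const
    simp only [one_mul] at h
    refine h.trans (le_of_eq ?_)
    congr 1
    rw [setLIntegral_const, Real.volume_Icc]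
    norm_num
  have b2 : ∀ j : ℕ, ∫⁻ X : ℝ × ℝ, (ENNReal.ofReal (1 / d j ^ 2) *
      ∫⁻ w, cw (4 * d j ^ 2) w * n0 (SX A X) w) ≤
      ENNReal.ofReal (24 * (j + 1)) * ((4 * (m * m) : ℕ) * volume A) := by
    intro j
    rw [lintegral_const_mul _ (hg2 j)]
    calc ENNReal.ofReal (1 / d j ^ 2) * ∫⁻ X : ℝ × ℝ, ∫⁻ w, cw (4 * d j ^ 2) w * n0 (SX A X) w
        ≤ ENNReal.ofReal (1 / d j ^ 2) * ((∫⁻ w in Icc (-(1 : ℝ)) 1, cw (4 * d j ^ 2) w) *
          ((4 * (m * m) : ℕ) * volume A)) := by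
          gcongr
          exact lint_g_n0 hA hAQ hm (measurable_cw _)
      _ = (ENNReal.ofReal (1 / d j ^ 2) * ∫⁻ w in Icc (-(1 : ℝ)) 1, cw (4 * d j ^ 2) w) *
          ((4 * (m * m) : ℕ) * volume A) := by ring
      _ ≤ _ := by
          gcongr
          exact lint_cw j
  calc ∫⁻ X : ℝ × ℝ, ∫⁻ s in Ico (2 * (2 : ℝ) ^ k) (4 * (2 : ℝ) ^ k),
        ‖∫ p in SX A X, u (s * (p.1 ^ 2 + p.2 ^ 2))‖ₑ ^ 2
      ≤ ∫⁻ X : ℝ × ℝ, (ENNReal.ofReal c1 * (∫⁻ w, n0 (SX A X) w) +
        ENNReal.ofReal c2 * ∑ j ∈ Finset.range k, (ENNReal.ofReal (1 / d j ^ 2) *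
          ∫⁻ w, cw (4 * d j ^ 2) w * n0 (SX A X) w)) := by
        refine lintegral_mono fun X => ?_
        exact block_fixed (measurableSet_SX hA X) (SX_sub hAQ X)
          (fun p hp => lt_of_le_of_lt (abs_le_of_SX hAQ hp).2 (by norm_num))
          (few_SX hm X) k
    _ = ENNReal.ofReal c1 * (∫⁻ X : ℝ × ℝ, ∫⁻ w, n0 (SX A X) w) +
        ENNReal.ofReal c2 * ∑ j ∈ Finset.range k, ∫⁻ X : ℝ × ℝ, (ENNReal.ofReal (1 / d j ^ 2) *
          ∫⁻ w, cw (4 * d j ^ 2) w * n0 (SX A X) w) := by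
        rw [lintegral_add_left (hg1.const_mul _), lintegral_const_mul _ hg1,
          lintegral_const_mul _ (Finset.measurable_fun_sum _ fun j _ => hg3 j),
          lintegral_finsetSum _ fun j _ => hg3 j]
    _ ≤ ENNReal.ofReal c1 * (2 * ((4 * (m * m) : ℕ) * volume A)) +
        ENNReal.ofReal c2 * ∑ j ∈ Finset.range k,
          ENNReal.ofReal (24 * (j + 1)) * ((4 * (m * m) : ℕ) * volume A) := by
        gcongr with j hj
        exact b2 j
    _ ≤ ENNReal.ofReal c1 * (2 * ((4 * (m * m) : ℕ) * volume A)) +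
        ENNReal.ofReal c2 * ∑ _j ∈ Finset.range k,
          ENNReal.ofReal (24 * k) * ((4 * (m * m) : ℕ) * volume A) := by
        gcongr with j hj
        have h1 : j + 1 ≤ k := Finset.mem_range.1 hj
        exact_mod_cast h1
    _ = ENNReal.ofReal (c1 * (2 * (4 * (m * m))) + c2 * (k * (24 * k * (4 * (m * m))))) *
        volume A := by
        rw [Finset.sum_const, Finset.card_range, nsmul_eq_mul]
        exact const_id hc10 hc20 m k _
    _ ≤ _ := by
        gcongr
        rw [hc1, hc2]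
        have hk : (0 : ℝ) ≤ k := Nat.cast_nonneg k
        have hm4 : (m : ℝ) ^ 2 ≤ (m : ℝ) ^ 4 := by
          rcases Nat.eq_zero_or_pos m with h0 | h0
          · subst h0; simp
          · have : (1 : ℝ) ≤ m := by exact_mod_cast h0
            exact pow_le_pow_right₀ this (by norm_num)
        have hpi : Real.pi < 3.15 := Real.pi_lt_d2
        have hpi0 := Real.pi_pos
        have hq : (0 : ℝ) ≤ (1 / 2) ^ k := by positivity
        have hk3 : (k : ℝ) ^ 3 ≤ (k + 1) ^ 3 := by gcongr; linarith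
        have hk1 : (1 : ℝ) ≤ (k + 1) ^ 3 := one_le_pow₀ (by linarith)
        have hm0 : (0 : ℝ) ≤ (m : ℝ) ^ 4 := by positivity
        have hm2 : (0 : ℝ) ≤ (m : ℝ) ^ 2 := by positivity
        have main : 32 * (2 * (4 * (m * m : ℝ))) +
            8 * Real.pi * k * ((m * m : ℝ) + 1) * (k * (24 * k * (4 * (m * m)))) ≤
            6000 * m ^ 4 * (k + 1) ^ 3 := by
          have e1 : 32 * (2 * (4 * (m * m : ℝ))) = 256 * m ^ 2 := by ring
          have e2 : 8 * Real.pi * k * ((m * m : ℝ) + 1) * (k * (24 * k * (4 * (m * m)))) =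
              768 * Real.pi * k ^ 3 * (m ^ 4 + m ^ 2) := by ring
          rw [e1, e2]
          have h1 : 768 * Real.pi * k ^ 3 * ((m : ℝ) ^ 4 + m ^ 2) ≤
              768 * 3.15 * (k + 1) ^ 3 * (m ^ 4 + m ^ 4) := by gcongr
          have h2 : 256 * (m : ℝ) ^ 2 ≤ 256 * m ^ 4 * (k + 1) ^ 3 := by
            calc 256 * (m : ℝ) ^ 2 ≤ 256 * (m : ℝ) ^ 4 * 1 := by linarith
              _ ≤ _ := by gcongr
          nlinarith [mul_nonneg hm0 (le_trans zero_le_one hk1)]
        push_cast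
        calc 32 * (1 / 2) ^ k * (2 * (4 * ((m : ℝ) * m))) +
            8 * Real.pi * k * ((m * m : ℝ) + 1) * (1 / 2) ^ k * (k * (24 * k * (4 * (m * m))))
            = (32 * (2 * (4 * (m * m : ℝ))) +
            8 * Real.pi * k * ((m * m : ℝ) + 1) * (k * (24 * k * (4 * (m * m))))) *
              (1 / 2) ^ k := by ring
          _ ≤ 6000 * m ^ 4 * (k + 1) ^ 3 * (1 / 2) ^ k := by gcongr

end Pool.Agent.H27.Fib
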