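import Mathlib
import Pool.Agent.H27.Fib.Centre

/-!
# The `L⁴` bound on a dyadic block of times
-/

namespace Pool.Agent.H27.Fib

open MeasureTheory Set Filter
open scoped ENNReal NNReal
open Pool.Agent.Restr (u norm_u enorm_u u_add measurable_u plancherel2 E E_sq Et Lam Ik QQ
  lintegral_Lam measurable_E)

variable {A : Set (ℝ × ℝ)}

/-- The indicator function with complex values. -/
noncomputable def ind (A : Set (ℝ × ℝ)) : ℝ × ℝ → ℂ := A.indicator fun _ => 1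

theorem measurable_ind (hA : MeasurableSet A) : Measurable (ind A) :=
  measurable_const.indicator hA

/-- The centre-difference coordinates. -/
noncomputable def cd (z : (ℝ × ℝ) × (ℝ × ℝ)) : (ℝ × ℝ) × (ℝ × ℝ) :=
  ((z.1.1 / 2 + z.2.1, z.1.2 / 2 + z.2.2), (z.1.1 / 2 - z.2.1, z.1.2 / 2 - z.2.2))

theorem mp_cd : MeasurePreserving cd volume volume := by
  have h1 : MeasurePreserving (fun z : (ℝ × ℝ) × (ℝ × ℝ) =>
      (z.1, (z.1.1 / 2 + z.2.1, z.1.2 / 2 + z.2.2))) volume volume := by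
    have h := (MeasurePreserving.id (volume : Measure (ℝ × ℝ))).skew_product
      (g := fun (x y : ℝ × ℝ) => (x.1 / 2 + y.1, x.2 / 2 + y.2))
      (μb := (volume : Measure (ℝ × ℝ))) (μc := (volume : Measure (ℝ × ℝ)))
      (by fun_prop) (Eventually.of_forall fun x =>
        (measurePreserving_add_left (volume : Measure (ℝ × ℝ)) (x.1 / 2, x.2 / 2)).map_eq)
    exact h
  have h2 : MeasurePreserving (Prod.swap : (ℝ × ℝ) × (ℝ × ℝ) → (ℝ × ℝ) × (ℝ × ℝ))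
      volume volume := Measure.measurePreserving_swap
  have h3 : MeasurePreserving (fun z : (ℝ × ℝ) × (ℝ × ℝ) => (z.1, z.2 - z.1)) volume volume := by
    have h := (MeasurePreserving.id (volume : Measure (ℝ × ℝ))).skew_product
      (g := fun (x y : ℝ × ℝ) => y - x)
      (μb := (volume : Measure (ℝ × ℝ))) (μc := (volume : Measure (ℝ × ℝ)))
      (by fun_prop) (Eventually.of_forall fun x =>
        (measurePreserving_sub_right (volume : Measure (ℝ × ℝ)) x).map_eq)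
    exact h
  have h := h3.comp (h2.comp h1)
  have e : cd = (fun z : (ℝ × ℝ) × (ℝ × ℝ) => (z.1, z.2 - z.1)) ∘
      (Prod.swap ∘ (fun z : (ℝ × ℝ) × (ℝ × ℝ) => (z.1, (z.1.1 / 2 + z.2.1, z.1.2 / 2 + z.2.2)))) := by
    funext z
    simp only [cd, Function.comp, Prod.swap]
    refine Prod.ext rfl (Prod.ext ?_ ?_)
    · simp only [Prod.fst_sub]
      ring
    · simp only [Prod.snd_sub]
      ring
  rw [e]
  exact h

theorem vol_QQ_ne : volume QQ ≠ ⊤ := by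
  rw [Pool.Agent.Restr.vol_QQ]
  exact ENNReal.one_ne_top

theorem integrable_ind (hA : MeasurableSet A) (hAQ : A ⊆ QQ) : Integrable (ind A) := by
  unfold ind
  rw [integrable_indicator_iff hA]
  exact integrableOn_const (ne_top_of_le_ne_top vol_QQ_ne (measure_mono hAQ))

/-- The square of the extension as a planar Fourier transform. -/
theorem E_ind_sq (hA : MeasurableSet A) (hAQ : A ⊆ QQ) (a b t : ℝ) :
    E (ind A) (a, b, t) ^ 2 = ∫ X : ℝ × ℝ, u (a * X.1 + b * X.2) *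
      (u (t * ((X.1 ^ 2 + X.2 ^ 2) / 2)) *
        ∫ p in SX A X, u (2 * t * (p.1 ^ 2 + p.2 ^ 2))) := by
  rw [E_sq]
  have hm : Measurable fun z : (ℝ × ℝ) × (ℝ × ℝ) =>
      u (a * (z.1.1 + z.2.1) + (b * (z.1.2 + z.2.2) +
        t * ((z.1.1 ^ 2 + z.1.2 ^ 2) + (z.2.1 ^ 2 + z.2.2 ^ 2)))) * (ind A z.1 * ind A z.2) := by
    refine (measurable_u.comp (by fun_prop)).mul ?_
    exact ((measurable_ind hA).comp measurable_fst).mul ((measurable_ind hA).comp measurable_snd)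
  have hi : Integrable fun z : (ℝ × ℝ) × (ℝ × ℝ) =>
      u (a * (z.1.1 + z.2.1) + (b * (z.1.2 + z.2.2) +
        t * ((z.1.1 ^ 2 + z.1.2 ^ 2) + (z.2.1 ^ 2 + z.2.2 ^ 2)))) * (ind A z.1 * ind A z.2) := by
    have h1 : Integrable fun z : (ℝ × ℝ) × (ℝ × ℝ) => ind A z.1 * ind A z.2 :=
      (integrable_ind hA hAQ).mul_prod (integrable_ind hA hAQ)
    exact h1.bdd_mul (c := 1) (measurable_u.comp (by fun_prop)).aestronglyMeasurable
      (Eventually.of_forall fun x => (norm_u _).le)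
  have hi2 := mp_cd.integrable_comp_of_integrable hi
  have hm2 : AEStronglyMeasurable (fun z : (ℝ × ℝ) × (ℝ × ℝ) =>
      u (a * (z.1.1 + z.2.1) + (b * (z.1.2 + z.2.2) +
        t * ((z.1.1 ^ 2 + z.1.2 ^ 2) + (z.2.1 ^ 2 + z.2.2 ^ 2)))) * (ind A z.1 * ind A z.2))
      (Measure.map cd volume) := hm.aestronglyMeasurable
  conv_lhs => rw [← mp_cd.map_eq]
  rw [integral_map mp_cd.measurable.aemeasurable hm2]
  rw [Measure.volume_eq_prod (α := ℝ × ℝ) (β := ℝ × ℝ)]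
  rw [integral_prod _ (by
    have := hi2
    rw [Measure.volume_eq_prod (α := ℝ × ℝ) (β := ℝ × ℝ)] at this
    exact this)]
  refine integral_congr_ae (Eventually.of_forall fun X => ?_)
  dsimp only
  rw [← integral_const_mul, ← integral_const_mul, ← integral_indicator (measurableSet_SX hA X)]
  refine integral_congr_ae (Eventually.of_forall fun w => ?_)
  dsimp only
  by_cases hw : w ∈ SX A X
  · rw [indicator_of_mem hw]
    have h1 : ind A (cd (X, w)).1 = 1 := indicator_of_mem hw.1 _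
    have h2 : ind A (cd (X, w)).2 = 1 := indicator_of_mem hw.2 _
    rw [h1, h2, mul_one, mul_one, ← u_add, ← u_add]
    congr 1
    simp only [cd]
    ring
  · rw [indicator_of_notMem hw]
    have h1 : ind A (cd (X, w)).1 * ind A (cd (X, w)).2 = 0 := by
      by_cases h3 : (X.1 / 2 + w.1, X.2 / 2 + w.2) ∈ A
      · have h4 : (X.1 / 2 - w.1, X.2 / 2 - w.2) ∉ A := fun h => hw ⟨h3, h⟩
        have : ind A (cd (X, w)).2 = 0 := indicator_of_notMem h4 _
        rw [this, mul_zero]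
      · have : ind A (cd (X, w)).1 = 0 := indicator_of_notMem h3 _
        rw [this, zero_mul]
    rw [h1, mul_zero]

theorem measurable_SXint (hA : MeasurableSet A) :
    Measurable fun z : (ℝ × ℝ) × ℝ => ∫ p in SX A z.1, u (z.2 * (p.1 ^ 2 + p.2 ^ 2)) := by
  have h1 : StronglyMeasurable fun z : (ℝ × ℝ) × ℝ =>
      ∫ p : ℝ × ℝ, (SX A z.1).indicator (fun p => u (z.2 * (p.1 ^ 2 + p.2 ^ 2))) p := by
    apply StronglyMeasurable.integral_prod_right
      (f := fun (z : (ℝ × ℝ) × ℝ) (p : ℝ × ℝ) =>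
        (SX A z.1).indicator (fun p => u (z.2 * (p.1 ^ 2 + p.2 ^ 2))) p)
    apply Measurable.stronglyMeasurable
    have hs : MeasurableSet {y : ((ℝ × ℝ) × ℝ) × (ℝ × ℝ) | y.2 ∈ SX A y.1.1} :=
      (by fun_prop : Measurable fun y : ((ℝ × ℝ) × ℝ) × (ℝ × ℝ) => (y.1.1, y.2))
        (measurableSet_SX_joint hA)
    have hu : Measurable fun y : ((ℝ × ℝ) × ℝ) × (ℝ × ℝ) => u (y.1.2 * (y.2.1 ^ 2 + y.2.2 ^ 2)) :=
      measurable_u.comp (by fun_prop)
    exact hu.indicator hs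
  have e : (fun z : (ℝ × ℝ) × ℝ => ∫ p in SX A z.1, u (z.2 * (p.1 ^ 2 + p.2 ^ 2))) =
      fun z : (ℝ × ℝ) × ℝ =>
      ∫ p : ℝ × ℝ, (SX A z.1).indicator (fun p => u (z.2 * (p.1 ^ 2 + p.2 ^ 2))) p := by
    funext z
    rw [integral_indicator (measurableSet_SX hA z.1)]
  rw [e]
  exact h1.measurable

/-- The slice bound. -/
theorem slice_L4 (hA : MeasurableSet A) (hAQ : A ⊆ QQ) (t : ℝ) :
    ∫⁻ w : ℝ × ℝ, ‖E (ind A) (w.1, w.2, t)‖ₑ ^ 4 ≤
      ENNReal.ofReal (4 * Real.pi ^ 2) *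
        ∫⁻ X : ℝ × ℝ, ‖∫ p in SX A X, u (2 * t * (p.1 ^ 2 + p.2 ^ 2))‖ₑ ^ 2 := by
  have hG : Measurable fun X : ℝ × ℝ => u (t * ((X.1 ^ 2 + X.2 ^ 2) / 2)) *
        ∫ p in SX A X, u (2 * t * (p.1 ^ 2 + p.2 ^ 2)) := by
    refine (measurable_u.comp (by fun_prop)).mul ?_
    exact (measurable_SXint hA).comp
      (by fun_prop : Measurable fun X : ℝ × ℝ => (X, 2 * t))
  have h := plancherel2 (μ := (volume : Measure (ℝ × ℝ))) (s := fun x => x) measurable_id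
    (C := 1) (fun φ hφ => by rw [one_mul]) hG
  calc ∫⁻ w : ℝ × ℝ, ‖E (ind A) (w.1, w.2, t)‖ₑ ^ 4
      = ∫⁻ w : ℝ × ℝ, ‖∫ X : ℝ × ℝ, u (w.1 * X.1 + w.2 * X.2) *
      (u (t * ((X.1 ^ 2 + X.2 ^ 2) / 2)) *
        ∫ p in SX A X, u (2 * t * (p.1 ^ 2 + p.2 ^ 2)))‖ₑ ^ 2 := by
        refine lintegral_congr fun w => ?_
        rw [← E_ind_sq hA hAQ, enorm_pow, ← pow_mul]
    _ ≤ _ := h
    _ = _ := by
        congr 1
        · rw [one_mul, ← ENNReal.ofReal_mul (by positivity)]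
          congr 1
          ring
        · refine lintegral_congr fun X => ?_
          rw [enorm_mul, enorm_u, one_mul]

/-- The integrand. -/
noncomputable def SXsq (A : Set (ℝ × ℝ)) (X : ℝ × ℝ) (s : ℝ) : ℝ≥0∞ :=
  ‖∫ p in SX A X, u (s * (p.1 ^ 2 + p.2 ^ 2))‖ₑ ^ 2

theorem measurable_SXsq (hA : MeasurableSet A) :
    Measurable fun z : (ℝ × ℝ) × ℝ => SXsq A z.1 z.2 :=
  (measurable_SXint hA).enorm.pow_const 2

theorem scale_block {F : ℝ → ℝ≥0∞} (hF : Measurable F) (k : ℕ) :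
    ∫⁻ t in Ik k, F (2 * t) =
      ENNReal.ofReal (1 / 2) * ∫⁻ s in Ico (2 * (2 : ℝ) ^ k) (4 * (2 : ℝ) ^ k), F s := by
  set I : Set ℝ := Ico (2 * (2 : ℝ) ^ k) (4 * (2 : ℝ) ^ k) with hI
  have hφ : Measurable (I.indicator F) := hF.indicator measurableSet_Ico
  have h1 := lintegral_mul_left (a := 2) (by norm_num) hφ
  rw [lintegral_indicator measurableSet_Ico] at h1
  rw [show |(2 : ℝ)⁻¹| = 1 / 2 by rw [abs_of_pos (by norm_num)]; norm_num] at h1
  rw [← h1]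
  unfold Ik
  rw [← lintegral_indicator measurableSet_Ico]
  refine lintegral_congr fun t => ?_
  by_cases ht : t ∈ Ico ((2 : ℝ) ^ k) (2 * 2 ^ k)
  · have ht' : 2 * t ∈ I := ⟨by linarith [ht.1], by linarith [ht.2]⟩
    rw [indicator_of_mem ht, indicator_of_mem ht']
  · have ht' : 2 * t ∉ I := fun hc => ht ⟨by linarith [hc.1], by linarith [hc.2]⟩
    rw [indicator_of_notMem ht, indicator_of_notMem ht']

theorem swap_block (hA : MeasurableSet A) (k : ℕ) :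
    ∫⁻ t in Ik k, ∫⁻ X : ℝ × ℝ, SXsq A X (2 * t) =
      ∫⁻ X : ℝ × ℝ, ∫⁻ t in Ik k, SXsq A X (2 * t) := by
  have hc : Measurable fun z : ℝ × (ℝ × ℝ) => (z.2, 2 * z.1) := by fun_prop
  have hF2 := (measurable_SXsq hA).comp hc
  simp only [Function.comp_def] at hF2
  exact lintegral_lintegral_swap (f := fun (t : ℝ) (X : ℝ × ℝ) => SXsq A X (2 * t))
    hF2.aemeasurable

/-- The `L⁴` bound on a dyadic block of times. -/
theorem block_L4 (hA : MeasurableSet A) (hAQ : A ⊆ QQ) {m : ℕ} (hm : ∀ x, Few m (fib A x))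
    (k : ℕ) :
    ∫⁻ p, ‖Et (ind A) p‖ₑ ^ 4 ∂(Lam (Ik k)) ≤
      ENNReal.ofReal (12000 * Real.pi ^ 2 * m ^ 4 * (k + 1) ^ 3 * (1 / 2) ^ k) * volume A := by
  have hN : Measurable (fun p => ‖E (ind A) p‖ₑ ^ 4) :=
    (measurable_E (measurable_ind hA)).enorm.pow_const 4
  have h := lintegral_Lam (I := Ik k) hN
  have h0 : ∫⁻ p, ‖Et (ind A) p‖ₑ ^ 4 ∂(Lam (Ik k)) =
      ∫⁻ t in Ik k, ∫⁻ b, ∫⁻ a, ‖E (ind A) (a, b, t)‖ₑ ^ 4 := h
  rw [h0]
  have h1 : ∫⁻ t in Ik k, ∫⁻ b, ∫⁻ a, ‖E (ind A) (a, b, t)‖ₑ ^ 4 =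
      ∫⁻ t in Ik k, ∫⁻ w : ℝ × ℝ, ‖E (ind A) (w.1, w.2, t)‖ₑ ^ 4 := by
    refine lintegral_congr fun t => ?_
    have hm1 : Measurable (fun w : ℝ × ℝ => ‖E (ind A) (w.1, w.2, t)‖ₑ ^ 4) := hN.comp
      (by fun_prop : Measurable fun w : ℝ × ℝ => (w.1, w.2, t))
    rw [Measure.volume_eq_prod, lintegral_prod_symm _ hm1.aemeasurable]
  rw [h1]
  have h2 : ∫⁻ t in Ik k, ∫⁻ w : ℝ × ℝ, ‖E (ind A) (w.1, w.2, t)‖ₑ ^ 4 ≤
      ENNReal.ofReal (4 * Real.pi ^ 2) * ∫⁻ t in Ik k,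
        ∫⁻ X : ℝ × ℝ, SXsq A X (2 * t) := by
    rw [← lintegral_const_mul' _ _ ENNReal.ofReal_ne_top]
    exact lintegral_mono fun t => slice_L4 hA hAQ t
  refine h2.trans ?_
  rw [swap_block hA]
  have h3 : ∫⁻ X : ℝ × ℝ, ∫⁻ t in Ik k, SXsq A X (2 * t) =
      ENNReal.ofReal (1 / 2) * ∫⁻ X : ℝ × ℝ, ∫⁻ s in Ico (2 * (2 : ℝ) ^ k) (4 * (2 : ℝ) ^ k),
        SXsq A X s := by
    rw [← lintegral_const_mul' _ _ ENNReal.ofReal_ne_top]
    refine lintegral_congr fun X => ?_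
    have hc : Measurable fun s : ℝ => (X, s) := by fun_prop
    have hF2 := (measurable_SXsq hA).comp hc
    simp only [Function.comp_def] at hF2
    exact scale_block (F := SXsq A X) hF2 k
  rw [h3]
  calc ENNReal.ofReal (4 * Real.pi ^ 2) * (ENNReal.ofReal (1 / 2) * ∫⁻ X : ℝ × ℝ,
        ∫⁻ s in Ico (2 * (2 : ℝ) ^ k) (4 * (2 : ℝ) ^ k), SXsq A X s)
      ≤ ENNReal.ofReal (4 * Real.pi ^ 2) * (ENNReal.ofReal (1 / 2) *
        (ENNReal.ofReal (6000 * m ^ 4 * (k + 1) ^ 3 * (1 / 2) ^ k) * volume A)) :=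
        mul_le_mul' le_rfl (mul_le_mul' le_rfl (block_centre hA hAQ hm k))
    _ = _ := by
        rw [← mul_assoc, ← mul_assoc, ← ENNReal.ofReal_mul (by positivity),
          ← ENNReal.ofReal_mul (by positivity)]
        congr 2
        ring

end Pool.Agent.H27.Fib
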