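import Mathlib
import Pool.Agent.H27.Fib.Slice
import Pool.Agent.Restr.Global

/-!
# The restricted estimate for sets with fibres of bounded complexity
-/

namespace Pool.Agent.H27.Fib

open MeasureTheory Set Filter
open scoped ENNReal NNReal
open Pool.Agent.Restr (u norm_u enorm_u u_add measurable_u plancherel2 E E_sq Et Lam Ik QQ
  lintegral_Lam measurable_E measurable_Et block_L2 block_TS interp gsl lam_eq gsl_neg cj
  Ici_subset volume_Ik)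

variable {A : Set (ℝ × ℝ)}

theorem lint_ind (hA : MeasurableSet A) : ∫⁻ x, ‖ind A x‖ₑ ^ 2 = volume A := by
  have e : ∀ x, ‖ind A x‖ₑ ^ 2 = A.indicator 1 x := by
    intro x
    unfold ind
    by_cases hx : x ∈ A
    · rw [indicator_of_mem hx, indicator_of_mem hx]
      simp
    · rw [indicator_of_notMem hx, indicator_of_notMem hx]
      simp
  simp only [e]
  exact lintegral_indicator_one hA

theorem vol_le_one (hAQ : A ⊆ QQ) : volume A ≤ 1 := by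
  rw [← Pool.Agent.Restr.vol_QQ]
  exact measure_mono hAQ

/-- The real number `|A|`. -/
noncomputable def vr (A : Set (ℝ × ℝ)) : ℝ := (volume A).toReal

theorem ofReal_vr (hAQ : A ⊆ QQ) : ENNReal.ofReal (vr A) = volume A :=
  ENNReal.ofReal_toReal (ne_top_of_le_ne_top ENNReal.one_ne_top (vol_le_one hAQ))

theorem vr_nonneg (A : Set (ℝ × ℝ)) : 0 ≤ vr A := ENNReal.toReal_nonneg

theorem vr_le_one (hAQ : A ⊆ QQ) : vr A ≤ 1 := by
  unfold vr
  rw [← ENNReal.toReal_one]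
  exact ENNReal.toReal_mono ENNReal.one_ne_top (vol_le_one hAQ)

theorem ofReal_mul_vr (hAQ : A ⊆ QQ) {x : ℝ} (hx : 0 ≤ x) :
    ENNReal.ofReal (x * vr A) = ENNReal.ofReal x * volume A := by
  rw [ENNReal.ofReal_mul hx, ofReal_vr hAQ]

theorem ofReal_mul_vr_sq (hAQ : A ⊆ QQ) {x : ℝ} (hx : 0 ≤ x) :
    ENNReal.ofReal (x * vr A ^ 2) = ENNReal.ofReal x * volume A ^ 2 := by
  rw [ENNReal.ofReal_mul hx, ENNReal.ofReal_pow (vr_nonneg A), ofReal_vr hAQ]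

/-- Interpolated bound on a block. -/
theorem block_q {q δ : ℝ} (hq : 3 < q) (hq4 : q < 4) (hδ : 0 < δ) (hδ1 : δ ≤ q - 3)
    (hA : MeasurableSet A) (hAQ : A ⊆ QQ) {m : ℕ} (hm : ∀ x, Few m (fib A x)) (k : ℕ) :
    ∫⁻ p, ‖Et (ind A) p‖ₑ ^ q ∂(Lam (Ik k)) ≤ ENNReal.ofReal
      ((4 * Real.pi ^ 2 * 2 ^ k * vr A) ^ ((4 - q) / 2) *
      ((4 * Real.pi ^ 4 * vr A ^ 2) ^ (q - 3 - δ) *
      (12000 * Real.pi ^ 2 * m ^ 4 * (k + 1) ^ 3 * (1 / 2) ^ k * vr A) ^ ((4 - q) / 2 + δ))) := by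
  set b1 : ℝ := 4 * Real.pi ^ 4 * vr A ^ 2 with hb1
  set b2 : ℝ := 12000 * Real.pi ^ 2 * m ^ 4 * (k + 1) ^ 3 * (1 / 2) ^ k * vr A with hb2
  have hv := vr_nonneg A
  have hb10 : 0 ≤ b1 := by positivity
  have hb20 : 0 ≤ b2 := by positivity
  have hf := measurable_ind hA
  have h2 : ∫⁻ p, ‖Et (ind A) p‖ₑ ^ 2 ∂(Lam (Ik k)) ≤
      ENNReal.ofReal (4 * Real.pi ^ 2 * 2 ^ k * vr A) * 1 ^ 2 := by
    refine (block_L2 hf).trans (le_of_eq ?_)
    rw [lint_ind hA, volume_Ik, Real.rpow_natCast, one_pow, mul_one,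
      ofReal_mul_vr hAQ (by positivity), ← mul_assoc,
      ← ENNReal.ofReal_mul (by positivity)]
    congr 2
    ring
  have h4a : ∫⁻ p, ‖Et (ind A) p‖ₑ ^ 4 ∂(Lam (Ik k)) ≤ ENNReal.ofReal b1 := by
    refine (block_TS hf).trans (le_of_eq ?_)
    rw [lint_ind hA, hb1, ofReal_mul_vr_sq hAQ (by positivity)]
  have h4b : ∫⁻ p, ‖Et (ind A) p‖ₑ ^ 4 ∂(Lam (Ik k)) ≤ ENNReal.ofReal b2 := by
    refine (block_L4 hA hAQ hm k).trans (le_of_eq ?_)
    rw [hb2, ofReal_mul_vr hAQ (by positivity)]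
  have h4 : ∫⁻ p, ‖Et (ind A) p‖ₑ ^ 4 ∂(Lam (Ik k)) ≤ ENNReal.ofReal (min b1 b2) * 1 ^ 4 := by
    rw [one_pow, mul_one]
    rcases min_choice b1 b2 with h | h <;> rw [h]
    · exact h4a
    · exact h4b
  have h := interp (measurable_Et hf).enorm (by linarith) hq4.le
    (a := 4 * Real.pi ^ 2 * 2 ^ k * vr A) (b := min b1 b2) (by positivity)
    (le_min hb10 hb20) h2 h4
  rw [ENNReal.one_rpow, mul_one] at h
  refine h.trans (ENNReal.ofReal_le_ofReal ?_)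
  refine mul_le_mul_of_nonneg_left ?_ (by positivity)
  have hmn : 0 ≤ min b1 b2 := le_min hb10 hb20
  have e : (q - 2) / 2 = (q - 3 - δ) + ((4 - q) / 2 + δ) := by ring
  rw [e, Real.rpow_add_of_nonneg hmn (by linarith) (by linarith)]
  have h5 : (min b1 b2) ^ (q - 3 - δ) ≤ b1 ^ (q - 3 - δ) :=
    Real.rpow_le_rpow hmn (min_le_left _ _) (by linarith)
  have h6 : (min b1 b2) ^ ((4 - q) / 2 + δ) ≤ b2 ^ ((4 - q) / 2 + δ) :=
    Real.rpow_le_rpow hmn (min_le_right _ _) (by linarith)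
  exact mul_le_mul h5 h6 (by positivity) (by positivity)

/-- The constant in front of the block sum. -/
noncomputable def KK (q δ : ℝ) : ℝ :=
  (4 * Real.pi ^ 2) ^ ((4 - q) / 2) * ((4 * Real.pi ^ 4) ^ (q - 3 - δ) *
    (12000 * Real.pi ^ 2) ^ ((4 - q) / 2 + δ))

theorem KK_nonneg (q δ : ℝ) : 0 ≤ KK q δ := by
  unfold KK
  positivity

theorem block_algebra {q δ : ℝ} (hq : 3 < q) (hq4 : q < 4) (hδ : 0 < δ) (hδ1 : δ ≤ q - 3)
    (hδ2 : δ ≤ 1 / 4) {v : ℝ} (hv : 0 ≤ v) {m : ℕ} (hm : 1 ≤ m) (k : ℕ) :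
    (4 * Real.pi ^ 2 * 2 ^ k * v) ^ ((4 - q) / 2) *
      ((4 * Real.pi ^ 4 * v ^ 2) ^ (q - 3 - δ) *
      (12000 * Real.pi ^ 2 * m ^ 4 * (k + 1) ^ 3 * (1 / 2) ^ k * v) ^ ((4 - q) / 2 + δ)) ≤
    KK q δ * ((k + 1) ^ 3 * ((1 / 2) ^ δ) ^ k) * (m ^ q * v ^ (q - 2 - δ)) := by
  have hp := Real.pi_pos
  have hm1 : (1 : ℝ) ≤ m := by exact_mod_cast hm
  have hm0 : (0 : ℝ) < m := by linarith
  have hk1 : (1 : ℝ) ≤ k + 1 := by
    have : (0 : ℝ) ≤ k := Nat.cast_nonneg k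
    linarith
  set α : ℝ := (4 - q) / 2 with hα
  set β : ℝ := (4 - q) / 2 + δ with hβ
  set γ : ℝ := q - 3 - δ with hγ
  have hα0 : 0 < α := by rw [hα]; linarith
  have hβ0 : 0 < β := by rw [hβ]; linarith
  have hγ0 : 0 ≤ γ := by rw [hγ]; linarith
  have hβ1 : β ≤ 3 / 4 := by rw [hβ]; linarith
  have e1 : (4 * Real.pi ^ 2 * 2 ^ k * v) ^ α =
      (4 * Real.pi ^ 2) ^ α * (2 ^ k) ^ α * v ^ α := by
    rw [Real.mul_rpow (by positivity) hv, Real.mul_rpow (by positivity) (by positivity)]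
  have e2 : (4 * Real.pi ^ 4 * v ^ 2) ^ γ = (4 * Real.pi ^ 4) ^ γ * (v ^ 2) ^ γ := by
    rw [Real.mul_rpow (by positivity) (by positivity)]
  have e3 : (12000 * Real.pi ^ 2 * m ^ 4 * (k + 1) ^ 3 * (1 / 2) ^ k * v) ^ β =
      (12000 * Real.pi ^ 2) ^ β * ((m : ℝ) ^ 4) ^ β * (((k : ℝ) + 1) ^ 3) ^ β *
        ((1 / 2 : ℝ) ^ k) ^ β * v ^ β := by
    rw [Real.mul_rpow (by positivity) hv, Real.mul_rpow (by positivity) (by positivity),
      Real.mul_rpow (by positivity) (by positivity), Real.mul_rpow (by positivity) (by positivity)]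
  -- powers of two
  have e4 : ((2 : ℝ) ^ k) ^ α * ((1 / 2 : ℝ) ^ k) ^ β = ((1 / 2 : ℝ) ^ δ) ^ k := by
    have h1 : β = α + δ := rfl
    rw [h1, Real.rpow_add (by positivity), ← mul_assoc,
      ← Real.mul_rpow (by positivity) (by positivity), ← mul_pow]
    norm_num
    rw [← Real.rpow_natCast, ← Real.rpow_mul (by norm_num), ← Real.rpow_natCast,
      ← Real.rpow_mul (by norm_num), mul_comm]
  -- powers of v
  have e5 : v ^ α * (v ^ 2) ^ γ * v ^ β = v ^ (q - 2 - δ) := by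
    rw [← Real.rpow_natCast v 2, ← Real.rpow_mul hv, ← Real.rpow_add_of_nonneg hv hα0.le
      (by positivity), ← Real.rpow_add_of_nonneg hv (by positivity) hβ0.le]
    congr 1
    rw [hα, hβ, hγ]
    push_cast
    ring
  have e6 : ((m : ℝ) ^ 4) ^ β ≤ (m : ℝ) ^ q := by
    rw [← Real.rpow_natCast, ← Real.rpow_mul hm0.le]
    apply Real.rpow_le_rpow_of_exponent_le hm1
    push_cast
    linarith
  have e7 : (((k : ℝ) + 1) ^ 3) ^ β ≤ ((k : ℝ) + 1) ^ 3 := by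
    have h1 : (1 : ℝ) ≤ ((k : ℝ) + 1) ^ 3 := one_le_pow₀ hk1
    calc (((k : ℝ) + 1) ^ 3) ^ β ≤ (((k : ℝ) + 1) ^ 3) ^ (1 : ℝ) :=
          Real.rpow_le_rpow_of_exponent_le h1 (by linarith)
      _ = _ := Real.rpow_one _
  rw [e1, e2, e3]
  calc (4 * Real.pi ^ 2) ^ α * (2 ^ k) ^ α * v ^ α * ((4 * Real.pi ^ 4) ^ γ * (v ^ 2) ^ γ *
        ((12000 * Real.pi ^ 2) ^ β * ((m : ℝ) ^ 4) ^ β * (((k : ℝ) + 1) ^ 3) ^ β *
        ((1 / 2 : ℝ) ^ k) ^ β * v ^ β))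
      = KK q δ * ((((k : ℝ) + 1) ^ 3) ^ β * (((2 : ℝ) ^ k) ^ α * ((1 / 2 : ℝ) ^ k) ^ β)) *
        (((m : ℝ) ^ 4) ^ β * (v ^ α * (v ^ 2) ^ γ * v ^ β)) := by
        unfold KK
        rw [← hα, ← hβ, ← hγ]
        ring
    _ = KK q δ * ((((k : ℝ) + 1) ^ 3) ^ β * ((1 / 2 : ℝ) ^ δ) ^ k) *
        (((m : ℝ) ^ 4) ^ β * v ^ (q - 2 - δ)) := by rw [e4, e5]
    _ ≤ _ := by
        have := KK_nonneg q δ
        gcongr

theorem summable_k {δ : ℝ} (hδ : 0 < δ) :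
    Summable fun k : ℕ => ((k : ℝ) + 1) ^ 3 * ((1 / 2 : ℝ) ^ δ) ^ k := by
  set ρ : ℝ := (1 / 2 : ℝ) ^ δ with hρ
  have hρ0 : 0 < ρ := by positivity
  have hρ1 : ρ < 1 := Real.rpow_lt_one (by norm_num) (by norm_num) hδ
  have h1 : Summable fun n : ℕ => (n : ℝ) ^ 3 * ρ ^ n :=
    summable_pow_mul_geometric_of_norm_lt_one 3 (by
      rw [Real.norm_of_nonneg hρ0.le]; exact hρ1)
  have h2 := ((summable_nat_add_iff 1).2 h1).mul_right (ρ)⁻¹
  refine h2.congr fun k => ?_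
  push_cast
  rw [pow_succ ρ]
  field_simp

theorem cj_ind (A : Set (ℝ × ℝ)) : cj (ind A) = ind A := by
  funext x
  unfold cj ind
  by_cases hx : x ∈ A
  · rw [indicator_of_mem hx, map_one]
  · rw [indicator_of_notMem hx, map_zero]

/-- The restricted estimate, `3 < q < 4`. -/
theorem restricted {q δ : ℝ} (hq : 3 < q) (hq4 : q < 4) (hδ : 0 < δ) (hδ1 : δ ≤ q - 3)
    (hδ2 : δ ≤ 1 / 4) : ∃ C : ℝ≥0, ∀ (A : Set (ℝ × ℝ)) (m : ℕ), MeasurableSet A → A ⊆ QQ →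
      (∀ x, Few m (fib A x)) → 1 ≤ m →
      ∫⁻ ξ, ‖E (ind A) ξ‖ₑ ^ q ≤ C * ENNReal.ofReal (m ^ q * vr A ^ (q - 2 - δ)) := by
  set c : ℕ → ℝ := fun k => KK q δ * ((k + 1) ^ 3 * ((1 / 2) ^ δ) ^ k) with hc
  have hc0 : ∀ k, 0 ≤ c k := fun k => mul_nonneg (KK_nonneg q δ) (by positivity)
  have hcs : Summable c := (summable_k hδ).mul_left _
  set c' : ℝ := (4 * Real.pi ^ 2) ^ ((4 - q) / 2) * (4 * Real.pi ^ 4) ^ ((q - 2) / 2) with hc'
  have hc'0 : 0 ≤ c' := by positivity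
  refine ⟨2 * ((c').toNNReal + (∑' k, c k).toNNReal), fun A m hA hAQ hm hm1 => ?_⟩
  set D : ℝ := m ^ q * vr A ^ (q - 2 - δ) with hD
  have hv := vr_nonneg A
  have hv1 := vr_le_one hAQ
  have hD0 : 0 ≤ D := by positivity
  have hf := measurable_ind hA
  have hlarge : ∫⁻ t in Ici (1 : ℝ), gsl q (ind A) t ≤
      ENNReal.ofReal (∑' k, c k) * ENNReal.ofReal D := by
    calc ∫⁻ t in Ici (1 : ℝ), gsl q (ind A) t ≤ ∫⁻ t in ⋃ k, Ik k, gsl q (ind A) t :=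
          lintegral_mono_set Ici_subset
      _ ≤ ∑' k, ∫⁻ t in Ik k, gsl q (ind A) t := lintegral_iUnion_le _ _
      _ ≤ ∑' k, ENNReal.ofReal (c k) * ENNReal.ofReal D := by
          refine ENNReal.tsum_le_tsum fun k => ?_
          rw [← lam_eq hf, ← ENNReal.ofReal_mul (hc0 k)]
          refine (block_q hq hq4 hδ hδ1 hA hAQ hm k).trans (ENNReal.ofReal_le_ofReal ?_)
          exact block_algebra hq hq4 hδ hδ1 hδ2 hv hm1 k
      _ = (∑' k, ENNReal.ofReal (c k)) * ENNReal.ofReal D := ENNReal.tsum_mul_right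
      _ = _ := by rw [ENNReal.ofReal_tsum_of_nonneg hc0 hcs]
  have hsmall : ∫⁻ t in Ico (0 : ℝ) 1, gsl q (ind A) t ≤
      ENNReal.ofReal c' * ENNReal.ofReal D := by
    rw [← lam_eq hf]
    have h2 : ∫⁻ p, ‖Et (ind A) p‖ₑ ^ 2 ∂(Lam (Ico (0 : ℝ) 1)) ≤
        ENNReal.ofReal (4 * Real.pi ^ 2 * vr A) * 1 ^ 2 := by
      refine (block_L2 hf).trans (le_of_eq ?_)
      rw [lint_ind hA, Real.volume_Ico, sub_zero, ENNReal.ofReal_one, one_mul, one_pow, mul_one,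
        ofReal_mul_vr hAQ (by positivity)]
    have h4 : ∫⁻ p, ‖Et (ind A) p‖ₑ ^ 4 ∂(Lam (Ico (0 : ℝ) 1)) ≤
        ENNReal.ofReal (4 * Real.pi ^ 4 * vr A ^ 2) * 1 ^ 4 := by
      refine (block_TS hf).trans (le_of_eq ?_)
      rw [lint_ind hA, ofReal_mul_vr_sq hAQ (by positivity), one_pow, mul_one]
    have h := interp (measurable_Et hf).enorm (by linarith) hq4.le
      (a := 4 * Real.pi ^ 2 * vr A) (b := 4 * Real.pi ^ 4 * vr A ^ 2) (by positivity)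
      (by positivity) h2 h4
    rw [ENNReal.one_rpow, mul_one] at h
    refine h.trans ?_
    rw [← ENNReal.ofReal_mul hc'0]
    apply ENNReal.ofReal_le_ofReal
    have e4 : (4 * Real.pi ^ 2 * vr A) ^ ((4 - q) / 2) =
        (4 * Real.pi ^ 2) ^ ((4 - q) / 2) * vr A ^ ((4 - q) / 2) :=
      Real.mul_rpow (by positivity) hv
    have e5 : (4 * Real.pi ^ 4 * vr A ^ 2) ^ ((q - 2) / 2) =
        (4 * Real.pi ^ 4) ^ ((q - 2) / 2) * (vr A ^ 2) ^ ((q - 2) / 2) :=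
      Real.mul_rpow (by positivity) (by positivity)
    rw [e4, e5]
    have e1 : vr A ^ ((4 - q) / 2) * (vr A ^ 2) ^ ((q - 2) / 2) = vr A ^ (q / 2) := by
      rw [← Real.rpow_natCast (vr A) 2, ← Real.rpow_mul hv,
        ← Real.rpow_add_of_nonneg hv (by linarith) (by push_cast; linarith)]
      congr 1
      push_cast
      ring
    have e2 : vr A ^ (q / 2) ≤ vr A ^ (q - 2 - δ) := by
      apply Real.rpow_le_rpow_of_exponent_ge_of_imp hv hv1 (by linarith)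
      intro _ h0
      linarith
    have e3 : (1 : ℝ) ≤ (m : ℝ) ^ q :=
      Real.one_le_rpow (by exact_mod_cast hm1) (by linarith)
    calc (4 * Real.pi ^ 2) ^ ((4 - q) / 2) * vr A ^ ((4 - q) / 2) *
          ((4 * Real.pi ^ 4) ^ ((q - 2) / 2) * (vr A ^ 2) ^ ((q - 2) / 2))
        = c' * (1 * (vr A ^ ((4 - q) / 2) * (vr A ^ 2) ^ ((q - 2) / 2))) := by
          rw [hc']
          ring
      _ = c' * (1 * vr A ^ (q / 2)) := by rw [e1]
      _ ≤ c' * (m ^ q * vr A ^ (q - 2 - δ)) := by gcongr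
  have hsub : Ici (0 : ℝ) ⊆ Ico 0 1 ∪ Ici 1 := by
    intro t ht
    rcases lt_or_ge t 1 with h1 | h1
    · exact Or.inl ⟨ht, h1⟩
    · exact Or.inr h1
  have hpos : ∫⁻ t in Ici (0 : ℝ), gsl q (ind A) t ≤
      ((c').toNNReal + (∑' k, c k).toNNReal : ℝ≥0) * ENNReal.ofReal D := by
    calc ∫⁻ t in Ici (0 : ℝ), gsl q (ind A) t ≤ ∫⁻ t in Ico (0 : ℝ) 1 ∪ Ici 1, gsl q (ind A) t :=
          lintegral_mono_set hsub
      _ ≤ (∫⁻ t in Ico (0 : ℝ) 1, gsl q (ind A) t) + ∫⁻ t in Ici (1 : ℝ), gsl q (ind A) t :=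
          lintegral_union_le _ _ _
      _ ≤ ENNReal.ofReal c' * ENNReal.ofReal D + ENNReal.ofReal (∑' k, c k) * ENNReal.ofReal D :=
          add_le_add hsmall hlarge
      _ = _ := by
          rw [← add_mul]
          rfl
  have hmm := (measurable_E hf).enorm.pow_const q
  have e0 : ∫⁻ ξ, ‖E (ind A) ξ‖ₑ ^ q = ∫⁻ t, gsl q (ind A) t := by
    have h3 := lam_eq (q := q) hf univ
    rw [Measure.restrict_univ] at h3
    rw [← h3]
    have h4 := lintegral_Lam (I := univ) hmm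
    rw [show ∫⁻ p, ‖Et (ind A) p‖ₑ ^ q ∂(Lam univ) =
      ∫⁻ p : ℝ × ℝ × ℝ, ‖E (ind A) (p.2.2, p.2.1, p.1)‖ₑ ^ q ∂(Lam univ) from rfl, h4,
      Measure.restrict_univ]
    rw [Measure.volume_eq_prod (α := ℝ) (β := ℝ × ℝ), lintegral_prod_symm _ hmm.aemeasurable]
    have hm1 : Measurable (fun y : ℝ × ℝ => ∫⁻ x, ‖E (ind A) (x, y)‖ₑ ^ q) :=
      Measurable.lintegral_prod_right' (f := fun q' : (ℝ × ℝ) × ℝ => ‖E (ind A) (q'.2, q'.1)‖ₑ ^ q)
        (hmm.comp (by fun_prop : Measurable fun q' : (ℝ × ℝ) × ℝ => (q'.2, q'.1)))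
    rw [Measure.volume_eq_prod, lintegral_prod_symm _ hm1.aemeasurable]
  rw [e0, ← lintegral_add_compl (gsl q (ind A)) (measurableSet_Ici (a := (0 : ℝ)))]
  have h5 : ∫⁻ t in (Ici (0 : ℝ))ᶜ, gsl q (ind A) t ≤ ∫⁻ t in Ici (0 : ℝ), gsl q (ind A) t := by
    rw [← lintegral_indicator measurableSet_Ici, ← lintegral_indicator measurableSet_Ici.compl,
      ← lintegral_neg_eq_self]
    refine lintegral_mono fun t => ?_
    by_cases ht : -t ∈ (Ici (0 : ℝ))ᶜ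
    · have ht' : t ∈ Ici (0 : ℝ) := by
        have : ¬ (0 ≤ -t) := ht
        change 0 ≤ t
        linarith
      rw [indicator_of_mem ht, indicator_of_mem ht', gsl_neg, cj_ind]
    · rw [indicator_of_notMem ht]
      exact bot_le
  calc (∫⁻ t in Ici (0 : ℝ), gsl q (ind A) t) + ∫⁻ t in (Ici (0 : ℝ))ᶜ, gsl q (ind A) t
      ≤ ((c').toNNReal + (∑' k, c k).toNNReal : ℝ≥0) * ENNReal.ofReal D +
        ((c').toNNReal + (∑' k, c k).toNNReal : ℝ≥0) * ENNReal.ofReal D :=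
        add_le_add hpos (h5.trans hpos)
    _ = _ := by
        rw [← two_mul, ← mul_assoc]
        push_cast
        rfl

end Pool.Agent.H27.Fib
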