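import Mathlib
import Pool.Agent.H27.Fib.Restricted
import Pool.Agent.H27.Fib.Mink

/-!
# From sets to functions
-/

namespace Pool.Agent.H27.Fib

open MeasureTheory Set Filter
open scoped ENNReal NNReal
open Pool.Agent.Restr (u norm_u enorm_u u_add measurable_u E QQ measurable_E)

variable {A : Set (ℝ × ℝ)}

theorem enorm_E_le (f : ℝ × ℝ → ℂ) (ξ : ℝ × ℝ × ℝ) : ‖E f ξ‖ₑ ≤ ∫⁻ x, ‖f x‖ₑ := by
  unfold E
  refine (enorm_integral_le_lintegral_enorm _).trans (le_of_eq ?_)
  refine lintegral_congr fun x => ?_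
  rw [enorm_mul, enorm_u, one_mul]

theorem lint_ind1 (hA : MeasurableSet A) : ∫⁻ x, ‖ind A x‖ₑ = volume A := by
  have e : ∀ x, ‖ind A x‖ₑ = A.indicator 1 x := by
    intro x
    unfold ind
    by_cases hx : x ∈ A
    · rw [indicator_of_mem hx, indicator_of_mem hx]
      simp
    · rw [indicator_of_notMem hx, indicator_of_notMem hx]
      simp
  simp only [e]
  exact lintegral_indicator_one hA

/-- The restricted estimate for all `q > 3`. -/
theorem restricted' {q δ : ℝ} (hq : 3 < q) (hδ : 0 < δ) (hδ1 : δ ≤ q - 3)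
    (hδ2 : δ ≤ 1 / 4) : ∃ C : ℝ≥0, ∀ (A : Set (ℝ × ℝ)) (m : ℕ), MeasurableSet A → A ⊆ QQ →
      (∀ x, Few m (fib A x)) → 1 ≤ m →
      ∫⁻ ξ, ‖E (ind A) ξ‖ₑ ^ q ≤ C * ENNReal.ofReal (m ^ q * vr A ^ (q - 2 - δ)) := by
  rcases lt_or_ge q 4 with hq4 | hq4
  · exact restricted hq hq4 hδ hδ1 hδ2
  · obtain ⟨C, hC⟩ := restricted (q := 7 / 2) (δ := δ) (by norm_num) (by norm_num) hδ
      (by linarith) hδ2
    refine ⟨C, fun A m hA hAQ hm hm1 => ?_⟩
    have hv := vr_nonneg A
    have hv1 := vr_le_one hAQ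
    have h := hC A m hA hAQ hm hm1
    have hle : ∀ ξ, ‖E (ind A) ξ‖ₑ ≤ ENNReal.ofReal (vr A) := by
      intro ξ
      rw [ofReal_vr hAQ, ← lint_ind1 hA]
      exact enorm_E_le _ _
    calc ∫⁻ ξ, ‖E (ind A) ξ‖ₑ ^ q
        ≤ ∫⁻ ξ, ENNReal.ofReal (vr A) ^ (q - 7 / 2) * ‖E (ind A) ξ‖ₑ ^ (7 / 2 : ℝ) := by
          refine lintegral_mono fun ξ => ?_
          calc ‖E (ind A) ξ‖ₑ ^ q = ‖E (ind A) ξ‖ₑ ^ (q - 7 / 2) * ‖E (ind A) ξ‖ₑ ^ (7 / 2 : ℝ) := by
                rw [← ENNReal.rpow_add_of_nonneg _ _ (by linarith) (by norm_num)]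
                congr 1
                ring
            _ ≤ _ := by
                gcongr
                · linarith
                · exact hle ξ
      _ = ENNReal.ofReal (vr A) ^ (q - 7 / 2) * ∫⁻ ξ, ‖E (ind A) ξ‖ₑ ^ (7 / 2 : ℝ) :=
          lintegral_const_mul' _ _ (ENNReal.rpow_ne_top_of_nonneg (by linarith)
            ENNReal.ofReal_ne_top)
      _ ≤ ENNReal.ofReal (vr A) ^ (q - 7 / 2) * (C * ENNReal.ofReal
          (m ^ (7 / 2 : ℝ) * vr A ^ (7 / 2 - 2 - δ))) := by gcongr
      _ = C * ENNReal.ofReal (m ^ (7 / 2 : ℝ) * (vr A ^ (q - 7 / 2) * vr A ^ (7 / 2 - 2 - δ))) := by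
          rw [ENNReal.ofReal_rpow_of_nonneg hv (by linarith), ← mul_assoc, mul_comm _ (C : ℝ≥0∞),
            mul_assoc, ← ENNReal.ofReal_mul (by positivity)]
          congr 2
          ring
      _ ≤ _ := by
          refine mul_le_mul' le_rfl (ENNReal.ofReal_le_ofReal ?_)
          rw [← Real.rpow_add_of_nonneg hv (by linarith) (by linarith)]
          have e : q - 7 / 2 + (7 / 2 - 2 - δ) = q - 2 - δ := by ring
          rw [e]
          gcongr
          · exact_mod_cast hm1
          · linarith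

/-- Superlevel sets. -/
def Ls (G : ℝ × ℝ → ℝ) (l : ℝ) : Set (ℝ × ℝ) := {x | l < G x}

theorem measurableSet_Ls {G : ℝ × ℝ → ℝ} (hG : Measurable G) (l : ℝ) : MeasurableSet (Ls G l) :=
  measurableSet_lt measurable_const hG

/-- The extension of a non-negative function is dominated by the integral over its layers. -/
theorem layer {G : ℝ × ℝ → ℝ} (hG : Measurable G) (hi : Integrable G) (h0 : ∀ x, 0 ≤ G x)
    (ξ : ℝ × ℝ × ℝ) :
    ‖E (fun x => ((G x : ℝ) : ℂ)) ξ‖ₑ ≤ ∫⁻ l in Ioi (0 : ℝ), ‖E (ind (Ls G l)) ξ‖ₑ := by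
  set ph : ℝ × ℝ → ℂ := fun x => u (ξ.1 * x.1 + (ξ.2.1 * x.2 + ξ.2.2 * (x.1 ^ 2 + x.2 ^ 2))) with hph
  have hphm : Measurable ph := measurable_u.comp (by fun_prop)
  have hnph : ∀ x, ‖ph x‖ = 1 := fun x => norm_u _
  set f : ℝ × ℝ → ℝ → ℂ := fun x l => ph x * ind (Ls G l) x with hf
  have hfm : Measurable (Function.uncurry f) := by
    have hs : MeasurableSet {z : (ℝ × ℝ) × ℝ | z.2 < G z.1} :=
      measurableSet_lt measurable_snd (hG.comp measurable_fst)
    have e : Function.uncurry f = fun z : (ℝ × ℝ) × ℝ => ph z.1 *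
        {z : (ℝ × ℝ) × ℝ | z.2 < G z.1}.indicator (fun _ => (1 : ℂ)) z := by
      funext z
      rfl
    rw [e]
    exact (hphm.comp measurable_fst).mul (measurable_const.indicator hs)
  have hint1 : ∀ x, IntegrableOn (fun l => f x l) (Ioi (0 : ℝ)) := by
    intro x
    have h1 : IntegrableOn (fun l => f x l) (Ioc 0 (G x)) :=
      Measure.integrableOn_of_bounded (M := 1) (by
        rw [Real.volume_Ioc]; exact ENNReal.ofReal_ne_top)
        (hfm.comp measurable_prodMk_left).aestronglyMeasurable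
        (Eventually.of_forall fun l => by
          change ‖ph x * ind (Ls G l) x‖ ≤ 1
          rw [norm_mul, hnph, one_mul]
          unfold ind
          by_cases hx : x ∈ Ls G l
          · rw [indicator_of_mem hx]; simp
          · rw [indicator_of_notMem hx]; simp)
    refine h1.of_forall_sdiff_eq_zero measurableSet_Ioi fun l hl => ?_
    change ph x * ind (Ls G l) x = 0
    unfold ind
    rw [indicator_of_notMem, mul_zero]
    intro hx
    exact hl.2 ⟨hl.1, le_of_lt hx⟩
  have hval : ∀ x, ∫ l in Ioi (0 : ℝ), ‖f x l‖ = G x := by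
    intro x
    have e : ∀ l ∈ Ioi (0 : ℝ), ‖f x l‖ = (Iio (G x)).indicator (fun _ => (1 : ℝ)) l := by
      intro l _
      change ‖ph x * ind (Ls G l) x‖ = _
      rw [norm_mul, hnph, one_mul]
      unfold ind
      by_cases hx : l < G x
      · rw [indicator_of_mem (show x ∈ Ls G l from hx), indicator_of_mem (show l ∈ Iio (G x) from hx)]
        simp
      · rw [indicator_of_notMem (show x ∉ Ls G l from hx),
          indicator_of_notMem (show l ∉ Iio (G x) from hx)]
        simp
    rw [setIntegral_congr_fun measurableSet_Ioi e, setIntegral_indicator measurableSet_Iio,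
      setIntegral_const, smul_eq_mul, mul_one, Measure.real, Ioi_inter_Iio, Real.volume_Ioo,
      sub_zero, ENNReal.toReal_ofReal (h0 x)]
  have hval2 : ∀ x, ∫ l in Ioi (0 : ℝ), f x l = ph x * ((G x : ℝ) : ℂ) := by
    intro x
    have e : ∀ l ∈ Ioi (0 : ℝ), f x l = ph x * (((Iio (G x)).indicator (fun _ => (1 : ℝ)) l : ℝ) : ℂ) := by
      intro l _
      change ph x * ind (Ls G l) x = _
      unfold ind
      by_cases hx : l < G x
      · rw [indicator_of_mem (show x ∈ Ls G l from hx), indicator_of_mem (show l ∈ Iio (G x) from hx)]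
        simp
      · rw [indicator_of_notMem (show x ∉ Ls G l from hx),
          indicator_of_notMem (show l ∉ Iio (G x) from hx)]
        simp
    rw [setIntegral_congr_fun measurableSet_Ioi e, integral_const_mul, integral_complex_ofReal,
      setIntegral_indicator measurableSet_Iio,
      setIntegral_const, smul_eq_mul, mul_one, Measure.real, Ioi_inter_Iio, Real.volume_Ioo,
      sub_zero, ENNReal.toReal_ofReal (h0 x)]
  have hint : Integrable (Function.uncurry f) ((volume : Measure (ℝ × ℝ)).prod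
      (volume.restrict (Ioi (0 : ℝ)))) := by
    rw [integrable_prod_iff hfm.aestronglyMeasurable]
    refine ⟨Eventually.of_forall fun x => hint1 x, ?_⟩
    refine hi.congr (Eventually.of_forall fun x => ?_)
    exact (hval x).symm
  have key : E (fun x => ((G x : ℝ) : ℂ)) ξ = ∫ l in Ioi (0 : ℝ), E (ind (Ls G l)) ξ := by
    calc E (fun x => ((G x : ℝ) : ℂ)) ξ = ∫ x, ∫ l in Ioi (0 : ℝ), f x l := by
          unfold E
          refine integral_congr_ae (Eventually.of_forall fun x => ?_)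
          exact (hval2 x).symm
      _ = ∫ l in Ioi (0 : ℝ), ∫ x, f x l := integral_integral_swap hint
      _ = _ := rfl
  rw [key]
  exact enorm_integral_le_lintegral_enorm _

theorem measurable_layer {G : ℝ × ℝ → ℝ} (hG : Measurable G) :
    Measurable (Function.uncurry fun (ξ : ℝ × ℝ × ℝ) (l : ℝ) => ‖E (ind (Ls G l)) ξ‖ₑ) := by
  have h1 : StronglyMeasurable fun z : (ℝ × ℝ × ℝ) × ℝ => ∫ x : ℝ × ℝ,
      u (z.1.1 * x.1 + (z.1.2.1 * x.2 + z.1.2.2 * (x.1 ^ 2 + x.2 ^ 2))) * ind (Ls G z.2) x := by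
    apply StronglyMeasurable.integral_prod_right
      (f := fun (z : (ℝ × ℝ × ℝ) × ℝ) (x : ℝ × ℝ) =>
      u (z.1.1 * x.1 + (z.1.2.1 * x.2 + z.1.2.2 * (x.1 ^ 2 + x.2 ^ 2))) * ind (Ls G z.2) x)
    apply Measurable.stronglyMeasurable
    have hs : MeasurableSet {y : ((ℝ × ℝ × ℝ) × ℝ) × (ℝ × ℝ) | y.1.2 < G y.2} :=
      measurableSet_lt (measurable_snd.comp measurable_fst) (hG.comp measurable_snd)
    have h2 : Measurable fun y : ((ℝ × ℝ × ℝ) × ℝ) × (ℝ × ℝ) =>
        u (y.1.1.1 * y.2.1 + (y.1.1.2.1 * y.2.2 + y.1.1.2.2 * (y.2.1 ^ 2 + y.2.2 ^ 2))) :=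
      measurable_u.comp (by fun_prop)
    have h3 : Measurable ({y : ((ℝ × ℝ × ℝ) × ℝ) × (ℝ × ℝ) | y.1.2 < G y.2}.indicator
        fun _ => (1 : ℂ)) := measurable_const.indicator hs
    exact h2.mul h3
  exact h1.measurable.enorm

/-- Chebyshev's inequality integrated over all levels. -/
theorem cheb {G : ℝ × ℝ → ℝ} (hG : Measurable G) (hs0 : ∀ x, x ∉ QQ → G x = 0)
    {p s N : ℝ} (hp : 0 < p) (hs : 0 < s) (hps : 1 < p * s) (hN : 0 < N)
    (hGN : eLpNorm G (ENNReal.ofReal p) volume ≤ ENNReal.ofReal N) :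
    ∫⁻ l in Ioi (0 : ℝ), ENNReal.ofReal (vr (Ls G l) ^ s) ≤
      ENNReal.ofReal ((1 + 1 / (p * s - 1)) * N) := by
  have hQ : ∀ l, 0 < l → Ls G l ⊆ QQ := by
    intro l hl x hx
    by_contra hn
    have h1 : l < G x := hx
    rw [hs0 x hn] at h1
    linarith
  have hone : ∀ l, 0 < l → vr (Ls G l) ^ s ≤ 1 := fun l hl =>
    Real.rpow_le_one (vr_nonneg _) (vr_le_one (hQ l hl)) hs.le
  have hch : ∀ l, 0 < l → vr (Ls G l) ≤ (N / l) ^ p := by
    intro l hl
    have hp' : (ENNReal.ofReal p).toReal = p := ENNReal.toReal_ofReal hp.le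
    have h1 := mul_meas_ge_le_pow_eLpNorm' (μ := volume) (p := ENNReal.ofReal p)
      (by simpa using hp) ENNReal.ofReal_ne_top hG.aestronglyMeasurable (ENNReal.ofReal l)
    rw [hp'] at h1
    have h2 : Ls G l ⊆ {x | ENNReal.ofReal l ≤ ‖G x‖ₑ} := by
      intro x hx
      have h3 : l < G x := hx
      change ENNReal.ofReal l ≤ ‖G x‖ₑ
      rw [← ofReal_norm]
      apply ENNReal.ofReal_le_ofReal
      exact (le_of_lt h3).trans (Real.le_norm_self _)
    have h4 : ENNReal.ofReal (l ^ p * vr (Ls G l)) ≤ ENNReal.ofReal (N ^ p) := by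
      rw [ENNReal.ofReal_mul (by positivity), ofReal_vr (hQ l hl)]
      calc ENNReal.ofReal (l ^ p) * volume (Ls G l)
          ≤ ENNReal.ofReal l ^ p * volume {x | ENNReal.ofReal l ≤ ‖G x‖ₑ} := by
            rw [← ENNReal.ofReal_rpow_of_nonneg hl.le hp.le]
            gcongr
        _ ≤ eLpNorm G (ENNReal.ofReal p) volume ^ p := h1
        _ ≤ ENNReal.ofReal N ^ p := by gcongr
        _ = _ := ENNReal.ofReal_rpow_of_nonneg hN.le hp.le
    have h5 := (ENNReal.ofReal_le_ofReal_iff (by positivity)).1 h4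
    rw [Real.div_rpow hN.le hl.le, le_div_iff₀ (by positivity)]
    linarith
  have hsub : Ioi (0 : ℝ) ⊆ Ioc 0 N ∪ Ioi N := by
    intro l hl
    rcases le_or_gt l N with h | h
    · exact Or.inl ⟨hl, h⟩
    · exact Or.inr h
  have hps1 : 0 < p * s - 1 := by linarith
  calc ∫⁻ l in Ioi (0 : ℝ), ENNReal.ofReal (vr (Ls G l) ^ s)
      ≤ ∫⁻ l in Ioc 0 N ∪ Ioi N, ENNReal.ofReal (vr (Ls G l) ^ s) := lintegral_mono_set hsub
    _ ≤ (∫⁻ l in Ioc 0 N, ENNReal.ofReal (vr (Ls G l) ^ s)) +
        ∫⁻ l in Ioi N, ENNReal.ofReal (vr (Ls G l) ^ s) := lintegral_union_le _ _ _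
    _ ≤ ENNReal.ofReal N + ENNReal.ofReal (N / (p * s - 1)) := by
        gcongr
        · calc ∫⁻ l in Ioc 0 N, ENNReal.ofReal (vr (Ls G l) ^ s) ≤ ∫⁻ _ in Ioc 0 N, 1 := by
                refine setLIntegral_mono' measurableSet_Ioc fun l hl => ?_
                rw [← ENNReal.ofReal_one]
                exact ENNReal.ofReal_le_ofReal (hone l hl.1)
            _ = _ := by rw [setLIntegral_const, Real.volume_Ioc, one_mul, sub_zero]
        · calc ∫⁻ l in Ioi N, ENNReal.ofReal (vr (Ls G l) ^ s)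
              ≤ ∫⁻ l in Ioi N, ENNReal.ofReal (N ^ (p * s) * l ^ (-(p * s))) := by
                refine setLIntegral_mono' measurableSet_Ioi fun l hl => ?_
                have hl0 : 0 < l := hN.trans hl
                apply ENNReal.ofReal_le_ofReal
                calc vr (Ls G l) ^ s ≤ ((N / l) ^ p) ^ s :=
                      Real.rpow_le_rpow (vr_nonneg _) (hch l hl0) hs.le
                  _ = N ^ (p * s) * l ^ (-(p * s)) := by
                      rw [← Real.rpow_mul (by positivity), Real.div_rpow hN.le hl0.le,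
                        Real.rpow_neg hl0.le, div_eq_mul_inv]
            _ = ENNReal.ofReal (∫ l in Ioi N, N ^ (p * s) * l ^ (-(p * s))) := by
                rw [ofReal_integral_eq_lintegral_ofReal]
                · exact (integrableOn_Ioi_rpow_of_lt (by linarith) hN).const_mul _
                · refine (ae_restrict_iff' measurableSet_Ioi).2 (Eventually.of_forall fun l hl => ?_)
                  have hl0 : 0 < l := hN.trans hl
                  change 0 ≤ N ^ (p * s) * l ^ (-(p * s))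
                  positivity
            _ ≤ _ := by
                apply ENNReal.ofReal_le_ofReal
                rw [integral_const_mul, integral_Ioi_rpow_of_lt (by linarith) hN]
                have e1 : N ^ (p * s) * (-N ^ (-(p * s) + 1) / (-(p * s) + 1)) =
                    (N ^ (p * s) * N ^ (-(p * s) + 1)) / (p * s - 1) := by
                  rw [show -(p * s) + 1 = -(p * s - 1) by ring]
                  field_simp
                rw [e1, ← Real.rpow_add hN, show p * s + (-(p * s) + 1) = 1 by ring, Real.rpow_one]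
    _ = _ := by
        rw [← ENNReal.ofReal_add hN.le (by positivity)]
        congr 1
        ring

end Pool.Agent.H27.Fib
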