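import Mathlib
import Pool.Agent.H27.Fib.Layer
import Pool.Agent.Restr.Trunc

/-!
# The final statement
-/

namespace Pool.Agent.H27.Fib

open MeasureTheory Set Filter
open scoped ENNReal NNReal
open Pool.Agent.Restr (u norm_u enorm_u u_add measurable_u E QQ measurable_E eLpNorm_le_one
  support_QQ vol_QQ rot rot_apply mp_rot continuous_rot E_rot eLpNorm_E_rot rot_supp)

theorem nonneg_case {q p : ℝ} (hq : 3 < q) (hp : q / (q - 2) < p) : ∃ C : ℝ≥0,
    ∀ (G : ℝ × ℝ → ℝ) (m : ℕ), Measurable G → (∀ x, x ∉ QQ → G x = 0) → (∀ x, 0 ≤ G x) →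
      1 ≤ m → (∀ l, 0 < l → ∀ x, Few m (fib (Ls G l) x)) →
      eLpNorm (E fun x => ((G x : ℝ) : ℂ)) (ENNReal.ofReal q) volume ≤
        C * m * eLpNorm G (ENNReal.ofReal p) volume := by
  have hq0 : 0 < q := by linarith
  have hq2 : 0 < q - 2 := by linarith
  have hp1 : 1 < p := by
    refine lt_of_le_of_lt ?_ hp
    rw [le_div_iff₀ hq2]
    linarith
  have hp0 : 0 < p := by linarith
  have hqp : q / p < q - 2 := by
    rw [div_lt_iff₀ hp0]
    rw [div_lt_iff₀ hq2] at hp
    linarith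
  set δ : ℝ := min (min (q - 3) (1 / 4)) ((q - 2 - q / p) / 2) with hδdef
  have hδ : 0 < δ := lt_min (lt_min (by linarith) (by norm_num)) (by linarith)
  have hδ1 : δ ≤ q - 3 := (min_le_left _ _).trans (min_le_left _ _)
  have hδ2 : δ ≤ 1 / 4 := (min_le_left _ _).trans (min_le_right _ _)
  have hδ3 : δ ≤ (q - 2 - q / p) / 2 := min_le_right _ _
  clear_value δ
  set s : ℝ := (q - 2 - δ) / q with hs
  have hs0 : 0 < s := div_pos (by linarith) hq0
  have hps : 1 < p * s := by
    rw [hs, mul_div_assoc', lt_div_iff₀ hq0]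
    have h1 : q / p < q - 2 - δ := by linarith
    rw [div_lt_iff₀ hp0] at h1
    linarith
  obtain ⟨C, hC⟩ := restricted' hq hδ hδ1 hδ2
  set K : ℝ := 1 + 1 / (p * s - 1) with hK
  have hK0 : 0 < K := by
    have : 0 < p * s - 1 := by linarith
    positivity
  refine ⟨C ^ (1 / q) * K.toNNReal + 1, fun G m hG hG0 hGn hm hfew => ?_⟩
  have h1p : (1 : ℝ≥0∞) ≤ ENNReal.ofReal p := by
    rw [← ENNReal.ofReal_one]
    exact ENNReal.ofReal_le_ofReal (by linarith)
  have hm0 : (m : ℝ≥0∞) ≠ 0 := by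
    have : m ≠ 0 := by omega
    exact_mod_cast this
  rcases eq_or_ne (eLpNorm G (ENNReal.ofReal p) volume) ⊤ with htop | htop
  · rw [htop, ENNReal.mul_top]
    · exact le_top
    · refine mul_ne_zero ?_ hm0
      simp
  have hL1 : eLpNorm G 1 volume ≤ eLpNorm G (ENNReal.ofReal p) volume := by
    refine eLpNorm_le_one (s := QQ) ?_ h1p hG.aestronglyMeasurable vol_QQ
    intro x hx
    by_contra hn
    exact hx (hG0 x hn)
  have hint : Integrable G := by
    rw [← memLp_one_iff_integrable]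
    exact ⟨hG.aestronglyMeasurable, lt_of_le_of_lt hL1 (lt_top_iff_ne_top.2 htop)⟩
  have hGc : Measurable fun x => ((G x : ℝ) : ℂ) := Complex.measurable_ofReal.comp hG
  have hqq : (ENNReal.ofReal q).toReal = q := ENNReal.toReal_ofReal hq0.le
  have hform : ∀ f : ℝ × ℝ × ℝ → ℂ, eLpNorm f (ENNReal.ofReal q) volume =
      (∫⁻ ξ, ‖f ξ‖ₑ ^ q) ^ (1 / q) := by
    intro f
    rw [eLpNorm_eq_lintegral_rpow_enorm_toReal (by simpa using hq0) ENNReal.ofReal_ne_top, hqq]
  rcases eq_or_ne (eLpNorm G (ENNReal.ofReal p) volume) 0 with hz | hz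
  · have hG0' : G =ᵐ[volume] 0 := by
      rwa [eLpNorm_eq_zero_iff hG.aestronglyMeasurable (by simpa using hp0)] at hz
    have hE0 : (E fun x => ((G x : ℝ) : ℂ)) = 0 := by
      funext ξ
      unfold E
      rw [Pi.zero_apply]
      refine integral_eq_zero_of_ae ?_
      filter_upwards [hG0'] with x hx
      rw [hx]
      simp
    rw [hE0, eLpNorm_zero]
    exact bot_le
  set N : ℝ := (eLpNorm G (ENNReal.ofReal p) volume).toReal with hN
  have hN0 : 0 < N := ENNReal.toReal_pos hz htop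
  have hGN : eLpNorm G (ENNReal.ofReal p) volume = ENNReal.ofReal N := (ENNReal.ofReal_toReal htop).symm
  -- Minkowski
  have hB : ∫⁻ x, ‖((G x : ℝ) : ℂ)‖ₑ ≠ ⊤ := by
    have h1 := hint.ofReal (𝕜 := ℂ)
    exact h1.2.ne
  have hmink := mink (μ := (volume : Measure (ℝ × ℝ × ℝ)))
    (ν := (volume.restrict (Ioi (0 : ℝ)))) (q := q) (by linarith)
    (F := fun ξ l => ‖E (ind (Ls G l)) ξ‖ₑ) (measurable_layer hG)
    (Φ := fun ξ => ‖E (fun x => ((G x : ℝ) : ℂ)) ξ‖ₑ) (measurable_E hGc).enorm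
    (fun ξ => layer hG hint hGn ξ) hB (fun ξ => enorm_E_le _ ξ)
  have hQ : ∀ l, 0 < l → Ls G l ⊆ QQ := by
    intro l hl x hx
    by_contra hn
    have h1 : l < G x := hx
    rw [hG0 x hn] at h1
    linarith
  have hlev : ∀ l ∈ Ioi (0 : ℝ), (∫⁻ ξ, ‖E (ind (Ls G l)) ξ‖ₑ ^ q) ^ (1 / q) ≤
      ((C : ℝ≥0∞) ^ (1 / q) * m) * ENNReal.ofReal (vr (Ls G l) ^ s) := by
    intro l hl
    have h1 := hC (Ls G l) m (measurableSet_Ls hG l) (hQ l hl) (hfew l hl) hm
    have hv := vr_nonneg (Ls G l)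
    calc (∫⁻ ξ, ‖E (ind (Ls G l)) ξ‖ₑ ^ q) ^ (1 / q)
        ≤ (C * ENNReal.ofReal (m ^ q * vr (Ls G l) ^ (q - 2 - δ))) ^ (1 / q) := by gcongr
      _ = _ := by
          rw [ENNReal.mul_rpow_of_nonneg _ _ (by positivity),
            ENNReal.ofReal_rpow_of_nonneg (by positivity) (by positivity),
            Real.mul_rpow (by positivity) (by positivity), ← Real.rpow_mul (Nat.cast_nonneg m),
            ← Real.rpow_mul hv, mul_one_div_cancel hq0.ne', Real.rpow_one, mul_one_div, ← hs,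
            ENNReal.ofReal_mul (Nat.cast_nonneg m), ENNReal.ofReal_natCast, mul_assoc]
  have hint2 : ∫⁻ l in Ioi (0 : ℝ), (∫⁻ ξ, ‖E (ind (Ls G l)) ξ‖ₑ ^ q) ^ (1 / q) ≤
      ((C : ℝ≥0∞) ^ (1 / q) * m) * ENNReal.ofReal (K * N) := by
    calc ∫⁻ l in Ioi (0 : ℝ), (∫⁻ ξ, ‖E (ind (Ls G l)) ξ‖ₑ ^ q) ^ (1 / q)
        ≤ ∫⁻ l in Ioi (0 : ℝ), ((C : ℝ≥0∞) ^ (1 / q) * m) * ENNReal.ofReal (vr (Ls G l) ^ s) :=
          setLIntegral_mono' measurableSet_Ioi hlev
      _ = ((C : ℝ≥0∞) ^ (1 / q) * m) * ∫⁻ l in Ioi (0 : ℝ), ENNReal.ofReal (vr (Ls G l) ^ s) := by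
          refine lintegral_const_mul' _ _ (ENNReal.mul_ne_top ?_ (ENNReal.natCast_ne_top m))
          exact ENNReal.rpow_ne_top_of_nonneg (by positivity) ENNReal.coe_ne_top
      _ ≤ _ := by
          gcongr
          exact cheb hG hG0 hp0 hs0 hps hN0 hGN.le
  rw [hform]
  calc (∫⁻ ξ, ‖E (fun x => ((G x : ℝ) : ℂ)) ξ‖ₑ ^ q) ^ (1 / q)
      ≤ ((∫⁻ l in Ioi (0 : ℝ), (∫⁻ ξ, ‖E (ind (Ls G l)) ξ‖ₑ ^ q) ^ (1 / q)) ^ q) ^ (1 / q) := by
        gcongr
    _ = ∫⁻ l in Ioi (0 : ℝ), (∫⁻ ξ, ‖E (ind (Ls G l)) ξ‖ₑ ^ q) ^ (1 / q) := by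
        rw [← ENNReal.rpow_mul, mul_one_div_cancel hq0.ne', ENNReal.rpow_one]
    _ ≤ ((C : ℝ≥0∞) ^ (1 / q) * m) * ENNReal.ofReal (K * N) := hint2
    _ = ((C : ℝ≥0∞) ^ (1 / q) * (K.toNNReal : ℝ≥0∞)) * m * ENNReal.ofReal N := by
        rw [ENNReal.ofReal_mul hK0.le]
        change ((C : ℝ≥0∞) ^ (1 / q) * m) * ((K.toNNReal : ℝ≥0∞) * ENNReal.ofReal N) = _
        ring
    _ ≤ _ := by
        rw [hGN]
        gcongr
        push_cast
        rw [ENNReal.coe_rpow_of_nonneg _ (by positivity)]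
        exact le_self_add

/-- Positive part. -/
noncomputable def pp (g : ℝ × ℝ → ℝ) (x : ℝ × ℝ) : ℝ := max (g x) 0

theorem Ls_pp (g : ℝ × ℝ → ℝ) {l : ℝ} (hl : 0 < l) : Ls (pp g) l = Ls g l := by
  ext x
  change l < max (g x) 0 ↔ l < g x
  rw [lt_max_iff]
  constructor
  · rintro (h | h)
    · exact h
    · linarith
  · exact Or.inl

theorem measurable_pp {g : ℝ × ℝ → ℝ} (hg : Measurable g) : Measurable (pp g) :=
  hg.max measurable_const

theorem E_add {f g : ℝ × ℝ → ℂ} (hf : Integrable f) (hg : Integrable g) (ξ : ℝ × ℝ × ℝ) :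
    E (fun x => f x + g x) ξ = E f ξ + E g ξ := by
  unfold E
  have h : ∀ {f : ℝ × ℝ → ℂ}, Integrable f → Integrable fun x : ℝ × ℝ =>
      u (ξ.1 * x.1 + (ξ.2.1 * x.2 + ξ.2.2 * (x.1 ^ 2 + x.2 ^ 2))) * f x := fun hf =>
    hf.bdd_mul (c := 1) (measurable_u.comp (by fun_prop)).aestronglyMeasurable
      (Eventually.of_forall fun x => (norm_u _).le)
  rw [← integral_add (h hf) (h hg)]
  refine integral_congr_ae (Eventually.of_forall fun x => ?_)
  simp only
  ring

theorem E_const_mul (c : ℂ) (f : ℝ × ℝ → ℂ) (ξ : ℝ × ℝ × ℝ) :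
    E (fun x => c * f x) ξ = c * E f ξ := by
  unfold E
  rw [← integral_const_mul]
  refine integral_congr_ae (Eventually.of_forall fun x => ?_)
  simp only
  ring

/-- The four parts of a complex function. -/
theorem four_parts (z : ℂ) : z = (((max z.re 0 : ℝ) : ℂ) + (-1) * ((max (-z.re) 0 : ℝ) : ℂ)) +
    (Complex.I * ((max z.im 0 : ℝ) : ℂ) + (-Complex.I) * ((max (-z.im) 0 : ℝ) : ℂ)) := by
  have h : ∀ a : ℝ, max a 0 - max (-a) 0 = a := by
    intro a
    rcases le_total 0 a with ha | ha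
    · rw [max_eq_left ha, max_eq_right (by linarith), sub_zero]
    · rw [max_eq_right ha, max_eq_left (by linarith)]
      ring
  apply Complex.ext
  · simp
    linarith [h z.re]
  · simp
    linarith [h z.im]

theorem complex_case {q p : ℝ} (hq : 3 < q) (hp : q / (q - 2) < p) : ∃ C : ℝ≥0,
    ∀ (f : ℝ × ℝ → ℂ) (m : ℕ), Measurable f → (∀ x, x ∉ QQ → f x = 0) → 1 ≤ m →
      (∀ l, 0 < l → ∀ x, Few m (fib (Ls (fun y => (f y).re) l) x) ∧
        Few m (fib (Ls (fun y => -(f y).re) l) x) ∧ Few m (fib (Ls (fun y => (f y).im) l) x) ∧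
        Few m (fib (Ls (fun y => -(f y).im) l) x)) →
      eLpNorm (E f) (ENNReal.ofReal q) volume ≤
        C * m * eLpNorm f (ENNReal.ofReal p) volume := by
  obtain ⟨C, hC⟩ := nonneg_case hq hp
  have hq0 : 0 < q := by linarith
  have hq2 : 0 < q - 2 := by linarith
  have hp1 : 1 < p := by
    refine lt_of_le_of_lt ?_ hp
    rw [le_div_iff₀ hq2]
    linarith
  have h1q : (1 : ℝ≥0∞) ≤ ENNReal.ofReal q := by
    rw [← ENNReal.ofReal_one]
    exact ENNReal.ofReal_le_ofReal (by linarith)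
  have h1p : (1 : ℝ≥0∞) ≤ ENNReal.ofReal p := by
    rw [← ENNReal.ofReal_one]
    exact ENNReal.ofReal_le_ofReal (by linarith)
  refine ⟨4 * C + 1, fun f m hf hf0 hm hfew => ?_⟩
  have hm0 : (m : ℝ≥0∞) ≠ 0 := by
    have : m ≠ 0 := by omega
    exact_mod_cast this
  rcases eq_or_ne (eLpNorm f (ENNReal.ofReal p) volume) ⊤ with htop | htop
  · rw [htop, ENNReal.mul_top]
    · exact le_top
    · refine mul_ne_zero ?_ hm0
      simp
  have hL1 : eLpNorm f 1 volume ≤ eLpNorm f (ENNReal.ofReal p) volume :=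
    eLpNorm_le_one (support_QQ hf0) h1p hf.aestronglyMeasurable vol_QQ
  have hint : Integrable f := by
    rw [← memLp_one_iff_integrable]
    exact ⟨hf.aestronglyMeasurable, lt_of_le_of_lt hL1 (lt_top_iff_ne_top.2 htop)⟩
  -- a single part
  have part : ∀ g : ℝ × ℝ → ℝ, Measurable g → (∀ x, |g x| ≤ ‖f x‖) →
      (∀ l, 0 < l → ∀ x, Few m (fib (Ls g l) x)) →
      Integrable (fun x => ((pp g x : ℝ) : ℂ)) ∧
      eLpNorm (E fun x => ((pp g x : ℝ) : ℂ)) (ENNReal.ofReal q) volume ≤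
        C * m * eLpNorm f (ENNReal.ofReal p) volume := by
    intro g hg hgf hgfew
    have hle : ∀ x, ‖pp g x‖ ≤ ‖f x‖ := by
      intro x
      unfold pp
      rw [Real.norm_of_nonneg (le_max_right _ _)]
      exact max_le ((le_abs_self _).trans (hgf x)) (norm_nonneg _)
    constructor
    · have h1 : Integrable (pp g) := hint.mono (measurable_pp hg).aestronglyMeasurable
        (Eventually.of_forall hle)
      exact h1.ofReal
    · refine (hC (pp g) m (measurable_pp hg) (fun x hx => ?_) (fun x => le_max_right _ _) hm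
        (fun l hl x => ?_)).trans ?_
      · have h1 := hle x
        rw [hf0 x hx, norm_zero] at h1
        exact norm_le_zero_iff.1 h1
      · rw [Ls_pp g hl]
        exact hgfew l hl x
      · gcongr
        exact eLpNorm_mono hle
  have hre : Measurable fun y => (f y).re := Complex.measurable_re.comp hf
  have him : Measurable fun y => (f y).im := Complex.measurable_im.comp hf
  obtain ⟨i1, b1⟩ := part (fun y => (f y).re) hre (fun x => Complex.abs_re_le_norm _)
    (fun l hl x => (hfew l hl x).1)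
  obtain ⟨i2, b2⟩ := part (fun y => -(f y).re) hre.neg (fun x => by
    rw [abs_neg]; exact Complex.abs_re_le_norm _) (fun l hl x => (hfew l hl x).2.1)
  obtain ⟨i3, b3⟩ := part (fun y => (f y).im) him (fun x => Complex.abs_im_le_norm _)
    (fun l hl x => (hfew l hl x).2.2.1)
  obtain ⟨i4, b4⟩ := part (fun y => -(f y).im) him.neg (fun x => by
    rw [abs_neg]; exact Complex.abs_im_le_norm _) (fun l hl x => (hfew l hl x).2.2.2)
  set G1 : ℝ × ℝ → ℂ := fun x => ((pp (fun y => (f y).re) x : ℝ) : ℂ) with hG1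
  set G2 : ℝ × ℝ → ℂ := fun x => ((pp (fun y => -(f y).re) x : ℝ) : ℂ) with hG2
  set G3 : ℝ × ℝ → ℂ := fun x => ((pp (fun y => (f y).im) x : ℝ) : ℂ) with hG3
  set G4 : ℝ × ℝ → ℂ := fun x => ((pp (fun y => -(f y).im) x : ℝ) : ℂ) with hG4
  have m1 : Measurable (E G1) := measurable_E (Complex.measurable_ofReal.comp (measurable_pp hre))
  have m2 : Measurable (E G2) :=
    measurable_E (Complex.measurable_ofReal.comp (measurable_pp hre.neg))
  have m3 : Measurable (E G3) := measurable_E (Complex.measurable_ofReal.comp (measurable_pp him))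
  have m4 : Measurable (E G4) :=
    measurable_E (Complex.measurable_ofReal.comp (measurable_pp him.neg))
  have hfE : E f = fun ξ => (E G1 ξ + (-1) * E G2 ξ) +
      (Complex.I * E G3 ξ + (-Complex.I) * E G4 ξ) := by
    funext ξ
    have e1 : f = fun x => (G1 x + (-1) * G2 x) + (Complex.I * G3 x + (-Complex.I) * G4 x) := by
      funext x
      exact four_parts (f x)
    conv_lhs => rw [e1]
    rw [E_add (f := fun x => G1 x + (-1) * G2 x)
      (g := fun x => Complex.I * G3 x + (-Complex.I) * G4 x)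
      (i1.add (i2.const_mul _)) ((i3.const_mul _).add (i4.const_mul _)),
      E_add i1 (i2.const_mul _), E_add (i3.const_mul _) (i4.const_mul _), E_const_mul,
      E_const_mul, E_const_mul]
  have hmono : ∀ (c : ℂ) (g : ℝ × ℝ × ℝ → ℂ), ‖c‖ = 1 →
      eLpNorm (fun ξ => c * g ξ) (ENNReal.ofReal q) volume =
        eLpNorm g (ENNReal.ofReal q) volume := by
    intro c g hc
    refine eLpNorm_congr_norm_ae (Eventually.of_forall fun ξ => ?_)
    rw [norm_mul, hc, one_mul]
  rw [hfE]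
  calc eLpNorm (fun ξ => (E G1 ξ + (-1) * E G2 ξ) +
        (Complex.I * E G3 ξ + (-Complex.I) * E G4 ξ)) (ENNReal.ofReal q) volume
      ≤ eLpNorm (fun ξ => E G1 ξ + (-1) * E G2 ξ) (ENNReal.ofReal q) volume +
        eLpNorm (fun ξ => Complex.I * E G3 ξ + (-Complex.I) * E G4 ξ)
          (ENNReal.ofReal q) volume :=
        eLpNorm_add_le (m1.add (m2.const_mul _)).aestronglyMeasurable
          ((m3.const_mul _).add (m4.const_mul _)).aestronglyMeasurable h1q
    _ ≤ (eLpNorm (E G1) (ENNReal.ofReal q) volume +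
          eLpNorm (fun ξ => (-1) * E G2 ξ) (ENNReal.ofReal q) volume) +
        (eLpNorm (fun ξ => Complex.I * E G3 ξ) (ENNReal.ofReal q) volume +
          eLpNorm (fun ξ => (-Complex.I) * E G4 ξ) (ENNReal.ofReal q) volume) := by
        gcongr
        · exact eLpNorm_add_le m1.aestronglyMeasurable (m2.const_mul _).aestronglyMeasurable h1q
        · exact eLpNorm_add_le (m3.const_mul _).aestronglyMeasurable
            (m4.const_mul _).aestronglyMeasurable h1q
    _ ≤ (C * m * eLpNorm f (ENNReal.ofReal p) volume +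
          C * m * eLpNorm f (ENNReal.ofReal p) volume) +
        (C * m * eLpNorm f (ENNReal.ofReal p) volume +
          C * m * eLpNorm f (ENNReal.ofReal p) volume) := by
        rw [hmono _ _ (by simp), hmono _ _ (by simp), hmono _ _ (by simp)]
        gcongr
    _ = (4 * C : ℝ≥0) * m * eLpNorm f (ENNReal.ofReal p) volume := by
        push_cast
        ring
    _ ≤ _ := by
        gcongr
        exact_mod_cast le_self_add

/-- Number of intervals of the superlevel sets of `f` along the line in direction `e` with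
signed distance `s` from the origin. -/
def LineFew (m : ℕ) (f : ℝ × ℝ → ℂ) (e : ℝ × ℝ) (s : ℝ) : Prop :=
  ∀ l : ℝ, 0 < l →
    Few m {r : ℝ | l < (f (s * e.2 + r * e.1, -(s * e.1) + r * e.2)).re} ∧
    Few m {r : ℝ | l < -(f (s * e.2 + r * e.1, -(s * e.1) + r * e.2)).re} ∧
    Few m {r : ℝ | l < (f (s * e.2 + r * e.1, -(s * e.1) + r * e.2)).im} ∧
    Few m {r : ℝ | l < -(f (s * e.2 + r * e.1, -(s * e.1) + r * e.2)).im}

theorem few_empty (m : ℕ) : Few m ∅ :=
  ⟨fun _ => ∅, fun _ => ordConnected_empty, by simp⟩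

/-- The final statement. -/
theorem final {q p : ℝ} (hq : 3 < q) (hp : q / (q - 2) < p) : ∃ C : ℝ≥0,
    ∀ (f : ℝ × ℝ → ℂ) (e : ℝ × ℝ) (m : ℕ), Measurable f →
    (∀ x : ℝ × ℝ, 1 / 4 < x.1 ^ 2 + x.2 ^ 2 → f x = 0) → e.1 ^ 2 + e.2 ^ 2 = 1 → 1 ≤ m →
    (∀ᵐ s : ℝ, LineFew m f e s) →
    eLpNorm (E f) (ENNReal.ofReal q) volume ≤
      C * m * eLpNorm f (ENNReal.ofReal p) volume := by
  have hq0 : 0 < q := by linarith
  obtain ⟨C, hC⟩ := complex_case hq hp
  refine ⟨C, fun f e m hf hs he hm hfew => ?_⟩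
  obtain ⟨Nl, hNs, hNm, hN0⟩ := exists_measurable_superset_of_null (ae_iff.1 hfew)
  set g : ℝ × ℝ → ℂ := fun x => f (rot e x) with hg
  have hgm : Measurable g := hf.comp (continuous_rot e).measurable
  set Z : Set (ℝ × ℝ) := {x | x.1 ∈ Nl} with hZ
  have hZm : MeasurableSet Z := measurable_fst hNm
  have hZ0 : volume Z = 0 := by
    have h1 : Z = Nl ×ˢ univ := by
      ext x
      simp [hZ]
    rw [h1, Measure.volume_eq_prod, Measure.prod_prod, hN0, zero_mul]
  set g' : ℝ × ℝ → ℂ := Zᶜ.indicator g with hg'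
  have hg'm : Measurable g' := hgm.indicator hZm.compl
  have hae : g' =ᵐ[volume] g := by
    have h1 : ∀ᵐ x : ℝ × ℝ, x ∉ Z := by
      rw [ae_iff]
      simpa using hZ0
    filter_upwards [h1] with x hx
    exact indicator_of_mem hx g
  have hEg : eLpNorm (E f) (ENNReal.ofReal q) volume = eLpNorm (E g') (ENNReal.ofReal q) volume := by
    rw [eLpNorm_E_rot he hf hq0]
    congr 1
    funext ξ
    unfold E
    refine integral_congr_ae ?_
    filter_upwards [hae] with x hx
    rw [hx]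
  have hNg : eLpNorm g' (ENNReal.ofReal p) volume = eLpNorm f (ENNReal.ofReal p) volume := by
    rw [eLpNorm_congr_ae hae]
    exact eLpNorm_comp_measurePreserving hf.aestronglyMeasurable (mp_rot he)
  rw [hEg, ← hNg]
  refine hC g' m hg'm (fun x hx => ?_) hm (fun l hl x => ?_)
  · have h1 : g x = 0 := rot_supp he hs x hx
    rw [hg']
    by_cases hxz : x ∈ Zᶜ
    · rw [indicator_of_mem hxz, h1]
    · rw [indicator_of_notMem hxz]
  · by_cases hx : x ∈ Nl
    · have h0 : ∀ y, g' (x, y) = 0 := fun y => indicator_of_notMem (show (x, y) ∉ Zᶜ from fun h => h hx) _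
      have e1 : fib (Ls (fun y => (g' y).re) l) x = ∅ := by
        ext y
        simp only [fib, Ls, mem_ofPred_eq, h0, Complex.zero_re, mem_empty_iff_false, iff_false]
        linarith
      have e2 : fib (Ls (fun y => -(g' y).re) l) x = ∅ := by
        ext y
        simp only [fib, Ls, mem_ofPred_eq, h0, Complex.zero_re, mem_empty_iff_false, iff_false]
        linarith
      have e3 : fib (Ls (fun y => (g' y).im) l) x = ∅ := by
        ext y
        simp only [fib, Ls, mem_ofPred_eq, h0, Complex.zero_im, mem_empty_iff_false, iff_false]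
        linarith
      have e4 : fib (Ls (fun y => -(g' y).im) l) x = ∅ := by
        ext y
        simp only [fib, Ls, mem_ofPred_eq, h0, Complex.zero_im, mem_empty_iff_false, iff_false]
        linarith
      rw [e1, e2, e3, e4]
      exact ⟨few_empty m, few_empty m, few_empty m, few_empty m⟩
    · have hP : LineFew m f e x := by
        by_contra hn
        exact hx (hNs hn)
      have h0 : ∀ y, g' (x, y) = f (x * e.2 + y * e.1, -(x * e.1) + y * e.2) := by
        intro y
        have h1 : g' (x, y) = g (x, y) := indicator_of_mem (show (x, y) ∈ Zᶜ from hx) _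
        rw [h1]
        change f (rot e (x, y)) = _
        rw [rot_apply]
        congr 2
        · simp only
          ring
        · simp only
          ring
      have h1 := hP l hl
      have e1 : ∀ G : ℂ → ℝ, fib (Ls (fun y => G (g' y)) l) x =
          {r : ℝ | l < G (f (x * e.2 + r * e.1, -(x * e.1) + r * e.2))} := by
        intro G
        ext y
        simp only [fib, Ls, mem_ofPred_eq, h0]
      refine ⟨?_, ?_, ?_, ?_⟩
      · rw [e1 fun z => z.re]
        exact h1.1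
      · rw [e1 fun z => -z.re]
        exact h1.2.1
      · rw [e1 fun z => z.im]
        exact h1.2.2.1
      · rw [e1 fun z => -z.im]
        exact h1.2.2.2

end Pool.Agent.H27.Fib
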